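import Mathlib.Algebra.Order.BigOperators.Ring.Finset
import Mathlib.Analysis.SpecialFunctions.Pow.Real

/-!
The quadratic form of the top order terms of the linearised Euler system, and its positivity.
-/

set_option autoImplicit false

open Finset

namespace Pool.Agent.MP_187b32_an.PM

variable {ι : Type} [Fintype ι]

/-- The squared norm of a pair. -/
def NF (a : ι → ℝ) (b : ι → ι → ℝ) : ℝ := ∑ i, a i ^ 2 + ∑ p, ∑ i, b p i ^ 2

/-- The quadratic form: `α` is the damping, `D p i` the derivative `d_p U_i`, `g` the gradient of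
the weight times the sound speed, `c` the gradient of the sound speed. -/
def QF (α : ℝ) (D : ι → ι → ℝ) (g c a : ι → ℝ) (b : ι → ι → ℝ) : ℝ :=
  α * NF a b + ∑ p, ∑ i, D p i * (a p * a i + ∑ q, b p q * b i q)
    - 2 * ∑ p, ∑ i, g i * (a p * b p i) + ∑ p, c p * (a p * ∑ i, b i i + ∑ i, a i * b p i)

lemma NF_nonneg (a : ι → ℝ) (b : ι → ι → ℝ) : 0 ≤ NF a b := by
  exact add_nonneg (sum_nonneg fun _ _ => sq_nonneg _)
    (sum_nonneg fun _ _ => sum_nonneg fun _ _ => sq_nonneg _)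

lemma proj {n : ι → ℝ} (hn : ∑ i, n i ^ 2 = 1) (a c : ι → ℝ) :
    ∑ i, (a i - (∑ j, a j * n j) * n i) * (c i - (∑ j, c j * n j) * n i) =
      ∑ i, a i * c i - (∑ j, a j * n j) * ∑ j, c j * n j := by
  have : ∀ (α γ : ℝ) i, (a i - α * n i) * (c i - γ * n i) =
      a i * c i - γ * (a i * n i) - α * (c i * n i) + α * γ * n i ^ 2 := fun _ _ _ => by ring
  simp only [this, sum_add_distrib, sum_sub_distrib, ← mul_sum, hn]
  ring

lemma tr_le [DecidableEq ι] {n : ι → ℝ} (hn : ∑ i, n i ^ 2 = 1) (e : ι → ι → ℝ)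
    (h0 : ∑ p, ∑ i, e p i * n i * n p = 0) :
    (∑ i, e i i) ^ 2 ≤ (∑ p, ∑ i, e p i ^ 2) * (Fintype.card ι - 1) := by
  have h := sum_mul_sq_le_sq_mul_sq (univ : Finset (ι × ι)) (fun z => e z.1 z.2)
    fun z => (if z.1 = z.2 then 1 else 0) - n z.1 * n z.2
  simp only [Fintype.sum_prod_type] at h
  have e1 : ∀ p i, e p i * ((if p = i then 1 else 0) - n p * n i) =
      (if p = i then e p i else 0) - e p i * n i * n p := fun p i => by split_ifs <;> ring
  have e2 : ∀ p i, ((if p = i then (1 : ℝ) else 0) - n p * n i) ^ 2 =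
      (if p = i then 1 - 2 * n p ^ 2 else 0) + n p ^ 2 * n i ^ 2 := fun p i => by
    split_ifs with h
    · rw [h]; ring
    · ring
  simp only [e1, sum_sub_distrib, sum_ite_eq, mem_univ, if_true, h0] at h
  simp only [e2, sum_add_distrib, sum_sub_distrib, sum_ite_eq, mem_univ, if_true,
    ← mul_sum, ← sum_mul, hn, sum_const, card_univ, nsmul_eq_mul] at h
  linarith

/-- Positivity for radial coefficients in dimension three. -/
theorem radial_pos [DecidableEq ι] (h3 : Fintype.card ι = 3) {n : ι → ℝ} (hn : ∑ i, n i ^ 2 = 1)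
    {A1 A2 g c : ℝ} (h1 : 0 < A1) (h2 : 0 < A2) (h4 : (c + g) ^ 2 / A1 + c ^ 2 / (2 * A2) ≤ A1)
    (h5 : g ^ 2 / A2 + c ^ 2 / (4 * A1) ≤ A2) (a : ι → ℝ) (b : ι → ι → ℝ) :
    0 ≤ QF A2 (fun p i => (A1 - A2) * (n p * n i)) (fun i => -g * n i) (fun i => c * n i) a b := by
  obtain ⟨α, hα⟩ : ∃ α, α = ∑ j, a j * n j := ⟨_, rfl⟩
  obtain ⟨s, hs⟩ : ∃ s : ι → ℝ, ∀ q, s q = ∑ p, b p q * n p := ⟨_, fun _ => rfl⟩
  obtain ⟨r, hr⟩ : ∃ r : ι → ℝ, ∀ p, r p = ∑ i, b p i * n i := ⟨_, fun _ => rfl⟩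
  obtain ⟨β, hβ⟩ : ∃ β, β = ∑ q, s q * n q := ⟨_, rfl⟩
  have hβ' : β = ∑ p, r p * n p := by
    simp only [hβ, hs, hr, sum_mul]
    rw [sum_comm]
    exact sum_congr rfl fun _ _ => sum_congr rfl fun _ _ => by ring
  have q1 : ∑ p, ∑ i, (A1 - A2) * (n p * n i) * (a p * a i + ∑ q, b p q * b i q) =
      (A1 - A2) * (α ^ 2 + ∑ q, s q * s q) := by
    have e1 : ∑ q, s q * s q = ∑ p, ∑ i, n p * n i * ∑ q, b p q * b i q := by
      simp only [hs, sum_mul_sum]
      simp only [mul_sum]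
      rw [sum_comm]
      refine sum_congr rfl fun _ _ => ?_
      rw [sum_comm]
      exact sum_congr rfl fun _ _ => sum_congr rfl fun _ _ => by ring
    rw [e1, sq, hα, sum_mul_sum, ← sum_add_distrib, mul_sum]
    refine sum_congr rfl fun _ _ => ?_
    rw [← sum_add_distrib, mul_sum]
    exact sum_congr rfl fun _ _ => by ring
  have q2 : ∑ p, ∑ i, -g * n i * (a p * b p i) = -g * ∑ p, a p * r p := by
    simp only [hr, mul_sum]
    exact sum_congr rfl fun _ _ => sum_congr rfl fun _ _ => by ring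
  have q3 : ∑ p, c * n p * (a p * ∑ i, b i i + ∑ i, a i * b p i) =
      c * (α * ∑ i, b i i + ∑ i, a i * s i) := by
    have e1 : ∑ i, a i * s i = ∑ p, n p * ∑ i, a i * b p i := by
      simp only [hs, mul_sum]
      rw [sum_comm]
      exact sum_congr rfl fun _ _ => sum_congr rfl fun _ _ => by ring
    rw [e1, hα, sum_mul, ← sum_add_distrib, mul_sum]
    exact sum_congr rfl fun _ _ => by ring
  have p1 := proj hn a a
  have p2 := proj hn s s
  have p3 := proj hn r r
  have p4 := proj hn a s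
  have p5 := proj hn a r
  rw [← hα] at p1 p4 p5
  rw [← hβ] at p2 p4
  rw [← hβ'] at p3 p5
  have w0 : ∀ p, ∑ j, (b p j - s j * n p) * n j = r p - β * n p := fun p => by
    rw [hr, hβ, sum_mul, ← sum_sub_distrib]
    exact sum_congr rfl fun _ _ => by ring
  have k1 := fun i => proj hn (fun p => b p i) fun p => b p i
  have k2 := fun p => proj hn (fun i => b p i - s i * n p) fun i => b p i - s i * n p
  simp only [← hs] at k1
  simp only [w0] at k2
  have k3 := tr_le hn (fun p i => b p i - s i * n p - (r p - β * n p) * n i) (by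
    refine sum_eq_zero fun p _ => ?_
    have : ∀ i, (b p i - s i * n p - (r p - β * n p) * n i) * n i =
        (b p i - s i * n p) * n i - (r p - β * n p) * n i ^ 2 := fun _ => by ring
    rw [← sum_mul]
    simp only [this, sum_sub_distrib, w0, ← mul_sum, hn]
    ring)
  have k4 : ∑ i, (b i i - s i * n i - (r i - β * n i) * n i) = ∑ i, b i i - β := by
    have : ∀ i, (r i - β * n i) * n i = r i * n i - β * n i ^ 2 := fun _ => by ring
    simp only [this, sum_sub_distrib, ← mul_sum, hn, ← hβ, ← hβ']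
    ring
  have k5 : ∑ p, ∑ i, (b p i - s i * n p - (r p - β * n p) * n i) ^ 2 =
      ∑ p, ∑ i, b p i ^ 2 - ∑ q, s q * s q - ∑ p, (r p - β * n p) * (r p - β * n p) := by
    simp only [sq, k2, sum_sub_distrib]
    rw [sum_comm]
    simp only [k1, sum_sub_distrib]
    rw [sum_comm]
  rw [k4, k5, h3] at k3
  have b2 : 0 ≤ ∑ i, (A2 * ((a i - α * n i) * (a i - α * n i)) +
      A1 * ((s i - β * n i) * (s i - β * n i)) + A2 * ((r i - β * n i) * (r i - β * n i)) +
      2 * g * ((a i - α * n i) * (r i - β * n i)) + c * ((a i - α * n i) * (s i - β * n i))) :=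
    sum_nonneg fun i _ => by
      generalize a i - α * n i = x
      generalize s i - β * n i = u
      generalize r i - β * n i = w
      have e : A2 * (x * x) + A1 * (u * u) + A2 * (w * w) + 2 * g * (x * w) + c * (x * u) =
          (A2 - (g ^ 2 / A2 + c ^ 2 / (4 * A1))) * x ^ 2 + A1 * (u + c * x / (2 * A1)) ^ 2 +
            A2 * (w + g * x / A2) ^ 2 := by
        field_simp
        ring
      have := sub_nonneg.2 h5
      rw [e]
      positivity
  simp only [sum_add_distrib, ← mul_sum] at b2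
  have b1 : ∀ t, 0 ≤ A1 * α ^ 2 + A1 * β ^ 2 + A2 / 2 * t ^ 2 + 2 * (c + g) * (α * β) +
      c * (α * t) := fun t => by
    have e : A1 * α ^ 2 + A1 * β ^ 2 + A2 / 2 * t ^ 2 + 2 * (c + g) * (α * β) + c * (α * t) =
        (A1 - ((c + g) ^ 2 / A1 + c ^ 2 / (2 * A2))) * α ^ 2 + A1 * (β + (c + g) * α / A1) ^ 2 +
          A2 / 2 * (t + c * α / A2) ^ 2 := by
      field_simp
      ring
    have := sub_nonneg.2 h4
    rw [e]
    positivity
  have b3 := mul_le_mul_of_nonneg_left k3 h2.le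
  have b4 := b1 (∑ i, b i i - β)
  unfold QF NF
  rw [q1, q2, q3]
  rw [p1, p2, p4, p5] at b2
  simp only [sq (a _)]
  push_cast at b3
  nlinarith

lemma QF_eq [DecidableEq ι] (φ w lam α : ℝ) (D : ι → ι → ℝ) (g c a : ι → ℝ) (b : ι → ι → ℝ) :
    QF (φ * α) (fun p i => φ * ((if i = p then 1 else 0) * w + D p i)) (fun i => φ * g i)
      (fun i => φ * c i) a b = φ * QF (α + w - lam) D g c a b + lam * φ * NF a b := by
  have e : ∀ p i, φ * ((if i = p then 1 else 0) * w + D p i) * (a p * a i + ∑ q, b p q * b i q) =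
      φ * ((if i = p then w * (a p ^ 2 + ∑ q, b p q ^ 2) else 0) +
        D p i * (a p * a i + ∑ q, b p q * b i q)) := fun p i => by
    split_ifs with h
    · simp only [h, sq]; ring
    · ring
  simp only [QF, NF, e, mul_assoc φ, ← mul_sum, sum_add_distrib, sum_ite_eq', mem_univ, if_true]
  ring

/-- The form without weight is controlled by the scalar repulsivity condition. -/
theorem crude_pos {lam m : ℝ} {D : ι → ι → ℝ} {c : ι → ℝ} (hm : 0 ≤ m)
    (hc : Fintype.card ι * ∑ i, c i ^ 2 ≤ m ^ 2) (hc' : ∑ i, c i ^ 2 ≤ m ^ 2)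
    (h : ∀ ξ : ι → ℝ, lam * ∑ i, ξ i ^ 2 ≤ (1 - m) * ∑ i, ξ i ^ 2 + ∑ p, ∑ i, ξ p * ξ i * D p i)
    (a : ι → ℝ) (b : ι → ι → ℝ) : lam * NF a b ≤ QF 1 D (fun _ => 0) c a b := by
  have h1 := h a
  have h2 := sum_le_sum fun q (_ : q ∈ univ) => h fun p => b p q
  have e1 : ∑ p, ∑ i, D p i * (a p * a i + ∑ q, b p q * b i q) =
      ∑ p, ∑ i, a p * a i * D p i + ∑ q, ∑ p, ∑ i, b p q * b i q * D p i := by
    rw [sum_comm (f := fun q p => ∑ i, b p q * b i q * D p i), ← sum_add_distrib]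
    refine sum_congr rfl fun _ _ => ?_
    rw [sum_comm, ← sum_add_distrib]
    refine sum_congr rfl fun _ _ => ?_
    rw [← sum_mul]
    ring
  have e2 : ∑ p, c p * (a p * ∑ i, b i i + ∑ i, a i * b p i) =
      (∑ p, c p * a p) * ∑ i, b i i + ∑ p, ∑ i, c p * a i * b p i := by
    rw [sum_mul, ← sum_add_distrib]
    refine sum_congr rfl fun _ _ => ?_
    rw [mul_add, mul_sum _ (fun i => a i * b _ i)]
    simp only [mul_assoc]
  have a0 : 0 ≤ ∑ i, a i ^ 2 := sum_nonneg fun _ _ => sq_nonneg _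
  have b0 : 0 ≤ ∑ p, ∑ i, b p i ^ 2 := sum_nonneg fun _ _ => sum_nonneg fun _ _ => sq_nonneg _
  have c0 : 0 ≤ ∑ i, c i ^ 2 := sum_nonneg fun _ _ => sq_nonneg _
  have s1 := sum_mul_sq_le_sq_mul_sq univ c a
  have s2 := sum_mul_sq_le_sq_mul_sq univ (fun _ : ι => (1 : ℝ)) fun i => b i i
  have s3 : ∑ i, b i i ^ 2 ≤ ∑ p, ∑ i, b p i ^ 2 := sum_le_sum fun p _ =>
    single_le_sum (f := fun i => b p i ^ 2) (fun _ _ => sq_nonneg _) (mem_univ p)
  have s4 := sum_mul_sq_le_sq_mul_sq (univ : Finset (ι × ι)) (fun z => c z.1 * a z.2)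
    fun z => b z.1 z.2
  simp only [one_mul, one_pow, sum_const, card_univ, nsmul_eq_mul, mul_one] at s2
  simp only [Fintype.sum_prod_type, mul_pow, ← mul_sum, ← sum_mul] at s4
  simp only [sum_add_distrib, ← mul_sum] at h2
  rw [sum_comm (f := fun q i => b i q ^ 2)] at h2
  have key : ∀ x : ℝ, x ^ 2 ≤ m ^ 2 * ((∑ i, a i ^ 2) * ∑ p, ∑ i, b p i ^ 2) →
      -(m * NF a b / 2) ≤ x := fun x hx => by
    refine neg_le_of_abs_le (abs_le_of_sq_le_sq (hx.trans ?_)
      (div_nonneg (mul_nonneg hm (NF_nonneg a b)) two_pos.le))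
    unfold NF
    nlinarith [mul_nonneg (sq_nonneg m) (sq_nonneg (∑ i, a i ^ 2 - ∑ p, ∑ i, b p i ^ 2))]
  have t1 := key ((∑ p, c p * a p) * ∑ i, b i i) (by
    rw [mul_pow]
    refine (mul_le_mul s1 (s2.trans (mul_le_mul_of_nonneg_left s3 (Nat.cast_nonneg _)))
      (sq_nonneg _) (mul_nonneg c0 a0)).trans ?_
    nlinarith [mul_le_mul_of_nonneg_right hc (mul_nonneg a0 b0)])
  have t2 := key (∑ p, ∑ i, c p * a i * b p i) (s4.trans (by
    nlinarith [mul_le_mul_of_nonneg_right hc' (mul_nonneg a0 b0)]))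
  unfold QF
  rw [e1, e2]
  unfold NF at *
  simp only [zero_mul, sum_const_zero]
  linarith

end Pool.Agent.MP_187b32_an.PM
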