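import Pool.Agent.MP_187b32_an.PM.Spec
import Pool.Agent.MP_187b32_an.PD.Ser

/-!
Gluing the inner and the outer part of the profile.
-/

set_option autoImplicit false

open Set Filter Topology
open scoped ContDiff

namespace Pool.Agent.MP_187b32_an.PM

open PD

theorem glueP : GlueP := by
  classical
  rintro P e r q1 y1 he hq1 hP ⟨d, lam, Wi, ni, hd, hlam, cW, cn, hE, hR, h41⟩
    ⟨lam2, y0, hlam2, Y, -, hY0, hY⟩
  have hq0 : 0 < q1 := by linarith
  obtain ⟨lam3, hlam3, hfar⟩ := hP.far lam2 hlam2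
  replace hP := hP.mono
  have hsq : (√(q1 ^ 2)⁻¹)⁻¹ = q1 := by
    rw [Real.sqrt_inv, inv_inv, Real.sqrt_sq hq0.le]
  have hX4 : (q1 ^ 2)⁻¹ ≤ 4 := by
    rw [inv_le_comm₀ (by positivity) (by norm_num)]
    nlinarith
  have hXD : e - (q1 ^ 2)⁻¹ * (1 + Wi (q1 ^ 2)⁻¹) ^ 2 ≠ 0 := by
    have := (hY q1 ⟨by linarith, le_rfl⟩).2.2.1
    rw [h41, out_D hq0.ne', ← hY0]
    exact div_ne_zero (by linarith) (by positivity)
  have hX0 : 0 < (q1 ^ 2)⁻¹ := by positivity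
  generalize (q1 ^ 2)⁻¹ = X at *
  let Wo : ℝ → ℝ := fun s => (√s)⁻¹ * Y (√s)⁻¹
  let W : ℝ → ℝ := fun s => if s ≤ X then Wi s else Wo s
  let nu : ℝ → ℝ := fun s => if s ≤ X then ni s else nuF e r s (Wo s)
  have hqm : ∀ s, X ≤ s → (√s)⁻¹ ∈ Icc (-1 / 10 : ℝ) q1 := fun s hs =>
    ⟨by linarith [(q_facts (hX0.trans_le hs)).1],
      hsq ▸ inv_anti₀ (Real.sqrt_pos.2 hX0) (Real.sqrt_le_sqrt hs)⟩
  have hW4 : Wo X = Wi X := by
    simp only [Wo, hsq, hY0, h41]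
  have hWi : ∀ s, s ≤ X → W s = Wi s := fun s hs => if_pos hs
  have hni : ∀ s, s ≤ X → nu s = ni s := fun s hs => if_pos hs
  have hWo : ∀ s, X ≤ s → W s = Wo s := fun s hs => by
    rcases hs.eq_or_lt with rfl | hs
    · rw [hWi _ le_rfl, hW4]
    · exact if_neg (not_le.2 hs)
  have hWev : ∀ s, s < X → W =ᶠ[𝓝 s] Wi := fun s hs =>
    (Iio_mem_nhds hs : Iio X ∈ 𝓝 s) |> fun h => mem_of_superset h fun t ht => hWi t (le_of_lt ht)
  have hnev : ∀ s, s < X → nu =ᶠ[𝓝 s] ni := fun s hs =>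
    (Iio_mem_nhds hs : Iio X ∈ 𝓝 s) |> fun h => mem_of_superset h fun t ht => hni t (le_of_lt ht)
  have cWa : ∀ s, -d < s → s ≤ X → ContDiffAt ℝ ∞ Wi s := fun s h1 h2 =>
    cW.contDiffAt (Ioo_mem_nhds h1 (by linarith))
  have cna : ∀ s, -d < s → s ≤ X → ContDiffAt ℝ ∞ ni s := fun s h1 h2 =>
    cn.contDiffAt (Ioo_mem_nhds h1 (by linarith))
  have ho : ∀ s, X ≤ s → e - s * (1 + Wo s) ^ 2 ≠ 0 ∧
      1 - s * nuF e r s (Wo s) = dO e r (√s)⁻¹ (Y (√s)⁻¹) / sO e (√s)⁻¹ (Y (√s)⁻¹) ∧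
      0 < dO e r (√s)⁻¹ (Y (√s)⁻¹) / sO e (√s)⁻¹ (Y (√s)⁻¹) ∧
      HasDerivWithinAt Wo (gF e r s (Wo s)) (Ici X) s := fun s hs => by
    obtain ⟨q0, q2, q3⟩ := q_facts (hX0.trans_le hs)
    obtain ⟨y1, a2, a1, -⟩ := hY _ (hqm s hs)
    have a3 := y1.comp s (q3.hasDerivWithinAt (s := Ici X)) fun t ht => hqm t ht
    have a4 := (q3.hasDerivWithinAt (s := Ici X)).fun_mul a3
    simp only [Function.comp_def] at a4
    simp only [Wo]
    generalize (√s)⁻¹ = q at *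
    subst q2
    refine ⟨?_, out_mu q0.ne' a1.ne', div_pos a2 a1, ?_⟩
    · rw [out_D q0.ne']
      exact div_ne_zero (by linarith) (by positivity)
    · rw [out_g q0.ne' a1.ne' a2.ne']
      exact a4
  obtain ⟨ε, hε, hε'⟩ : ∃ ε > 0, ∀ s, X - ε < s → s ≤ X → 0 < s ∧ e - s * (1 + Wi s) ^ 2 ≠ 0 := by
    have c1 : ContinuousAt (fun s => e - s * (1 + Wi s) ^ 2) X := by
      have := (cWa X (by linarith) le_rfl).continuousAt
      fun_prop
    have c2 := c1.eventually_ne (y := 0) hXD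
    obtain ⟨ε, hε, h⟩ := Metric.eventually_nhds_iff.1 (c2.and (Ioi_mem_nhds hX0))
    exact ⟨ε, hε, fun s h1 h2 => (h (by rw [Real.dist_eq, abs_lt]; constructor <;> linarith)).symm⟩
  have hi : ∀ s, X - ε < s → s ≤ X → ni s = nuF e r s (Wi s) ∧ 0 < 1 - s * ni s ∧
      HasDerivAt Wi (gF e r s (Wi s)) s := fun s h1 h2 => by
    obtain ⟨a1, a2⟩ := hε' s h1 h2
    obtain ⟨a3, a4⟩ := eqs_solve (hE s ⟨by linarith, by linarith⟩) a2
    have a5 := (hR s ⟨a1.le, h2⟩).1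
    refine ⟨a3, a5, ((cWa s (by linarith) h2).differentiableAt (by simp)).hasDerivAt.congr_deriv ?_⟩
    rw [gF, ← a3, ← a4, AA, eq_div_iff (by positivity)]
    ring
  have hm : ∀ s, X - ε < s → nu s = nuF e r s (W s) ∧ 0 < s ∧ e - s * (1 + W s) ^ 2 ≠ 0 ∧
      0 < 1 - s * nu s ∧ HasDerivAt W (gF e r s (W s)) s := fun s h1 => by
    rcases lt_trichotomy s X with h2 | rfl | h2
    · obtain ⟨a1, a2, a3⟩ := hi s h1 h2.le
      rw [hWi s h2.le, hni s h2.le]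
      exact ⟨a1, (hε' s h1 h2.le).1, (hε' s h1 h2.le).2, a2, a3.congr_of_eventuallyEq (hWev s h2)⟩
    · obtain ⟨a1, a2, a3⟩ := hi _ h1 le_rfl
      rw [hWi _ le_rfl, hni _ le_rfl]
      refine ⟨a1, hX0, (hε' _ h1 le_rfl).2, a2, ?_⟩
      have b1 : HasDerivWithinAt W (gF e r s (Wi s)) (Iic s) s :=
        a3.hasDerivWithinAt.congr (fun t ht => hWi t ht) (hWi _ le_rfl)
      have b2 : HasDerivWithinAt W (gF e r s (Wi s)) (Ici s) s :=
        (hW4 ▸ (ho _ le_rfl).2.2.2).congr (fun t ht => hWo t ht) (hWo _ le_rfl)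
      have b3 := b1.union b2
      rwa [Iic_union_Ici, hasDerivWithinAt_univ] at b3
    · obtain ⟨a1, a2, a3, a4⟩ := ho s h2.le
      have e1 : nu s = nuF e r s (Wo s) := if_neg (not_le.2 h2)
      rw [e1, hWo s h2.le, a2]
      refine ⟨rfl, by linarith, a1, a3, (a4.hasDerivAt (Ici_mem_nhds h2)).congr_of_eventuallyEq ?_⟩
      exact mem_of_superset (Ici_mem_nhds h2) fun t ht => hWo t ht
  have cW1 : ContDiffOn ℝ ∞ W (Ioi (X - ε)) :=
    Prof.boot isOpen_Ioi (G := fun p => gF e r p.1 p.2) (fun s hs => (hm s hs).2.2.2.2) fun s hs => by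
      obtain ⟨a1, a2, a3, a4, -⟩ := hm s hs
      exact gF_cd a3 a2.ne' (by rw [← a1]; exact a4.ne')
  have cn1 : ContDiffOn ℝ ∞ nu (Ioi (X - ε)) := by
    refine ContDiffOn.congr (f := fun s => nuF e r s (W s)) ?_ fun s hs => (hm s hs).1
    unfold nuF
    exact ContDiffOn.div (by fun_prop) (by fun_prop) fun s hs => (hm s hs).2.2.1
  obtain ⟨d', hd', hd''⟩ : ∃ d' > 0, ∀ s, -d' < s → s ≤ 0 → -d < s ∧ 0 < 1 - s * ni s := by
    have c1 : ContinuousAt (fun s => 1 - s * ni s) 0 := by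
      have := (cna 0 (by linarith) hX0.le).continuousAt
      fun_prop
    have c2 := c1.eventually (Ioi_mem_nhds (a := 0) (by simp))
    obtain ⟨ε, hε, h⟩ := Metric.eventually_nhds_iff.1 (c2.and (Ioi_mem_nhds (neg_lt_zero.2 hd)))
    exact ⟨ε, hε, fun s h1 h2 => (h (by rw [Real.dist_eq, abs_lt]; constructor <;> linarith)).symm⟩
  have hdd : ∀ s, -d' < s → -d < s := fun s hs => by
    rcases le_total s 0 with h | h
    · exact (hd'' s hs h).1
    · linarith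
  have hsub : ∀ q ∈ Ioo (-1 / 10 : ℝ) (1 / 2), q ∈ Icc (-1 / 10 : ℝ) q1 := fun q hq =>
    ⟨hq.1.le, by linarith [hq.2]⟩
  have cY : ContDiffOn ℝ ∞ Y (Ioo (-1 / 10) (1 / 2)) :=
    Prof.boot isOpen_Ioo (G := fun p => -nO e r p.1 p.2 / dO e r p.1 p.2)
      (fun q hq => (hY q (hsub q hq)).1.hasDerivAt (Icc_mem_nhds hq.1 (by linarith [hq.2])))
      fun q hq => ContDiffAt.div (by unfold nO; fun_prop) (by unfold dO GG; fun_prop)
        (hY q (hsub q hq)).2.1.ne'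
  refine ⟨d', min lam lam3, W, nu, Y, fun q => dO e r q (Y q) / sO e q (Y q), hd',
    lt_min hlam hlam3, fun s hs => ?_, fun s hs => ?_, fun s hs => ?_, fun s hs => ?_, cY,
    ?_, by simp [dO, sO, GG], fun q hq => ?_, fun s hs => ⟨hWo s (by linarith), ?_⟩⟩
  · rcases lt_or_ge s X with h | h
    · exact ((cWa s (hdd s hs) h.le).congr_of_eventuallyEq (hWev s h)).contDiffWithinAt
    · exact (cW1.contDiffAt (Ioi_mem_nhds (by linarith))).contDiffWithinAt
  · rcases lt_or_ge s X with h | h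
    · exact ((cna s (hdd s hs) h.le).congr_of_eventuallyEq (hnev s h)).contDiffWithinAt
    · exact (cn1.contDiffAt (Ioi_mem_nhds (by linarith))).contDiffWithinAt
  · rcases le_total s 0 with h | h
    · rw [hni s (by linarith)]
      exact (hd'' s hs h).2
    · rcases le_total s X with h' | h'
      · rw [hni s h']
        exact (hR s ⟨h, h'⟩).1
      · exact (hm s (by linarith)).2.2.2.1
  · rcases lt_or_ge s X with h | h
    · have e1 : AA W nu s = AA Wi ni s := by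
        simp only [AA, hWi s h.le, hni s h.le, (hWev s h).deriv_eq]
      unfold Eqs
      rw [e1, hWi s h.le, hni s h.le]
      exact ⟨hE s ⟨by linarith, by linarith⟩, hP _ _ _ _ _ _ hs (lt_min hlam hlam3)
        (min_le_left _ _) (hR s ⟨hs, h.le⟩).1 (hR s ⟨hs, h.le⟩).2⟩
    · obtain ⟨a1, a2, a3, a4, a5⟩ := hm s (by linarith)
      have e1 : AA W nu s = aF e r s (W s) := by
        rw [AA, a5.deriv, gF, ← a1]
        field_simp
        ring
      obtain ⟨q0, q2, -⟩ := q_facts a2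
      have b1 := out_rep q0.ne' (hY _ (hqm s h)).2 q2.symm (hWo s h) a1 e1
      refine ⟨eqs_of a1 e1 a3, hP _ _ _ _ _ _ hs (lt_min hlam hlam3) (min_le_right _ _) a4
        (hfar _ _ _ _ h ?_ b1)⟩
      have b2 := (hY _ (hqm s h)).2.2.1
      have b3 := out_D (e := e) (y := Y (√s)⁻¹) q0.ne'
      have b4 : 0 < sO e (√s)⁻¹ (Y (√s)⁻¹) / (√s)⁻¹ ^ 2 := by positivity
      rw [q2, neg_div] at b3
      rw [hWo s h]
      simp only [Wo]
      linarith
  · refine ContDiffOn.div (by unfold dO GG; fun_prop) (by unfold sO; fun_prop) fun q hq => ?_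
    exact (hY q (hsub q hq)).2.2.1.ne'
  · exact div_pos (hY q (hsub q hq)).2.1 (hY q (hsub q hq)).2.2.1
  · have e1 : nu s = nuF e r s (Wo s) := if_neg (not_le.2 (by linarith))
    rw [e1]
    exact (ho s (by linarith)).2.1

end Pool.Agent.MP_187b32_an.PM
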