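import Pool.Agent.MP_187b32_an.PD.SmallO.Out

/-!
The outer part of the profile from a rational value `q1`, between two straight barriers.
-/

set_option autoImplicit false

open Set

namespace Pool.Agent.MP_187b32_an.PM

open PD PD.SmallO
open Pool.Agent.MP_187b32_an.Prof (tube_ode Ball sc sc_pos Mem bpos Ex)

theorem outer_of {e r lam L h a s q1 y1 : ℝ} (hq1 : 0 ≤ q1) (hlam : 0 < lam) (ha : 0 ≤ a) (hs : 0 ≤ s)
    (hy : y1 ∈ Icc (-L) (-h))
    (c1 : ∀ τ ∈ Icc (0 : ℝ) (q1 + 1 / 10), ∀ y ∈ Icc (-L - a * τ) (-h + s * τ),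
      RepO lam e r (q1 - τ) y)
    (c2 : ∀ τ ∈ Icc (0 : ℝ) (q1 + 1 / 10),
      0 < s * dO e r (q1 - τ) (-h + s * τ) - nO e r (q1 - τ) (-h + s * τ))
    (c3 : ∀ τ ∈ Icc (0 : ℝ) (q1 + 1 / 10),
      0 < a * dO e r (q1 - τ) (-L - a * τ) + nO e r (q1 - τ) (-L - a * τ)) :
    Outer e r q1 y1 := by
  have hle : ∀ τ ∈ Icc (0 : ℝ) (q1 + 1 / 10), -L - a * τ ≤ -h + s * τ := fun τ hτ => by
    have := mul_nonneg ha hτ.1
    have := mul_nonneg hs hτ.1
    linarith [hy.1, hy.2]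
  set K : Set (ℝ × ℝ) := {p | p.1 ∈ Icc (0 : ℝ) (q1 + 1 / 10) ∧ p.2 ∈ Icc (-L - a * p.1) (-h + s * p.1)}
    with hK
  have hKc : IsCompact K := by
    refine (isCompact_Icc.prod (isCompact_Icc (a := -L - a * (q1 + 1 / 10))
      (b := -h + s * (q1 + 1 / 10)))).of_isClosed_subset ?_ (fun p hp => ⟨hp.1, ?_, ?_⟩)
    · refine (isClosed_Icc.preimage continuous_fst).inter (IsClosed.inter
        (isClosed_le (f := fun p : ℝ × ℝ => -L - a * p.1) (by fun_prop) continuous_snd)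
        (isClosed_le (g := fun p : ℝ × ℝ => -h + s * p.1) continuous_snd (by fun_prop)))
    · nlinarith [hp.2.1, hp.1.2]
    · nlinarith [hp.2.2, hp.1.2]
  have hKv : Convex ℝ K := by
    intro p hp p' hp' u v hu hv huv
    have e1 : L = u * L + v * L := by rw [← add_mul, huv, one_mul]
    have e2 : h = u * h + v * h := by rw [← add_mul, huv, one_mul]
    refine ⟨convex_Icc _ _ hp.1 hp'.1 hu hv huv, ?_, ?_⟩
    · simp only [Prod.fst_add, Prod.snd_add, Prod.smul_fst, Prod.smul_snd, smul_eq_mul]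
      nlinarith [mul_le_mul_of_nonneg_left hp.2.1 hu, mul_le_mul_of_nonneg_left hp'.2.1 hv]
    · simp only [Prod.fst_add, Prod.snd_add, Prod.smul_fst, Prod.smul_snd, smul_eq_mul]
      nlinarith [mul_le_mul_of_nonneg_left hp.2.2 hu, mul_le_mul_of_nonneg_left hp'.2.2 hv]
  have hcd : ContDiffOn ℝ 1 (fun p : ℝ × ℝ => nO e r (q1 - p.1) p.2 / dO e r (q1 - p.1) p.2) K := by
    refine ContDiffOn.div ?_ ?_ (fun p hp => (c1 _ hp.1 _ hp.2).1.ne')
    · unfold nO; fun_prop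
    · unfold dO GG; fun_prop
  obtain ⟨M, hM⟩ := hcd.exists_lipschitzOnWith one_ne_zero hKv hKc
  obtain ⟨V, hV0, hV, -⟩ := tube_ode (P := Unit)
    (F := fun _ τ v => nO e r (q1 - τ) v / dO e r (q1 - τ) v)
    (lo := fun _ τ => -L - a * τ) (hi := fun _ τ => -h + s * τ) (lo' := fun _ _ => -a)
    (hi' := fun _ _ => s) (a := 0) (b := q1 + 1 / 10) (by linarith) (by fun_prop) (by fun_prop)
    (fun _ τ h => hle τ h)
    (hcd.continuousOn.comp (f := fun q : Unit × ℝ × ℝ => (q.2.1, q.2.2)) (by fun_prop)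
      fun q hq => ⟨hq.1, hq.2⟩) M.2
    (fun _ τ h v hv w hw => by
      have := hM.dist_le_mul (τ, v) ⟨h, hv⟩ (τ, w) ⟨h, hw⟩
      rwa [Prod.dist_eq, dist_self, max_eq_right dist_nonneg, Real.dist_eq, Real.dist_eq] at this)
    (fun _ τ => by simpa using ((hasDerivAt_id τ).const_mul a).const_sub (-L))
    (fun _ τ => by simpa using ((hasDerivAt_id τ).const_mul s).const_add (-h))
    (fun _ τ h => by
      have h' := Ico_subset_Icc_self h
      rw [div_lt_iff₀ (c1 τ h' _ ⟨hle τ h', le_rfl⟩).1]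
      linarith [c2 τ h'])
    (fun _ τ h => by
      have h' := Ico_subset_Icc_self h
      rw [lt_div_iff₀ (c1 τ h' _ ⟨le_rfl, hle τ h'⟩).1]
      linarith [c3 τ h'])
    (v0 := fun _ => y1) continuous_const (fun _ => by simpa using hy)
  refine ⟨lam, V () (q1 + 1 / 10), hlam, fun q => V () (q1 - q), by simp only [neg_div, sub_neg_eq_add], by simpa using hV0 (),
    fun q hq => ?_⟩
  have hτ : q1 - q ∈ Icc (0 : ℝ) (q1 + 1 / 10) := ⟨by linarith [hq.2], by linarith [hq.1]⟩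
  obtain ⟨h1, h2⟩ := hV () _ hτ
  refine ⟨?_, by simpa using c1 _ hτ _ h2⟩
  have h3 : HasDerivWithinAt (fun q : ℝ => q1 - q) (-1) (Icc (-1 / 10) q1) q :=
    ((hasDerivAt_id q).const_sub q1).hasDerivWithinAt
  have := h1.comp q h3 fun x hx => ⟨by linarith [hx.2], by linarith [hx.1]⟩
  simpa [Function.comp_def, neg_div] using this

/-- Data: the dimension, `q1 = qn / qd`, and `r`, `L`, `h`, `s`, `lam` in units of `1 / 10000`. -/
structure OD where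
  d : ℕ
  qn : ℕ
  qd : ℕ
  rl : ℤ
  ru : ℤ
  L : ℤ
  h : ℤ
  s : ℤ
  lam : ℤ

namespace OD

variable (D : OD)

/-- The first list of variables: `t, θ, L, h, q1, s, 1 / 10`. -/
def env0 (t θ : Ball) : List Ball :=
  [t, θ, biv D.L D.L 10000, biv D.h D.h 10000, biv D.qn D.qn D.qd, biv D.s D.s 10000, biv 1 1 10]

def yt : Ex := (.var 4 + .var 6) * (.var 0 * .var 0)
def yq : Ex := .var 4 - yt
def yy : Ex := -(.var 2) + .var 1 * (.var 2 - .var 3 + .var 5 * yt)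

def env (t θ : Ball) : List Ball :=
  [biv 1 1 D.d, biv D.rl D.ru 10000, yq.evB (D.env0 t θ), yy.evB (D.env0 t θ),
    (yq * yy).evB (D.env0 t θ), biv D.lam D.lam 10000, biv 0 0 1, biv D.s D.s 10000]

def ok1 (v : List Ball) : Bool :=
  bpos (xd.evB v) && bpos (xs.evB v) && bpos (xw.evB v) &&
    bpos ((.int 6 * xp - .int 7 * xb : Ex).evB v) &&
    bpos ((.int 6 * xp + .int 7 * xb : Ex).evB v) &&
    bpos ((.int 6 * (xw * xs) - .int 7 * xb : Ex).evB v) &&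
    bpos ((.int 6 * (xw * xs) + .int 7 * xb : Ex).evB v)

def ok (N M : ℕ) : Bool :=
  decide (0 < D.d) && decide (0 < D.qd) && decide (0 < D.lam) && decide (0 ≤ D.s) &&
  (List.range N).all (fun i =>
    (List.range M).all (fun j => ok1 (D.env (biv i (i + 1) N) (biv j (j + 1) M))) &&
    bpos ((.var 7 * xd - xn : Ex).evB (D.env (biv i (i + 1) N) (biv 1 1 1))) &&
    bpos (xn.evB (D.env (biv i (i + 1) N) (biv 0 0 1))))

lemma mem_env (hd : 0 < D.d) (hq0 : 0 < D.qd) {r t θ τ : ℝ} (h1 : (D.rl : ℝ) / 10000 ≤ r)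
    (h2 : r ≤ D.ru / 10000) {T Θ : Ball} (ht : Mem t T) (hθ : Mem θ Θ) {y : ℝ}
    (hτ : τ = (D.qn / D.qd + 1 / 10) * (t * t))
    (hy : y = -(D.L / 10000) + θ * (D.L / 10000 - D.h / 10000 + D.s / 10000 * τ)) :
    List.Forall₂ Mem [1 / (D.d : ℝ), r, D.qn / D.qd - τ, y, (D.qn / D.qd - τ) * y, D.lam / 10000, 0,
      D.s / 10000] (D.env T Θ) := by
  have m : ∀ n : ℤ, Mem ((n : ℝ) / 10000) (biv n n 10000) := fun n =>
    mem_biv (by norm_num) (by norm_num) (by norm_num)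
  have h0 : List.Forall₂ Mem [t, θ, D.L / 10000, D.h / 10000, D.qn / D.qd, D.s / 10000, 1 / 10]
      (D.env0 T Θ) :=
    .cons ht (.cons hθ (.cons (m _) (.cons (m _) (.cons (mem_biv hq0 (by simp) (by simp))
      (.cons (m _) (.cons (mem_biv (by norm_num) (by norm_num) (by norm_num)) .nil))))))
  have e1 : yq.ev [t, θ, D.L / 10000, D.h / 10000, D.qn / D.qd, D.s / 10000, 1 / 10] =
      D.qn / D.qd - τ := by
    rw [hτ]
    change (D.qn / D.qd : ℝ) + -((D.qn / D.qd + 1 / 10) * (t * t)) = _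
    ring
  have e2 : yy.ev [t, θ, D.L / 10000, D.h / 10000, D.qn / D.qd, D.s / 10000, 1 / 10] = y := by
    rw [hy, hτ]
    change -(D.L / 10000 : ℝ) + θ * (D.L / 10000 + -(D.h / 10000) +
      D.s / 10000 * ((D.qn / D.qd + 1 / 10) * (t * t))) = _
    ring
  refine .cons (mem_biv hd (by norm_num) (by norm_num)) (.cons (mem_biv (by norm_num)
    (by exact_mod_cast h1) (by exact_mod_cast h2)) (.cons (e1 ▸ Ex.mem h0 yq)
    (.cons (e2 ▸ Ex.mem h0 yy) (.cons ?_ (.cons (m _) (.cons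
      (mem_biv (by norm_num) (by norm_num) (by norm_num)) (.cons (m _) .nil)))))))
  rw [← e1, ← e2]
  exact Ex.mem h0 (yq * yy)

end OD

lemma sq_aux {p b : ℝ} (h1 : 0 < 6 * p - 7 * b) (h2 : 0 < 6 * p + 7 * b) :
    0 < p ∧ 4 / 3 * b ^ 2 ≤ p ^ 2 :=
  ⟨by linarith, by nlinarith [mul_pos h1 h2, sq_nonneg b]⟩

lemma ok1_sound {e r q y lam a s : ℝ} {v : List Ball}
    (hm : List.Forall₂ Mem [e, r, q, y, q * y, lam, a, s] v) (h : OD.ok1 v = true) :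
    RepO lam e r q y := by
  simp only [OD.ok1, Bool.and_eq_true] at h
  obtain ⟨⟨⟨⟨⟨⟨h1, h2⟩, h3⟩, h4⟩, h5⟩, h6⟩, h7⟩ := h
  have a1 := (Ex.mem hm _).pos h1
  have a2 := (Ex.mem hm _).pos h2
  have a3 := (Ex.mem hm _).pos h3
  have a4 : 0 < ((6 : ℤ) : ℝ) * xp.ev _ + -(((7 : ℤ) : ℝ) * xb.ev _) := (Ex.mem hm _).pos h4
  have a5 : 0 < ((6 : ℤ) : ℝ) * xp.ev _ + ((7 : ℤ) : ℝ) * xb.ev _ := (Ex.mem hm _).pos h5
  have a6 : 0 < ((6 : ℤ) : ℝ) * (xw.ev _ * xs.ev _) + -(((7 : ℤ) : ℝ) * xb.ev _) :=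
    (Ex.mem hm _).pos h6
  have a7 : 0 < ((6 : ℤ) : ℝ) * (xw.ev _ * xs.ev _) + ((7 : ℤ) : ℝ) * xb.ev _ :=
    (Ex.mem hm _).pos h7
  rw [ev_d] at a1
  rw [ev_s] at a2
  rw [ev_w] at a3
  rw [ev_p, ev_b] at a4 a5
  rw [ev_w, ev_s, ev_b] at a6 a7
  push_cast at a4 a5 a6 a7
  obtain ⟨b1, b2⟩ := sq_aux (sub_eq_add_neg (6 * _ : ℝ) _ ▸ a4) a5
  exact ⟨a1, a2, b1, by linarith, b2, (sq_aux (sub_eq_add_neg (6 * _ : ℝ) _ ▸ a6) a7).2⟩

theorem OD.outer (D : OD) {N M : ℕ} (hN : 0 < N) (hM : 0 < M) (h : D.ok N M = true) {r y1 : ℝ}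
    (h1 : (D.rl : ℝ) / 10000 ≤ r) (h2 : r ≤ D.ru / 10000)
    (h3 : -((D.L : ℝ) / 10000) ≤ y1) (h4 : y1 ≤ -((D.h : ℝ) / 10000)) :
    Outer (1 / D.d) r (D.qn / D.qd) y1 := by
  simp only [OD.ok, Bool.and_eq_true, decide_eq_true_eq, List.all_eq_true] at h
  obtain ⟨⟨⟨⟨hd, hq⟩, hl⟩, hs⟩, h⟩ := h
  have hs' : (0 : ℝ) ≤ D.s / 10000 := by positivity
  have hT : (0 : ℝ) < D.qn / D.qd + 1 / 10 := by positivity
  have cov : ∀ τ ∈ Icc (0 : ℝ) (D.qn / D.qd + 1 / 10), ∃ t, τ = (D.qn / D.qd + 1 / 10) * (t * t) ∧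
      ∃ i ∈ List.range N, Mem t (biv i (i + 1) N) := fun τ hτ =>
    ⟨√(τ / (D.qn / D.qd + 1 / 10)), by
      rw [Real.mul_self_sqrt (div_nonneg hτ.1 hT.le), mul_div_cancel₀ _ hT.ne'],
      cover hN (Real.sqrt_nonneg _) (Real.sqrt_le_one.2 ((div_le_one hT).2 hτ.2))⟩
  refine outer_of (lam := D.lam / 10000) (L := D.L / 10000) (h := D.h / 10000)
    (a := 0) (s := D.s / 10000) (by positivity) (by positivity) le_rfl hs' ⟨h3, h4⟩
    (fun τ hτ y hy => ?_) (fun τ hτ => ?_) (fun τ hτ => ?_)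
  · obtain ⟨t, ht, i, hi, hm⟩ := cov τ hτ
    obtain ⟨θ, t0, t1, hθ⟩ : ∃ θ : ℝ, 0 ≤ θ ∧ θ ≤ 1 ∧ y = -(D.L / 10000) +
        θ * (D.L / 10000 - D.h / 10000 + D.s / 10000 * τ) := by
      obtain ⟨u, v, hu, hv, huv, rfl⟩ := (Convex.mem_Icc (hy.1.trans hy.2)).1 hy
      refine ⟨v, hv, by linarith, ?_⟩
      rw [show u = 1 - v by linarith]; ring
    obtain ⟨j, hj, hm'⟩ := cover hM t0 t1
    exact ok1_sound (D.mem_env hd hq h1 h2 hm hm' ht hθ) ((h i hi).1.1 j hj)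
  · obtain ⟨t, ht, i, hi, hm⟩ := cov τ hτ
    have hm' : Mem 1 (biv 1 1 1) := mem_biv (by norm_num) (by norm_num) (by norm_num)
    have hv := D.mem_env hd hq h1 h2 hm hm' ht (y := -(D.h / 10000) + D.s / 10000 * τ) (by ring)
    have a1 : 0 < (D.s / 10000 : ℝ) * xd.ev _ + -xn.ev _ := (Ex.mem hv _).pos (h i hi).1.2
    rw [ev_d, ev_n] at a1
    linarith
  · obtain ⟨t, ht, i, hi, hm⟩ := cov τ hτ
    have hm' : Mem 0 (biv 0 0 1) := mem_biv (by norm_num) (by norm_num) (by norm_num)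
    have hv := D.mem_env hd hq h1 h2 hm hm' ht (y := -(D.L / 10000) - 0 * τ) (by ring)
    have a1 := (Ex.mem hv _).pos (h i hi).2
    rw [ev_n] at a1
    linarith

/-- `q1 = 10 / 13`, `x = 169 / 100`. -/
theorem outer3 {r y1 : ℝ} (h1 : 12507 / 10000 ≤ r) (h2 : r ≤ 12508 / 10000)
    (h3 : -668 / 1000 ≤ y1) (h4 : y1 ≤ -662 / 1000) : Outer (1 / 3) r (10 / 13) y1 := by
  have := OD.outer ⟨3, 10, 13, 12507, 12508, 6680, 6620, 8000, 300⟩ (N := 30) (M := 5)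
    (by norm_num) (by norm_num) (by decide +kernel) (r := r) (y1 := y1) (by push_cast; linarith)
    (by push_cast; linarith) (by push_cast; linarith) (by push_cast; linarith)
  simpa only [Nat.cast_ofNat] using this

end Pool.Agent.MP_187b32_an.PM
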