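import Pool.Agent.MP_187b32_an.PM.Spec
import Pool.Agent.MP_187b32_an.PD.Quad

/-!
Quadrature: from the profile as a function of `x` to the radial profile as a function of `z`.
-/

set_option autoImplicit false

open Set Filter Topology
open scoped ContDiff

namespace Pool.Agent.MP_187b32_an.PM

open PD
open Pool.Agent.MP_187b32_an.Prof (boot q_facts)

theorem quadP : QuadP := by
  intro P D r hD hr1 h
  obtain ⟨d, lam, W, nu, Y, M, hd, hlam, cW, cn, hμ, hER, cY, cM, hM0, hMp, htail⟩ := h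
  have hk : 0 < D + 2 := by linarith
  obtain ⟨k, hk0, hk2⟩ : ∃ k : ℝ, 0 < k ∧ (D + 2) * k ^ 2 = 1 :=
    ⟨(√(D + 2))⁻¹, by positivity, by rw [inv_pow, Real.sq_sqrt hk.le, mul_inv_cancel₀ hk.ne']⟩
  have hr0 : 0 < r := by linarith
  let μ : ℝ → ℝ := fun s => 1 - s * nu s
  let η : ℝ → ℝ := fun s => nu s / μ s
  have cμ : ContDiffOn ℝ ∞ μ (Ioi (-d)) := by fun_prop
  have cη : ContDiffOn ℝ ∞ η (Ioi (-d)) := cn.div cμ fun s hs => (hμ s hs).ne'
  let H : ℝ → ℝ := fun s => ∫ t in (0 : ℝ)..s, η t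
  have hH : ∀ s, -d < s → HasDerivAt H (η s) s := fun s hs =>
    intervalIntegral.integral_hasDerivAt_right
      ((cη.continuousOn.mono fun t ht => lt_of_lt_of_le (lt_min (neg_lt_zero.2 hd) hs)
        ht.1).intervalIntegrable)
      (cη.continuousOn.stronglyMeasurableAtFilter isOpen_Ioi s hs)
      (cη.continuousOn.continuousAt (Ioi_mem_nhds hs))
  have cH : ContDiffOn ℝ ∞ H (Ioi (-d)) :=
    boot isOpen_Ioi (G := fun p => η p.1) hH fun s hs =>
      (cη.contDiffAt (Ioi_mem_nhds hs)).comp (s, H s) contDiffAt_fst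
  let Z : ℝ → ℝ := fun s => s * Real.exp (H s)
  have hZ : ∀ s, -d < s → HasDerivAt Z (Real.exp (H s) / μ s) s := fun s hs => by
    refine ((hasDerivAt_id s).fun_mul (hH s hs).exp).congr_deriv ?_
    have := (hμ s hs).ne'
    simp only [η, μ, id]
    field_simp
    ring
  obtain ⟨K, hK⟩ := log_bd (H := H) cM hM0 hMp fun s hs => by
    refine (hH s (by linarith)).congr_deriv ?_
    have h1 := (hμ s (by linarith)).ne'
    have h2 : s ≠ 0 := by linarith
    rw [← (htail s hs).2, eq_div_iff h2, inv_eq_one_div, div_sub_one h1]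
    simp only [η, μ]
    ring
  obtain ⟨hm, S, hS⟩ := exists_inv (a := -d) (b := -d / 2) (by linarith) hZ
    (fun s hs => div_pos (Real.exp_pos _) (hμ s hs)) fun z => by
      refine ⟨max 9 (Real.exp (r * (z + K))), le_max_of_le_left (by linarith), ?_⟩
      set s := max 9 (Real.exp (r * (z + K))) with hs
      have h9 : 9 ≤ s := le_max_left _ _
      have h1 : r * (z + K) ≤ Real.log s :=
        (Real.le_log_iff_exp_le (by linarith)).2 (le_max_right _ _)
      have h2 := (abs_le.1 (hK s h9)).1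
      have h3 : z + K ≤ r⁻¹ * Real.log s := by
        rw [le_inv_mul_iff₀ hr0]
        exact h1
      have h4 : Z s = Real.exp (Real.log s + H s) := by
        rw [Real.exp_add, Real.exp_log (by linarith)]
      rw [h4]
      linarith [Real.add_one_le_exp (Real.log s + H s)]
  have hZ0 : Z 0 = 0 := zero_mul _
  have hdm : ∀ s : ℝ, 0 ≤ s → s ∈ Ioi (-d) := fun s hs => by
    simp only [mem_Ioi]
    linarith
  have hd2 : -d / 2 ∈ Ioi (-d) := by
    simp only [mem_Ioi]
    linarith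
  set δ := -Z (-d / 2) with hδ
  have hδ0 : 0 < δ := by
    have := hm hd2 (hdm 0 le_rfl) (by linarith)
    linarith
  replace hS : ∀ z, -δ < z → -d < S z ∧ Z (S z) = z ∧
      HasDerivAt S (μ (S z) * Real.exp (-H (S z))) z := fun z hz => by
    obtain ⟨a1, a2, a3⟩ := hS z (by linarith)
    refine ⟨by linarith, a2, a3.congr_deriv ?_⟩
    rw [inv_div, Real.exp_neg, div_eq_mul_inv]
  have hle : ∀ s z, 0 ≤ s → Z s ≤ z → -δ < z ∧ s ≤ S z := fun s z hs hz => by
    have a1 : -δ < z := by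
      have := hm.monotoneOn (hdm 0 le_rfl) (hdm s hs) hs
      linarith
    exact ⟨a1, (hm.le_iff_le (hdm s hs) (hS z a1).1).1 (by rw [(hS z a1).2.1]; exact hz)⟩
  have hlt : ∀ z, Z 4 < z → -δ < z ∧ 4 < S z := fun z hz => by
    have a1 := (hle 4 z (by norm_num) hz.le).1
    exact ⟨a1, (hm.lt_iff_lt (hdm 4 (by norm_num)) (hS z a1).1).1 (by rw [(hS z a1).2.1]; exact hz)⟩
  have hze : ∀ z, -δ < z → z * Real.exp (-H (S z)) = S z := fun z hz => by
    have a1 : S z * Real.exp (H (S z)) = z := (hS z hz).2.1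
    rw [Real.exp_neg, mul_inv_eq_iff_eq_mul₀ (Real.exp_pos _).ne', a1]
  have cS : ContDiffOn ℝ ∞ S (Ioi (-δ)) :=
    boot isOpen_Ioi (G := fun p => μ p.2 * Real.exp (-H p.2)) (fun z hz => (hS z hz).2.2)
      fun z hz => by
        have a1 := (cμ.contDiffAt (Ioi_mem_nhds (hS z hz).1)).comp (z, S z) contDiffAt_snd
        have a2 := (cH.contDiffAt (Ioi_mem_nhds (hS z hz).1)).comp (z, S z) contDiffAt_snd
        exact a1.mul a2.neg.exp
  let w : ℝ → ℝ := fun z => W (S z)
  let C : ℝ → ℝ := fun z => k * Real.exp (H (S z) / 2)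
  have cw : ContDiffOn ℝ ∞ w (Ioi (-δ)) := cW.comp cS fun z hz => (hS z hz).1
  have cC : ContDiffOn ℝ ∞ C (Ioi (-δ)) :=
    contDiffOn_const.mul ((cH.comp cS fun z hz => (hS z hz).1).div_const 2).exp
  have hw : ∀ z, -δ < z → HasDerivAt w (deriv W (S z) * (μ (S z) * Real.exp (-H (S z)))) z :=
    fun z hz => (((cW.contDiffAt (Ioi_mem_nhds (hS z hz).1)).differentiableAt
      (by simp)).hasDerivAt).comp z (hS z hz).2.2
  have hC : ∀ z, -δ < z → HasDerivAt C (C z * nu (S z) * Real.exp (-H (S z)) / 2) z :=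
    fun z hz => by
      refine ((((hH _ (hS z hz).1).comp z (hS z hz).2.2).div_const 2).exp.const_mul _).congr_deriv ?_
      have := (hμ _ (hS z hz).1).ne'
      have e : η (S z) * μ (S z) = nu (S z) := div_mul_cancel₀ _ this
      simp only [C, Function.comp_def]
      rw [← e]
      ring
  have hC2 : ∀ z, (D + 2) * (C z ^ 2 * Real.exp (-H (S z))) = 1 := fun z => by
    simp only [C]
    rw [mul_pow, ← Real.exp_nat_mul, mul_assoc, ← Real.exp_add, ← hk2]
    simp [mul_div_cancel₀]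
  have hCp : ∀ z, 0 < C z := fun z => by positivity
  have hZ4 : 0 < Z 4 := by positivity
  have hZ49 : Z 4 < Z 9 := hm (hdm 4 (by norm_num)) (hdm 9 (by norm_num)) (by norm_num)
  let q : ℝ → ℝ := fun z => (√(S z))⁻¹
  have hq : ∀ z, Z 4 < z → q z ∈ Ioo (-1 / 10 : ℝ) (1 / 2) ∧
      HasDerivAt q (-(q z * M (q z)) / (2 * z)) z := fun z hz => by
    obtain ⟨a1, a2⟩ := hlt z hz
    obtain ⟨q0, -, q2, q3⟩ := q_facts a2.le
    refine ⟨⟨by linarith, ?_⟩, (q3.comp z (hS z a1).2.2).congr_deriv ?_⟩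
    · rw [one_div]
      exact inv_strictAnti₀ (by norm_num) (Real.lt_sqrt_of_sq_lt (by linarith))
    · have a3 := hze z a1
      have a4 : z ≠ 0 := by linarith
      have a5 : Real.exp (-H (S z)) = ((√(S z))⁻¹ ^ 2)⁻¹ / z := by
        rw [q2, eq_div_iff a4, mul_comm, a3]
      simp only [μ, q]
      rw [(htail _ a2).2, a5]
      generalize (√(S z))⁻¹ = x at *
      field_simp
  have hq3 : ∀ z, Z 9 ≤ z → q z ∈ Icc (0 : ℝ) (1 / 3) := fun z hz =>
    ⟨by positivity, by
      rw [one_div]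
      exact inv_anti₀ (by norm_num)
        (Real.le_sqrt_of_sq_le (by linarith [(hle 9 z (by norm_num) hz).2]))⟩
  -- power laws
  have hlog : ∀ z, Z 9 ≤ z → ∃ φ, |φ| ≤ K ∧ Real.log (S z) = r * (Real.log z - φ) ∧
      H (S z) = (1 - r) * Real.log z + r * φ := fun z hz => by
    obtain ⟨a1, a2⟩ := hle 9 z (by norm_num) hz
    have a3 : Real.log z = Real.log (S z) + H (S z) := by
      have a4 : S z * Real.exp (H (S z)) = z := (hS z a1).2.1
      have a5 := Real.log_mul (x := S z) (by linarith) (Real.exp_pos (H (S z))).ne'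
      rwa [a4, Real.log_exp] at a5
    refine ⟨_, hK _ a2, ?_, ?_⟩
    · rw [a3]
      field_simp
      ring
    · rw [a3]
      field_simp
      ring
  have hqb : ∀ z, Z 9 ≤ z → |q z| ≤ Real.exp (r * K / 2) * z ^ (-r / 2) := fun z hz => by
    obtain ⟨φ, a1, a2, -⟩ := hlog z hz
    have a3 : 0 < S z := by linarith [(hle 9 z (by norm_num) hz).2]
    have a4 : q z = Real.exp (-(Real.log (S z) / 2)) := by
      simp only [q]
      rw [Real.exp_neg, Real.exp_half, Real.exp_log a3]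
    rw [a4, abs_of_pos (Real.exp_pos _), Real.rpow_def_of_pos (by linarith), ← Real.exp_add, a2]
    exact Real.exp_le_exp.2 (by nlinarith [(abs_le.1 a1).2])
  have hCb : ∀ z, Z 9 ≤ z → k * Real.exp (-(r * K / 2)) * z ^ ((1 - r) / 2) ≤ C z ∧
      |C z| ≤ k * Real.exp (r * K / 2) * z ^ ((1 - r) / 2) := fun z hz => by
    obtain ⟨φ, a1, -, a2⟩ := hlog z hz
    rw [abs_of_pos (hCp z), Real.rpow_def_of_pos (by linarith), mul_assoc, mul_assoc,
      ← Real.exp_add, ← Real.exp_add]
    simp only [C, a2]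
    constructor
    · gcongr
      nlinarith [(abs_le.1 a1).1]
    · gcongr
      nlinarith [(abs_le.1 a1).2]
  have sw : SymZ δ (-r / 2) w := symz hδ0 cw (by linarith) (hZ4.trans hZ49) fun n => by
    obtain ⟨ψ, a1, a2⟩ := far isOpen_Ioo hZ4 (E := q) (f := w) (G := fun x => -M x / 2) hq
      (fun z hz => (hq z hz).2.congr_deriv (by ring)) cM (by fun_prop) cY
      (fun z hz => (htail _ (hlt z hz).2).1) n
    exact far_bd hZ49 hZ4 a1 a2 hq3 hqb
  have sC : SymZ δ ((1 - r) / 2) C := symz hδ0 cC (by linarith) (hZ4.trans hZ49) fun n => by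
    obtain ⟨ψ, a1, a2⟩ := far isOpen_Ioo hZ4 (E := C) (f := C) (G := fun x => (1 - M x) / 2)
      (φ := fun _ => 1) hq (fun z hz => (hC z (hlt z hz).1).congr_deriv (by
        have a4 : z ≠ 0 := by linarith
        simp only [q]
        rw [← (htail _ (hlt z hz).2).2, eq_div_iff a4]
        linear_combination (C z * nu (S z) / 2) * hze z (hlt z hz).1)) cM (by fun_prop)
      contDiffOn_const (fun z _ => (mul_one _).symm) n
    exact far_bd hZ49 hZ4 a1 a2 hq3 fun z hz => (hCb z hz).2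
  obtain ⟨z0, -, hz0⟩ := (isCompact_Icc (a := 0) (b := Z 9)).exists_isMinOn
    ⟨0, le_rfl, by linarith⟩ (cC.continuousOn.mono fun z hz =>
      lt_of_lt_of_le (neg_lt_zero.2 hδ0) hz.1)
  have hA : ∀ z, 0 ≤ z → -δ < z ∧ 0 ≤ S z ∧ w z + 2 * z * deriv w z = AA W nu (S z) :=
    fun z hz => by
      obtain ⟨a1, a2⟩ := hle 0 z le_rfl (by linarith)
      refine ⟨a1, a2, ?_⟩
      rw [(hw z a1).deriv, AA]
      simp only [w, μ]
      linear_combination (2 * deriv W (S z) * (1 - S z * nu (S z))) * hze z a1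
  refine ⟨lam, min (C z0) (k * Real.exp (-(r * K / 2))), δ, w, C, S, hlam,
    lt_min (hCp _) (by positivity), hδ0, sw, sC, fun z hz => ?_, fun z hz => ?_, fun z hz => ?_,
    fun g ψ cg cψ hg => ?_, fun z hz => ?_⟩
  · obtain ⟨a1, a2, a3⟩ := hA z hz
    rw [a3, (hC z a1).deriv]
    simp only [w]
    linear_combination (hER _ a2).1.1 + nu (S z) * hC2 z
  · obtain ⟨a1, a2, a3⟩ := hA z hz
    rw [(hC z a1).deriv]
    simp only [w] at a3 ⊢
    have hi : 1 / D * D = 1 := one_div_mul_cancel hD.ne'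
    linear_combination C z * (hER _ a2).1.2 + (1 / D * C z) * a3 +
      (1 + W (S z)) * C z * nu (S z) * hze z a1 + C z * W (S z) * hi
  · rcases le_total z (Z 9) with h | h
    · have a1 : (1 + z) ^ ((1 - r) / 2) ≤ 1 :=
        Real.rpow_le_one_of_one_le_of_nonpos (by linarith) (by linarith)
      exact (mul_le_mul (min_le_left _ _) a1 (by positivity) (hCp _).le).trans
        (by simpa using hz0 ⟨hz, h⟩)
    · exact (mul_le_mul (min_le_right _ _) (rpow_cmp (hZ4.trans hZ49) (by linarith) h).1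
        (by positivity) (by positivity)).trans (hCb z h).1
  · refine symz hδ0 (cg.comp_contDiffOn cS) (by linarith) (hZ4.trans hZ49) fun n => ?_
    obtain ⟨ψ', a1, a2⟩ := far isOpen_Ioo hZ4 (E := q) (f := fun z => g (S z))
      (G := fun x => -M x / 2) hq (fun z hz => (hq z hz).2.congr_deriv (by ring)) cM (by fun_prop)
      cψ (fun z hz => hg _ (hlt z hz).2) n
    exact far_bd hZ49 hZ4 a1 a2 hq3 hqb
  · obtain ⟨a1, a2, a3⟩ := hA z hz
    have e : 2 * (D + 2) * C z * deriv C z = nu (S z) := by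
      rw [(hC z a1).deriv]
      linear_combination nu (S z) * hC2 z
    rw [e, a3]
    refine ⟨a2, ?_, hμ _ (hS z a1).1, (hS z a1).2.2.congr_deriv ?_, (hER _ a2).2⟩
    · linear_combination z * hC2 z - (D + 2) * C z ^ 2 * hze z a1
    · rw [eq_div_iff (mul_pos hk (pow_pos (hCp z) 2)).ne']
      simp only [μ]
      linear_combination (1 - S z * nu (S z)) * hC2 z

end Pool.Agent.MP_187b32_an.PM
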