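import Pool.Agent.MP_187b32_an.PM.Inner
import Pool.Agent.MP_187b32_an.PM.Inner4
import Pool.Agent.MP_187b32_an.PM.Inner5
import Pool.Agent.MP_187b32_an.PM.Out
import Pool.Agent.MP_187b32_an.PM.Glue
import Pool.Agent.MP_187b32_an.PM.Quad
import Pool.Agent.MP_187b32_an.PD.Dim.O
import Pool.Agent.MP_187b32_an.PD.Dim.C
import Pool.Agent.MP_187b32_an.PD.Dim.E
import Pool.Agent.MP_187b32_an.PD.Dim.F
import Pool.Agent.MP_187b32_an.PD.Dim.I

/-!
Radial profiles with `1 < (d + 99 / 100) * (r - 1)` in every dimension `d ≥ 3`.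
-/

set_option autoImplicit false

namespace Pool.Agent.MP_187b32_an.PM

open PD

theorem rad3 : ∃ r : ℝ, 12507 / 10000 ≤ r ∧ r < 3 / 2 ∧ RadP Lmi 3 r := by
  obtain ⟨r, y, h1, h2, h3, h4, h5⟩ := inner3
  exact ⟨r, h1, by linarith, quadP _ _ _ (by norm_num) (by linarith)
    (glueP _ _ _ _ _ (by norm_num) (by norm_num) (lmi_ok (by norm_num)) h5 (outer3 h1 h2 h3 h4))⟩

theorem outer4 {r y1 : ℝ} (h1 : 12176 / 10000 ≤ r) (h2 : r ≤ 12178 / 10000)
    (h3 : -316 / 1000 ≤ y1) (h4 : y1 ≤ -315 / 1000) : Outer (1 / 4) r 1 y1 := by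
  have := OD.outer ⟨4, 1, 1, 12176, 12178, 3160, 3150, 4000, 300⟩ (N := 20) (M := 3)
    (by norm_num) (by norm_num) (by decide +kernel) (r := r) (y1 := y1) (by push_cast; linarith)
    (by push_cast; linarith) (by push_cast; linarith) (by push_cast; linarith)
  simpa only [Nat.cast_ofNat, Nat.cast_one, div_one] using this

/-- Both parts with a lower bound for `r`. -/
def BothC (e a : ℝ) : Prop :=
  ∃ r q y : ℝ, a ≤ r ∧ r < 3 / 2 ∧ 1 / 2 ≤ q ∧ InnerP Crude e r q y ∧ Outer e r q y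

lemma innerC {e r q y : ℝ} (h : Inner e r q y) : InnerP Crude e r q y := by
  obtain ⟨δ, lam, W, mu, h1, h2, h3, h4, h5, h6, h7⟩ := h
  exact ⟨δ, lam, W, mu, h1, h2, h3, h4, h5, fun x hx => ⟨(h6 x hx).1, h6 x hx⟩, h7⟩

lemma bothC {e : ℝ} (h : Both e) : BothC e (1036 / 1000) := by
  obtain ⟨r, q, y, h1, h2, h3, h4, h5⟩ := h
  exact ⟨r, q, y, h1.le, by linarith, h3, innerC h4, h5⟩

theorem both_one' {d b1 N nn nd tn td kap q dr dy : ℕ} {lr ld lY : ℤ} {b : ℕ} {S : List PD.St}
    (h : one d b1 N nn nd tn td kap q dr dy lr ld lY b S = true)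
    (hr : 7 * (sc : ℤ) + 6 * dr ≤ 6 * lr) : BothC (1 / d) (7 / 6) := by
  simp only [one, Bool.and_eq_true, Nat.blt_eq] at h
  have h0 : (0 : ℝ) < d := by exact_mod_cast h.1.1
  have hE : |1 / (d : ℝ) - hv 0 [Int.ofNat (sc / d)] / sc| * sc ≤ (1 : ℕ) := by
    have a5 : ((sc / d : ℕ) : ℝ) * d ≤ sc := by exact_mod_cast Nat.div_mul_le_self sc d
    have a6 : (sc : ℝ) < (sc / d : ℕ) * d + d := by exact_mod_cast Nat.lt_div_mul_add h.1.1
    rw [← abs_of_pos sc_pos, ← abs_mul, abs_of_pos sc_pos, sub_mul, div_mul_cancel₀ _ sc_pos.ne',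
      show hv 0 [Int.ofNat (sc / d)] = (sc / d : ℕ) by simp only [hv]; simp [-Int.natCast_ediv],
      one_div_mul_eq_div, abs_le, Nat.cast_one, le_sub_iff_add_le, sub_le_iff_le_add,
      le_div_iff₀ h0, div_le_iff₀ h0]
    constructor <;> linarith
  obtain ⟨r, y, h1, h2, -, h4, h5, h6⟩ := chk_sound h.1.2 (ε := 0) (by simp) (by positivity) hE
    (by simp [h0.ne'])
  refine ⟨r, _, y, ?_, by linarith, h5, innerC h6,
    outer_cell (by simp) (by positivity) hE h1 h2 h.2⟩
  have a1 : 7 * (sc : ℝ) + 6 * dr ≤ 6 * lr := by exact_mod_cast hr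
  rw [← abs_of_pos sc_pos, ← abs_mul, abs_of_pos sc_pos, sub_mul, div_mul_cancel₀ _ sc_pos.ne',
    abs_le] at h1
  simp only [hv, mul_zero, add_zero] at h1
  refine le_of_mul_le_mul_right ?_ sc_pos
  linarith [h1.1]

theorem both_big' {e : ℝ} (h0 : 0 < e) (h1 : e ≤ 1 / 64) : Both e := by
  refine both_cell bigI bigO (ε := 128 * e - 1) (abs_le.2 ⟨by linarith, by linarith⟩) h0 ?_
    (by simpa using h0.le)
  have a1 : ((Int.ofNat (sc / 128) : ℤ) : ℝ) = sc / 128 := by norm_num [sc]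
  have a2 : e - hv (128 * e - 1) [Int.ofNat (sc / 128), Int.ofNat (sc / 128)] / sc = 0 := by
    simp only [hv, a1]
    field_simp [sc_pos.ne']
    ring
  rw [a2]
  simp

theorem both_mid {d : ℕ} (h1 : 6 ≤ d) (h2 : d ≤ 26) : BothC (1 / d) (7 / 6) := by
  interval_cases d
  exacts [both_one' b6._proof_1_1 (by decide +kernel),
    both_one' b7._proof_1_1 (by decide +kernel),
    both_one' b8._proof_1_1 (by decide +kernel),
    both_one' b9._proof_1_1 (by decide +kernel),
    both_one' b10._proof_1_1 (by decide +kernel),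
    both_one' b11._proof_1_1 (by decide +kernel),
    both_one' b12._proof_1_1 (by decide +kernel),
    both_one' b13._proof_1_1 (by decide +kernel),
    both_one' b14._proof_1_1 (by decide +kernel),
    both_one' b15._proof_1_1 (by decide +kernel),
    both_one' b16._proof_1_1 (by decide +kernel),
    both_one' b17._proof_1_1 (by decide +kernel),
    both_one' b18._proof_1_1 (by decide +kernel),
    both_one' b19._proof_1_1 (by decide +kernel),
    both_one' b20._proof_1_1 (by decide +kernel),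
    both_one' b21._proof_1_1 (by decide +kernel),
    both_one' b22._proof_1_1 (by decide +kernel),
    both_one' b23._proof_1_1 (by decide +kernel),
    both_one' b24._proof_1_1 (by decide +kernel),
    both_one' b25._proof_1_1 (by decide +kernel),
    both_one' b26._proof_1_1 (by decide +kernel)]

theorem both_hi {d : ℕ} (h : 27 ≤ d) : Both (1 / d) := by
  rcases lt_or_ge d 64 with h1 | h1
  · interval_cases d
    exacts [b27, b28, b29, b30, b31, b32, b33, b34, b35, b36, b37, b38, b39, b40, b41, b42, b43,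
      b44, b45, b46, b47, b48, b49, b50, b51, b52, b53, b54, b55, b56, b57, b58, b59, b60, b61,
      b62, b63]
  · have h2 : (64 : ℝ) ≤ d := by exact_mod_cast h1
    exact both_big' (by positivity) (one_div_le_one_div_of_le (by norm_num) h2)

theorem radC {d : ℕ} (h : 4 ≤ d) :
    ∃ r : ℝ, 1 < (d + 99 / 100) * (r - 1) ∧ r < 3 / 2 ∧ RadP Crude d r := by
  have key : ∀ (a : ℝ) (n : ℕ), n ≤ d → 1 < a → 1 < (n + 99 / 100) * (a - 1) → BothC (1 / d) a →
      ∃ r : ℝ, 1 < (d + 99 / 100) * (r - 1) ∧ r < 3 / 2 ∧ RadP Crude d r :=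
    fun a n hn h0 h1 ⟨r, q, y, a1, a2, a3, a4, a5⟩ => by
      have hd : (0 : ℝ) < d := by exact_mod_cast (by omega : 0 < d)
      have b1 : (n : ℝ) ≤ d := by exact_mod_cast hn
      exact ⟨r, h1.trans_le (by gcongr), a2, quadP _ _ _ hd (by linarith)
        (glueP _ _ _ _ _ (by positivity) a3 (crude_ok _ _) a4 a5)⟩
  rcases lt_or_ge d 6 with h1 | h1
  · interval_cases d
    · obtain ⟨r, y, a1, a2, a3, a4, a5⟩ := inner4
      exact key (12176 / 10000) 4 le_rfl (by norm_num) (by norm_num) ⟨r, 1, y, a1, by linarith,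
        by norm_num, by exact_mod_cast a5, by exact_mod_cast outer4 a1 a2 a3 a4⟩
    · obtain ⟨r, y, a1, a2, a3, a4, a5⟩ := inner5
      exact key (1192 / 1000) 5 le_rfl (by norm_num) (by norm_num) ⟨r, 1, y, a1, by linarith,
        by norm_num, by exact_mod_cast a5, by
          exact_mod_cast SmallO.outer5 (by linarith) (by linarith) (by linarith) (by linarith)⟩
  · rcases le_or_gt d 26 with h2 | h2
    · exact key _ 6 h1 (by norm_num) (by norm_num) (both_mid h1 h2)
    · exact key _ 27 h2 (by norm_num) (by norm_num) (bothC (both_hi h2))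

end Pool.Agent.MP_187b32_an.PM
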