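import Pool.Agent.MP_187b32_an.PM.Spec

/-!
The weighted repulsivity condition in dimension three, for the weight
`ph x = (x ^ 2 + 30) / (x ^ 2 + 1 / 2)`.
-/

set_option autoImplicit false

namespace Pool.Agent.MP_187b32_an.PM

/-- The weight as a function of `x`. -/
noncomputable def ph (x : ℝ) : ℝ := (x ^ 2 + 30) / (x ^ 2 + 1 / 2)

/-- `x * pp x mu = - R ph_R / ph`. -/
noncomputable def pp (x mu : ℝ) : ℝ := 118 * (1 - x * mu) * x / ((x ^ 2 + 1 / 2) * (x ^ 2 + 30))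

noncomputable def A1 (lam x w a mu : ℝ) : ℝ := 1 + a + x * pp x mu * (1 + w) - lam
noncomputable def A2 (lam x w mu : ℝ) : ℝ := 1 + w + x * pp x mu * (1 + w) - lam

/-- The weighted repulsivity condition. -/
def Lmi : Cond := fun lam x w a mu =>
  0 < A1 lam x w a mu ∧ 0 < A2 lam x w mu ∧
    x * (mu + pp x mu) ^ 2 / 3 / A1 lam x w a mu + x * mu ^ 2 / 3 / (2 * A2 lam x w mu) ≤
      A1 lam x w a mu ∧
    x * pp x mu ^ 2 / 3 / A2 lam x w mu + x * mu ^ 2 / 3 / (4 * A1 lam x w a mu) ≤ A2 lam x w mu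

/-- The condition from polynomial inequalities; `D` is a common denominator. -/
lemma lmi_of {lam x w a mu D n1 n2 m p : ℝ} (hD : 0 < D) (e1 : A1 lam x w a mu * D = n1)
    (e2 : A2 lam x w mu * D = n2) (e3 : mu * D = m) (e4 : pp x mu * D = p) (h1 : 0 < n1)
    (h2 : 0 < n2) (h3 : x * (2 * n2 * (m + p) ^ 2 + n1 * m ^ 2) ≤ 6 * n1 ^ 2 * n2)
    (h4 : x * (4 * n1 * p ^ 2 + n2 * m ^ 2) ≤ 12 * n1 * n2 ^ 2) : Lmi lam x w a mu := by
  subst e1 e2 e3 e4
  have a1 := (mul_pos_iff_of_pos_right hD).1 h1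
  have a2 := (mul_pos_iff_of_pos_right hD).1 h2
  have d3 : 0 < D ^ 3 := by positivity
  refine ⟨a1, a2, ?_, ?_⟩
  · rw [div_add_div _ _ a1.ne' (by positivity), div_le_iff₀ (by positivity)]
    refine le_of_mul_le_mul_right ?_ d3
    linarith
  · rw [div_add_div _ _ a2.ne' (by positivity), div_le_iff₀ (by positivity)]
    refine le_of_mul_le_mul_right ?_ d3
    linarith

lemma pp_nonneg {x mu : ℝ} (hx : 0 ≤ x) (h : 0 < 1 - x * mu) : 0 ≤ pp x mu := by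
  unfold pp
  positivity

lemma far_aux {m1 m2 g B c G : ℝ} (p1 : 0 < m1) (p2 : 0 < m2) (g0 : 0 ≤ g)
    (c3 : c ≤ m1 / 2 * (m2 / 2)) (c4 : B ≤ (m1 / 2 + g) ^ 2) (c5 : G ≤ g ^ 2) :
    0 < m1 + g ∧ 0 < m2 + g ∧ B / (m1 + g) + c / (2 * (m2 + g)) ≤ m1 + g ∧
      G / (m2 + g) + c / (4 * (m1 + g)) ≤ m2 + g := by
  have d1 : B / (m1 + g) ≤ m1 / 2 + g := by
    rw [div_le_iff₀ (by positivity)]
    nlinarith
  have d2 : c / (2 * (m2 + g)) ≤ m1 / 2 := by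
    rw [div_le_iff₀ (by positivity)]
    nlinarith [mul_pos p1 p2, mul_nonneg p1.le g0]
  have d3 : G / (m2 + g) ≤ g := by
    rw [div_le_iff₀ (by positivity)]
    nlinarith [mul_nonneg p2.le g0]
  have d4 : c / (4 * (m1 + g)) ≤ m2 := by
    rw [div_le_iff₀ (by positivity)]
    nlinarith [mul_pos p1 p2, mul_nonneg p2.le g0]
  exact ⟨by positivity, by positivity, by linarith, by linarith⟩

lemma far_aux2 {x v m1 m2 mu p : ℝ} (hx : 0 < x) (hv : 0 < v) (hp : 0 ≤ p) (p1 : 0 < m1)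
    (p2 : 0 < m2) (hs : 1 / 3 < x * v ^ 2) (h3 : 4 / 3 * x * mu ^ 2 ≤ m1 ^ 2)
    (h4 : 4 / 3 * x * mu ^ 2 ≤ m2 ^ 2) : x * mu ^ 2 / 3 ≤ m1 / 2 * (m2 / 2) ∧
      x * (mu + p) ^ 2 / 3 ≤ (m1 / 2 + x * p * v) ^ 2 ∧ x * p ^ 2 / 3 ≤ (x * p * v) ^ 2 := by
  obtain ⟨s, s0, s2⟩ : ∃ s : ℝ, 0 ≤ s ∧ s ^ 2 = x / 3 :=
    ⟨√(x / 3), Real.sqrt_nonneg _, Real.sq_sqrt (by positivity)⟩
  have b0 : s ≤ x * v := by
    refine (le_abs_self s).trans (abs_le_of_sq_le_sq ?_ (by positivity))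
    nlinarith
  have b1 : s * p ≤ x * p * v := by nlinarith [mul_le_mul_of_nonneg_right b0 hp]
  have c1 : |s * mu| ≤ m1 / 2 := abs_le_of_sq_le_sq (by rw [mul_pow, s2]; linarith)
    (by positivity)
  have c2 : |s * mu| ≤ m2 / 2 := abs_le_of_sq_le_sq (by rw [mul_pow, s2]; linarith)
    (by positivity)
  refine ⟨?_, ?_, ?_⟩
  · have := mul_le_mul c1 c2 (abs_nonneg _) (by positivity)
    rw [abs_mul_abs_self, ← sq, mul_pow, s2] at this
    linarith
  · have := sq_le_sq' (a := s * mu + s * p) (b := m1 / 2 + x * p * v)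
      (by linarith [(abs_le.1 c1).1, mul_nonneg s0 hp]) (by linarith [(abs_le.1 c1).2])
    rw [← mul_add, mul_pow, s2] at this
    linarith
  · have := pow_le_pow_left₀ (mul_nonneg s0 hp) b1 2
    rw [mul_pow, s2] at this
    linarith

theorem lmi_ok {X : ℝ} (hX : 0 < X) : Lmi.Ok (1 / 3) X where
  mono := fun lam lam' x w a mu hx _ hl _ ⟨h1, h2, h3, h4⟩ => by
    have a1 : A1 lam x w a mu ≤ A1 lam' x w a mu := by unfold A1; linarith
    have a2 : A2 lam x w mu ≤ A2 lam' x w mu := by unfold A2; linarith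
    refine ⟨h1.trans_le a1, h2.trans_le a2, le_trans ?_ (h3.trans a1), le_trans ?_ (h4.trans a2)⟩
    · gcongr
    · gcongr
  far := fun lam hl => ⟨lam, hl, fun x w a mu h hs ⟨h0, h1, h2, h3, h4⟩ => by
    have hx : 0 < x := hX.trans_le h
    have hp := pp_nonneg hx.le h0
    have hv : 0 < 1 + w := by linarith
    obtain ⟨c3, c4, c5⟩ := far_aux2 hx hv hp (sub_pos.2 h1) (sub_pos.2 h2) hs h3 h4
    have := far_aux (sub_pos.2 h1) (sub_pos.2 h2) (by positivity) c3 c4 c5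
    unfold Lmi A1 A2
    rwa [add_sub_right_comm, add_sub_right_comm (1 + w)]⟩

/-- The old condition is admissible. -/
theorem crude_ok (e X : ℝ) : Crude.Ok e X where
  mono := fun lam lam' x w a mu _ _ hl _ ⟨h1, h2, h3, h4, h5⟩ => by
    refine ⟨h1, by linarith, by linarith, h4.trans ?_, h5.trans ?_⟩
    · gcongr
    · gcongr
  far := fun lam hl => ⟨lam, hl, fun _ _ _ _ _ _ h => h⟩

end Pool.Agent.MP_187b32_an.PM
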