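import Pool.Agent.MP_187b32_an.PD.Quad

/-!
The inner part of the profile is built from pieces.
-/

set_option autoImplicit false

open Set Filter Topology
open scoped ContDiff

namespace Pool.Agent.MP_187b32_an.PM

section
variable {R : Type} [CommRing R]

def AF (m e x r u : R) : R := 2 * m * (e - x * ((1 + u) * (r + 2 * u) - e * (u * (r + u))))
def NG (ρ m κ r u : R) : R := ρ * (m * ((1 + u) * (u * (r + u))) - (1 - κ) * (u + r - 1))

end

/-- The differential equation. -/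
def Ode (e r x w g : ℝ) : Prop := AF x e x r w * g = NG 1 x 0 r w

/-- A solution up to `c` with the value `w`. -/
def InnerTo (l : ℝ → ℝ → ℝ → ℝ → Prop) (e r c w : ℝ) : Prop :=
  ∃ (δ : ℝ) (W : ℝ → ℝ), 0 < δ ∧ ContDiffOn ℝ ∞ W (Ioo (-δ) (c + δ)) ∧
    (∀ x ∈ Ioo (-δ) (c + δ), Ode e r x (W x) (deriv W x)) ∧
    (∀ x ∈ Icc 0 c, l r x (W x) (deriv W x)) ∧ W c = w

/-- A piece of solution around `c`. -/
def Pc (l : ℝ → ℝ → ℝ → ℝ → Prop) (e r c ρ c' : ℝ) (U : ℝ → ℝ) : Prop :=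
  ContDiffOn ℝ ∞ U (Ioo (c - ρ) (c + ρ)) ∧
    (∀ x ∈ Ioo (c - ρ) (c + ρ), Ode e r x (U x) (deriv U x)) ∧
    ∀ x ∈ Icc c c', l r x (U x) (deriv U x)

variable {l : ℝ → ℝ → ℝ → ℝ → Prop} {e r c ρ c' w : ℝ} {U : ℝ → ℝ}

lemma Pc.start (h : Pc l e r 0 ρ c' U) (h0 : 0 ≤ c') (h1 : c' < ρ) : InnerTo l e r c' (U c') := by
  have hs : Ioo (-(ρ - c')) (c' + (ρ - c')) ⊆ Ioo (0 - ρ) (0 + ρ) :=
    Ioo_subset_Ioo (by linarith) (by linarith)
  exact ⟨ρ - c', U, by linarith, h.1.mono hs, fun x hx => h.2.1 x (hs hx), h.2.2, rfl⟩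

lemma Pc.extend (h : Pc l e r c ρ c' U) (hW : InnerTo l e r c (U c)) (hc : 0 ≤ c) (h0 : c ≤ c')
    (h1 : c' < c + ρ) (hA : AF c e c r (U c) ≠ 0) : InnerTo l e r c' (U c') := by
  classical
  obtain ⟨δ, W, hδ, cW, oW, kW, eW⟩ := hW
  obtain ⟨cU, oU, kU⟩ := h
  let V : ℝ → ℝ := fun x => if x ≤ c then W x else U x
  have v1 : ∀ x, x ≤ c → V x = W x := fun x hx => if_pos hx
  have v2 : ∀ x, c ≤ x → V x = U x := fun x hx => by
    rcases hx.eq_or_lt with rfl | hx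
    · rw [v1 _ le_rfl, eW]
    · exact if_neg hx.not_ge
  have e1 : ∀ x, x < c → V =ᶠ[𝓝 x] W := fun x hx =>
    mem_of_superset (Iio_mem_nhds hx) fun t ht => v1 t (le_of_lt ht)
  have e2 : ∀ x, c < x → V =ᶠ[𝓝 x] U := fun x hx =>
    mem_of_superset (Ioi_mem_nhds hx) fun t ht => v2 t (le_of_lt ht)
  have nW : Ioo (-δ) (c + δ) ∈ 𝓝 c := Ioo_mem_nhds (by linarith) (by linarith)
  have nU : Ioo (c - ρ) (c + ρ) ∈ 𝓝 c := Ioo_mem_nhds (by linarith) (by linarith)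
  have loc : ∀ {Z : ℝ → ℝ} {S : Set ℝ}, IsOpen S → c ∈ S → ContDiffOn ℝ ∞ Z S →
      (∀ x ∈ S, Ode e r x (Z x) (deriv Z x)) → Z c = U c → ∀ᶠ x in 𝓝 c, AF x e x r (Z x) ≠ 0 ∧
        HasDerivAt Z (NG 1 x 0 r (Z x) / AF x e x r (Z x)) x := by
    intro Z S hS hcS cZ oZ eZ
    have a1 : ContinuousAt (fun x => AF x e x r (Z x)) c := by
      have := (cZ.contDiffAt (hS.mem_nhds hcS)).continuousAt
      unfold AF
      fun_prop
    filter_upwards [a1.eventually_ne (y := 0) (by rwa [eZ]), hS.mem_nhds hcS] with x a2 a3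
    refine ⟨a2, ((cZ.contDiffAt (hS.mem_nhds a3)).differentiableAt
      (by simp)).hasDerivAt.congr_deriv ?_⟩
    rw [eq_div_iff a2, mul_comm]
    exact oZ x a3
  obtain ⟨ε, hε, hl⟩ := Metric.eventually_nhds_iff.1
    ((loc isOpen_Ioo (mem_of_mem_nhds nW) cW oW eW).and
      (loc isOpen_Ioo (mem_of_mem_nhds nU) cU oU rfl))
  have hV : ∀ x ∈ Metric.ball c ε, AF x e x r (V x) ≠ 0 ∧
      HasDerivAt V (NG 1 x 0 r (V x) / AF x e x r (V x)) x := fun x hx => by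
    obtain ⟨⟨a1, a2⟩, a3, a4⟩ := hl hx
    rcases lt_trichotomy x c with h | rfl | h
    · rw [v1 x h.le]
      exact ⟨a1, a2.congr_of_eventuallyEq (e1 x h)⟩
    · rw [v2 x le_rfl]
      rw [eW] at a2
      have b1 := (a2.hasDerivWithinAt (s := Iic x)).congr (fun t ht => v1 t ht) (v1 x le_rfl)
      have b2 := (a4.hasDerivWithinAt (s := Ici x)).congr (fun t ht => v2 t ht) (v2 x le_rfl)
      have b3 := b1.union b2
      rw [Iic_union_Ici, hasDerivWithinAt_univ] at b3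
      exact ⟨a3, b3⟩
    · rw [v2 x h.le]
      exact ⟨a3, a4.congr_of_eventuallyEq (e2 x h)⟩
  have cV : ContDiffOn ℝ ∞ V (Metric.ball c ε) :=
    Prof.boot Metric.isOpen_ball (G := fun p => NG 1 p.1 0 r p.2 / AF p.1 e p.1 r p.2)
      (fun x hx => (hV x hx).2) fun x hx =>
        ContDiffAt.div (by unfold NG; fun_prop) (by unfold AF; fun_prop) (hV x hx).1
  have d2 : ∀ x, c ≤ x → deriv V x = deriv U x := fun x hx => by
    rcases hx.eq_or_lt with rfl | hx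
    · rw [(hV _ (Metric.mem_ball_self hε)).2.deriv, (hl (Metric.mem_ball_self hε)).2.2.deriv,
        v2 _ le_rfl]
    · exact (e2 x hx).deriv_eq
  have m1 := min_le_left δ (c + ρ - c')
  have m2 := min_le_right δ (c + ρ - c')
  refine ⟨min δ (c + ρ - c'), V, lt_min hδ (by linarith), fun x hx => ?_, fun x hx => ?_,
    fun x hx => ?_, v2 _ h0⟩
  · rcases lt_trichotomy x c with h | rfl | h
    · exact ((cW.contDiffAt (Ioo_mem_nhds (by linarith [hx.1]) (by linarith))).congr_of_eventuallyEq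
        (e1 x h)).contDiffWithinAt
    · exact (cV.contDiffAt (Metric.ball_mem_nhds _ hε)).contDiffWithinAt
    · exact ((cU.contDiffAt (Ioo_mem_nhds (by linarith) (by linarith [hx.2]))).congr_of_eventuallyEq
        (e2 x h)).contDiffWithinAt
  · rcases lt_or_ge x c with h | h
    · rw [v1 x h.le, (e1 x h).deriv_eq]
      exact oW x ⟨by linarith [hx.1], by linarith⟩
    · rw [v2 x h, d2 x h]
      exact oU x ⟨by linarith, by linarith [hx.2]⟩
  · rcases lt_or_ge x c with h | h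
    · rw [v1 x h.le, (e1 x h).deriv_eq]
      exact kW x ⟨hx.1, h.le⟩
    · rw [v2 x h, d2 x h]
      exact kU x ⟨h, hx.2⟩

end Pool.Agent.MP_187b32_an.PM
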