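import Pool.Agent.MP_187b32_an.Prof.Side

/-!
Two estimates for perturbed two-term recurrences in a weighted `l1` norm: a forward estimate and
a shooting argument.
-/

set_option autoImplicit false

open Finset

namespace Pool.Agent.MP_187b32_an.PM

/-- Weighted finite sums. -/
noncomputable def TT (d : ℕ → ℝ) (n : ℕ) : ℝ := ∑ j ∈ range n, (1 + j) * |d j|

lemma TT_succ (d : ℕ → ℝ) (n : ℕ) : TT d (n + 1) = TT d n + (1 + n) * |d n| := sum_range_succ _ _

lemma TT_mono (d : ℕ → ℝ) : Monotone (TT d) := monotone_nat_of_le_succ fun n => by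
  rw [TT_succ]
  exact le_add_of_nonneg_right (by positivity)

theorem fwd {d pb p : ℕ → ℝ} {R : ℕ → ℕ → ℝ} {Λ τ e0 Rm : ℝ} (h0 : |d 0| ≤ e0)
    (hτ : e0 + Λ * Rm ≤ τ) (hΛ : 0 ≤ Λ) (hRm : 0 ≤ Rm)
    (hpb : ∀ n : ℕ, 1 + (n + 1 : ℝ) ≤ Λ * pb (n + 1))
    (hp : ∀ n : ℕ, 1 + (n + 1 : ℝ) ≤ Λ * p (n + 1))
    (h1 : ∀ n i, i < n → R n (i + 1) = pb (i + 1) * d (i + 1))
    (h2 : ∀ n, R n (n + 1) = p (n + 1) * d (n + 1))
    (hR : ∀ n, TT d (n + 1) ≤ τ → ∑ i ∈ range (n + 1), |R n (i + 1)| ≤ Rm) (n : ℕ) :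
    TT d n ≤ τ := by
  refine (TT_mono d n.le_succ).trans ?_
  induction n with
  | zero =>
    have := mul_nonneg hΛ hRm
    simp only [TT, Nat.succ_eq_add_one, zero_add, range_one, sum_singleton, Nat.cast_zero, add_zero,
      one_mul]
    linarith
  | succ n ih =>
    have a1 := mul_le_mul_of_nonneg_left (hR n ih) hΛ
    have key : ∀ (c x y z : ℝ), 0 < c → c ≤ Λ * x → y = x * z → c * |z| ≤ Λ * |y| :=
      fun c x y z hc h e => by
        rw [e, abs_mul, ← mul_assoc]
        exact mul_le_mul_of_nonneg_right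
          (h.trans (mul_le_mul_of_nonneg_left (le_abs_self x) hΛ)) (abs_nonneg z)
    have a2 : ∑ i ∈ range (n + 1), (1 + ((i + 1 : ℕ) : ℝ)) * |d (i + 1)| ≤
        Λ * ∑ i ∈ range (n + 1), |R n (i + 1)| := by
      rw [mul_sum]
      refine sum_le_sum fun i hi => ?_
      push_cast
      rcases (Nat.lt_succ_iff.1 (mem_range.1 hi)).eq_or_lt with rfl | hi
      · exact key _ _ _ _ (by positivity) (hp i) (h2 i)
      · exact key _ _ _ _ (by positivity) (hpb i) (h1 n i hi)
    rw [TT, sum_range_succ']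
    simp only [Nat.cast_zero, add_zero, one_mul]
    linarith

lemma waz_step {d pb q lam : ℕ → ℝ} {R : ℕ → ℝ} {Λ τ Rm p : ℝ} {n : ℕ}
    (hl : ∀ j, 0 ≤ lam j ∧ lam j ≤ Λ)
    (hlq : ∀ j : ℕ, 1 + j + lam j * |pb j| ≤ lam (j + 1) * |q j|) (hτ : Λ * Rm < τ) (hp : 0 < p)
    (h1 : ∀ i, i < n → R (i + 1) = pb (i + 1) * d (i + 1) - q i * d i)
    (h2 : R (n + 1) = p * d (n + 1) - q n * d n) (hR : ∑ i ∈ range (n + 1), |R (i + 1)| ≤ Rm)
    (he : τ ≤ TT d (n + 1)) : 0 < d (n + 1) * (q n * d n) := by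
  have hΛ : 0 ≤ Λ := (hl 0).1.trans (hl 0).2
  have key : ∀ m ≤ n, TT d (m + 1) ≤
      lam (m + 1) * |q m| * |d m| + Λ * ∑ i ∈ range m, |R (i + 1)| := fun m hm => by
    induction m with
    | zero =>
      have a1 := hlq 0
      have a2 := mul_nonneg (hl 0).1 (abs_nonneg (pb 0))
      simp only [TT, zero_add, range_one, sum_singleton, range_zero, sum_empty, mul_zero,
        add_zero] at a1 ⊢
      exact mul_le_mul_of_nonneg_right (by linarith) (abs_nonneg _)
    | succ m ih =>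
      have a1 := ih (by omega)
      have a2 : |q m| * |d m| ≤ |pb (m + 1)| * |d (m + 1)| + |R (m + 1)| := by
        rw [← abs_mul, ← abs_mul, show q m * d m = pb (m + 1) * d (m + 1) - R (m + 1) by
          rw [h1 m hm]; ring]
        exact abs_sub _ _
      have a3 := mul_le_mul_of_nonneg_left a2 (hl (m + 1)).1
      have a4 := mul_le_mul_of_nonneg_right (hlq (m + 1)) (abs_nonneg (d (m + 1)))
      have a5 := mul_le_mul_of_nonneg_right (hl (m + 1)).2 (abs_nonneg (R (m + 1)))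
      rw [TT_succ, sum_range_succ]
      nlinarith
  have a1 := key n le_rfl
  have a2 := mul_le_mul_of_nonneg_left hR hΛ
  have a3 := mul_le_mul_of_nonneg_right (hl (n + 1)).2 (abs_nonneg (R (n + 1)))
  rw [sum_range_succ] at a2
  have a4 : |R (n + 1)| < |q n * d n| := by
    refine lt_of_mul_lt_mul_left ?_ (hl (n + 1)).1
    rw [abs_mul]
    nlinarith
  refine (mul_pos_iff_of_pos_left hp).1 ?_
  have a5 : R (n + 1) ^ 2 < (q n * d n) ^ 2 := sq_lt_sq.2 a4
  have e : p * d (n + 1) = R (n + 1) + q n * d n := by rw [h2]; ring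
  rw [← mul_assoc, e]
  nlinarith [sq_nonneg (R (n + 1) + q n * d n)]

theorem waz {P : Type} [TopologicalSpace P] [PreconnectedSpace P] {d p : P → ℕ → ℝ}
    (hc : ∀ n, Continuous fun t => d t n) {R : P → ℕ → ℕ → ℝ} {pb q lam : ℕ → ℝ} {Λ τ Rm : ℝ}
    (hl : ∀ j, 0 ≤ lam j ∧ lam j ≤ Λ)
    (hlq : ∀ j : ℕ, 1 + j + lam j * |pb j| ≤ lam (j + 1) * |q j|) (hτ : Λ * Rm < τ) (hτ0 : 0 < τ)
    (hp : ∀ t n, 0 < p t (n + 1))
    (h1 : ∀ t n i, i < n → R t n (i + 1) = pb (i + 1) * d t (i + 1) - q i * d t i)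
    (h2 : ∀ t n, R t n (n + 1) = p t (n + 1) * d t (n + 1) - q n * d t n)
    (hR : ∀ t n, TT (d t) (n + 1) ≤ τ → ∑ i ∈ range (n + 1), |R t n (i + 1)| ≤ Rm)
    {a b : P} (ha : τ < d a 0) (hb : d b 0 < -τ) : ∃ t, ∀ n, TT (d t) n ≤ τ := by
  classical
  by_contra hcon
  push Not at hcon
  have hq : ∀ j, q j ≠ 0 := fun j h => by
    have a1 := hlq j
    have a2 := mul_nonneg (hl j).1 (abs_nonneg (pb j))
    have a3 : (0 : ℝ) ≤ j := j.cast_nonneg
    rw [h, abs_zero, mul_zero] at a1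
    linarith
  let s : ℕ → ℝ := fun n => ∏ j ∈ range n, q j
  have hs : ∀ n, s n ≠ 0 := fun n => prod_ne_zero_iff.2 fun j _ => hq j
  let U : ℝ → Set P := fun ε => {t | ∃ n, TT (d t) n < τ ∧ 0 < ε * (s n * d t n) ∧
    (τ < TT (d t) (n + 1) ∨ (τ < TT (d t) (n + 2) ∧ 0 < ε * (s (n + 1) * d t (n + 1))))}
  have cT : ∀ n, Continuous fun t => TT (d t) n := fun n => by
    unfold TT
    fun_prop
  have hU : ∀ ε, IsOpen (U ε) := fun ε => by
    simp only [U, Set.ofPred_exists]
    have c1 : ∀ n, IsOpen {t | 0 < ε * (s n * d t n)} := fun n =>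
      isOpen_lt continuous_const (by fun_prop)
    exact isOpen_iUnion fun n => (isOpen_lt (cT n) continuous_const).inter
      ((c1 n).inter ((isOpen_lt continuous_const (cT _)).union
        ((isOpen_lt continuous_const (cT _)).inter (c1 _))))
  have hT0 : ∀ t, TT (d t) 0 = 0 := fun t => by simp [TT]
  have hT1 : ∀ t, TT (d t) (0 + 1) = |d t 0| := fun t => by simp [TT]
  have hex : ∀ t, ∃ n, τ < TT (d t) (n + 1) := fun t => by
    obtain ⟨n, hn⟩ := hcon t
    exact ⟨n, hn.trans_le (TT_mono _ n.le_succ)⟩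
  have hk : ∀ ε t, t ∈ U ε → 0 < ε * (s (Nat.find (hex t)) * d t (Nat.find (hex t))) := by
    rintro ε t ⟨n, b1, b2, b3⟩
    have c1 : n ≤ Nat.find (hex t) := by
      by_contra h
      exact absurd ((Nat.find_spec (hex t)).trans_le (TT_mono _ (not_le.1 h))) (not_lt.2 b1.le)
    rcases b3 with b3 | ⟨b3, b4⟩
    · rwa [le_antisymm (Nat.find_min' _ b3) c1]
    · have c2 : Nat.find (hex t) ≤ n + 1 := Nat.find_min' _ b3
      rcases c1.eq_or_lt with h | h
      · rwa [← h]
      · rwa [le_antisymm c2 h]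
  obtain ⟨t, -, t1, t2⟩ := isPreconnected_univ (α := P) (U 1) (U (-1)) (hU _) (hU _) (fun t _ => by
      have hex' : ∃ n, τ ≤ TT (d t) (n + 1) := (hex t).imp fun _ h => h.le
      set n := Nat.find hex' with hn
      have b1 : τ ≤ TT (d t) (n + 1) := Nat.find_spec hex'
      have b2 : TT (d t) n < τ := by
        rcases h : n with _ | m
        · rwa [hT0]
        · exact not_le.1 (Nat.find_min hex' (by omega))
      have b3 : d t n ≠ 0 := fun h => by
        rw [TT_succ, h, abs_zero, mul_zero, add_zero] at b1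
        linarith
      have b4 : ∀ ε, 0 < ε * (s n * d t n) → t ∈ U ε := fun ε h => by
        refine ⟨n, b2, h, ?_⟩
        rcases b1.eq_or_lt with b5 | b5
        · have b6 := waz_step hl hlq hτ (hp t n) (h1 t n) (h2 t n) (hR t n b5.ge) b1
          have b7 : d t (n + 1) ≠ 0 := fun h => by simp [h] at b6
          refine Or.inr ⟨?_, ?_⟩
          · rw [TT_succ, ← b5]
            exact lt_add_of_pos_right _ (by positivity)
          · have e : s (n + 1) = s n * q n := prod_range_succ _ _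
            refine (mul_pos_iff_of_pos_left (sq_pos_of_ne_zero b3)).1 ?_
            rw [e]
            nlinarith [mul_pos h b6]
        · exact Or.inl b5
      rcases (mul_ne_zero (hs n) b3).lt_or_gt with h | h
      · exact Or.inr (b4 _ (by linarith))
      · exact Or.inl (b4 _ (by linarith)))
    ⟨a, trivial, 0, by rwa [hT0], by simp only [s, range_zero, prod_empty]; linarith,
      Or.inl (by rw [hT1]; exact ha.trans_le (le_abs_self _))⟩
    ⟨b, trivial, 0, by rwa [hT0], by simp only [s, range_zero, prod_empty]; linarith,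
      Or.inl (by rw [hT1]; linarith [neg_le_abs (d b 0)])⟩
  linarith [hk _ _ t1, hk _ _ t2]

end Pool.Agent.MP_187b32_an.PM
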