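import Mathlib.RingTheory.PowerSeries.Inverse
import Pool.Agent.MP_187b32_an.PM.Waz

/-!
Power series solutions of `A(u) X u' + κ u + k0 = X N(u)` near an approximate solution.
-/

set_option autoImplicit false

open PowerSeries Finset

namespace Pool.Agent.MP_187b32_an.PM

open Prof

variable {P : Type} [TopologicalSpace P]

/-- Continuity of all coefficients. -/
def CC (f : P → ℝ⟦X⟧) : Prop := ∀ k, Continuous fun p => coeff k (f p)

lemma CC.const (y : ℝ⟦X⟧) : CC fun _ : P => y := fun _ => continuous_const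

lemma CC.add {f g : P → ℝ⟦X⟧} (h1 : CC f) (h2 : CC g) : CC fun p => f p + g p := fun k => by
  simp only [map_add]
  exact (h1 k).add (h2 k)

lemma CC.neg {f : P → ℝ⟦X⟧} (h1 : CC f) : CC fun p => -f p := fun k => by
  simp only [map_neg]
  exact (h1 k).neg

lemma CC.sub {f g : P → ℝ⟦X⟧} (h1 : CC f) (h2 : CC g) : CC fun p => f p - g p := fun k => by
  simp only [map_sub]
  exact (h1 k).sub (h2 k)

lemma CC.mul {f g : P → ℝ⟦X⟧} (h1 : CC f) (h2 : CC g) : CC fun p => f p * g p := fun k => by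
  simp only [coeff_mul]
  exact continuous_finsetSum _ fun q _ => (h1 _).mul (h2 _)

lemma CC.th {f : P → ℝ⟦X⟧} (h1 : CC f) : CC fun p => th (f p) := fun k => by
  simp only [coeff_th]
  exact continuous_const.mul (h1 k)

lemma CC.C {f : P → ℝ} (h1 : Continuous f) : CC fun p => C (f p) := fun k => by
  simp only [coeff_C]
  split_ifs
  exacts [h1, continuous_const]

/-- Truncation. -/
noncomputable def tr (n : ℕ) (y : ℝ⟦X⟧) : ℝ⟦X⟧ := mk fun k => if k < n then coeff k y else 0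

lemma coeff_tr (n k : ℕ) (y : ℝ⟦X⟧) : coeff k (tr n y) = if k < n then coeff k y else 0 :=
  coeff_mk _ _

lemma dvd_tr (n : ℕ) (y : ℝ⟦X⟧) : X ^ n ∣ y - tr n y :=
  X_pow_dvd_iff.2 fun k hk => by simp [coeff_tr, hk]

/-- The weighted norm. -/
noncomputable def SS (m : ℕ) (y : ℝ⟦X⟧) : ℝ := nm 1 m y + nm 1 m (th y)

lemma SS_eq (m : ℕ) (y : ℝ⟦X⟧) : SS m y = TT (fun k => coeff k y) m := by
  simp only [SS, nm, TT, ← sum_add_distrib, coeff_th, abs_mul, Nat.abs_cast, one_pow, mul_one]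
  exact sum_congr rfl fun _ _ => by ring

lemma SS_tr (m n : ℕ) (y : ℝ⟦X⟧) : SS m (tr n y) ≤ TT (fun k => coeff k y) n := by
  rw [SS_eq]
  refine (TT_mono _ (le_max_left m n)).trans ?_
  unfold TT
  rw [← sum_range_add_sum_Ico _ (le_max_right m n), sum_eq_zero (s := Ico _ _) fun k hk => by
    simp [coeff_tr, (mem_Ico.1 hk).1.not_gt], add_zero]
  exact (sum_congr rfl fun k hk => by simp [coeff_tr, mem_range.1 hk]).le

lemma th_sub (y z : ℝ⟦X⟧) : th (y - z) = th y - th z := by simp [th, mul_sub]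

lemma th_add (y z : ℝ⟦X⟧) : th (y + z) = th y + th z := by simp [th, mul_add]

lemma th_mul (y z : ℝ⟦X⟧) : th (y * z) = th y * z + y * th z := by
  simp only [th, Derivation.leibniz, smul_eq_mul]
  ring

lemma th_C (c : ℝ) : th (C c) = 0 := by simp [th]

lemma coeff_mul_dvd {n : ℕ} {y : ℝ⟦X⟧} (h : X ^ n ∣ y) (a : ℝ⟦X⟧) :
    coeff n (a * y) = constantCoeff a * coeff n y := by
  obtain ⟨f, rfl⟩ := h
  have e : ∀ g : ℝ⟦X⟧, coeff n (X ^ n * g) = constantCoeff g := fun g => by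
    simpa using coeff_X_pow_mul g n 0
  rw [mul_left_comm, e, e, map_mul]

/-- An equation depending on a parameter. -/
structure Eqn (P : Type) [TopologicalSpace P] where
  A : P → ℝ⟦X⟧ → ℝ⟦X⟧
  N : P → ℝ⟦X⟧ → ℝ⟦X⟧
  κ : ℝ
  k0 : P → ℝ
  ι : P → ℝ
  dA : ∀ p n y z, X ^ n ∣ y - z → X ^ n ∣ A p y - A p z
  dN : ∀ p n y z, X ^ n ∣ y - z → X ^ n ∣ N p y - N p z
  cA : ∀ f, CC f → CC fun p => A p (f p)
  cN : ∀ f, CC f → CC fun p => N p (f p)
  ck : Continuous k0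
  cι : Continuous ι
  h0 : ∀ p, κ * ι p + k0 p = 0

namespace Eqn

variable (Q : Eqn P)

noncomputable def G (p : P) (u : ℝ⟦X⟧) : ℝ⟦X⟧ :=
  Q.A p u * th u + C Q.κ * u + C (Q.k0 p) - X * Q.N p u

noncomputable def a0 (p : P) : ℝ := constantCoeff (Q.A p (C (Q.ι p)))

lemma a0_eq {p : P} {y : ℝ⟦X⟧} (h : coeff 0 y = Q.ι p) : constantCoeff (Q.A p y) = Q.a0 p := by
  have := X_pow_dvd_iff.1 (Q.dA p 1 y (C (Q.ι p)) (X_pow_dvd_iff.2 fun k hk => by
    obtain rfl : k = 0 := by omega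
    rw [map_sub, h]; simp)) 0 one_pos
  simpa [a0, sub_eq_zero] using this

lemma diag (p : P) {n : ℕ} {y z : ℝ⟦X⟧} (h : X ^ n ∣ y - z) : X ^ n ∣ Q.G p y - Q.G p z ∧
    coeff n (Q.G p y - Q.G p z) = (constantCoeff (Q.A p y) * n + Q.κ) * coeff n (y - z) := by
  have e : Q.G p y - Q.G p z = Q.A p y * (th y - th z) + C Q.κ * (y - z)
      + X * ((Q.A p y - Q.A p z) * d⁄dX ℝ z - (Q.N p y - Q.N p z)) := by
    simp only [G, th]
    ring
  have h1 := th_dvd h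
  have h2 : X ^ n ∣ (Q.A p y - Q.A p z) * d⁄dX ℝ z - (Q.N p y - Q.N p z) :=
    dvd_sub ((Q.dA p n y z h).mul_right _) (Q.dN p n y z h)
  rw [e]
  refine ⟨dvd_add (dvd_add (h1.mul_left _) (h.mul_left _)) (h2.mul_left _), ?_⟩
  rw [map_add, map_add, coeff_mul_dvd h1, coeff_mul_dvd h, coeff_mul_dvd h2, ← th_sub, coeff_th]
  simp only [constantCoeff_C, constantCoeff_X]
  ring

lemma exists_sol (hne : ∀ p (n : ℕ), Q.a0 p * (n + 1 : ℕ) + Q.κ ≠ 0) :
    ∃ u : P → ℝ⟦X⟧, CC u ∧ ∀ p, coeff 0 (u p) = Q.ι p ∧ Q.G p (u p) = 0 := by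
  choose u hu using fun p => exists_formal (fun n y => if n = 0 then Q.ι p else
    -coeff n (Q.G p (tr n y)) / (Q.a0 p * n + Q.κ)) fun n y z h => by
      have : tr n y = tr n z := by
        ext k
        rw [coeff_tr, coeff_tr]
        split_ifs with hk
        · simpa [sub_eq_zero] using X_pow_dvd_iff.1 h k hk
        · rfl
      rw [this]
  have h0 : ∀ p, coeff 0 (u p) = Q.ι p := fun p => by rw [hu, if_pos rfl]
  refine ⟨u, fun n => ?_, fun p => ⟨h0 p, ?_⟩⟩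
  · induction n using Nat.strong_induction_on with
    | _ n ih =>
      rw [funext fun p => hu p n]
      cases n with
      | zero => simpa using Q.cι
      | succ n =>
        simp only [if_neg n.succ_ne_zero]
        have c1 : CC fun p => tr (n + 1) (u p) := fun k => by
          simp only [coeff_tr]
          split_ifs with hk
          exacts [ih k hk, continuous_const]
        have c2 : Continuous Q.a0 := by
          unfold a0
          simpa using Q.cA _ (CC.C Q.cι) 0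
        exact ((((((Q.cA _ c1).mul c1.th).add ((CC.const _).mul c1)).add (CC.C Q.ck)).sub
          ((CC.const _).mul (Q.cN _ c1))) (n + 1)).neg.div (by fun_prop) fun p => hne p n
  · ext n
    cases n with
    | zero =>
      have := Q.h0 p
      rw [← h0] at this
      simpa [G, th] using this
    | succ n =>
      have a1 := (Q.diag p (dvd_tr (n + 1) (u p))).2
      have a2 := hu p (n + 1)
      rw [if_neg n.succ_ne_zero, eq_div_iff (hne p n)] at a2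
      rw [Q.a0_eq (h0 p), map_sub, map_sub, coeff_tr, if_neg (lt_irrefl _)] at a1
      rw [map_zero]
      linarith

end Eqn

/-- The approximate solution `b`, the normal form and the certified bounds. -/
structure Nf (Q : Eqn P) where
  b : P → ℝ⟦X⟧
  E : ℝ⟦X⟧
  W : ℝ⟦X⟧
  y : ℝ
  s : ℝ
  β : ℝ
  k : ℝ
  r0 : ℝ
  τ' : ℝ
  cb : CC b
  E0 : constantCoeff E = 1
  k0 : 0 ≤ k
  hι : ∀ p, |Q.ι p - coeff 0 (b p)| ≤ τ'
  hB : ∀ p δ, (∀ m, SS m δ ≤ τ') → ∀ m, ∃ (Ω Rc : ℝ⟦X⟧) (c : ℝ),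
    W * Q.G p (b p + E * δ) = Rc + Ω * δ + W * Q.A p (b p + E * δ) * E * th δ ∧
      nm 1 m (C (Q.κ * constantCoeff W) + X * C β - Ω) ≤ k ∧
      nm 1 m (C y - X * C s - W * Q.A p (b p + E * δ) * E) ≤ k ∧ nm 1 m (Rc - C c) ≤ r0

namespace Nf

variable {Q : Eqn P} (F : Nf Q)

/-- The enclosure of a solution. -/
def Sol (τ : ℝ) (p : P) (u : ℝ⟦X⟧) : Prop :=
  coeff 0 u = Q.ι p ∧ Q.G p u = 0 ∧ ∃ δ, u = F.b p + F.E * δ ∧ ∀ m, SS m δ ≤ τ

lemma a0_ge (p : P) : F.y - F.k ≤ constantCoeff F.W * Q.a0 p := by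
  obtain ⟨Ω, Rc, c, -, -, a1, -⟩ := F.hB p (C (Q.ι p - coeff 0 (F.b p))) (fun m => by
    rw [SS, th_C]
    have := (nm_C (m := m) zero_le_one _).trans (F.hι p)
    simpa [nm] using this) 1
  rw [← Q.a0_eq (y := F.b p + F.E * C (Q.ι p - coeff 0 (F.b p))) (by simp [F.E0])]
  simp only [nm, range_one, sum_singleton, pow_zero, mul_one, coeff_zero_eq_constantCoeff, map_sub,
    map_mul, constantCoeff_C, constantCoeff_X, zero_mul, sub_zero, F.E0] at a1 ⊢
  linarith [(abs_le.1 a1).2]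

/-- The data for the two recurrences. -/
lemma core (hne : ∀ p (n : ℕ), Q.a0 p * (n + 1 : ℕ) + Q.κ ≠ 0) {τ : ℝ} (hτ : τ ≤ F.τ') :
    ∃ (u δ : P → ℝ⟦X⟧) (R : P → ℕ → ℕ → ℝ), CC u ∧ CC δ ∧ ∀ p,
      (coeff 0 (u p) = Q.ι p ∧ Q.G p (u p) = 0 ∧ u p = F.b p + F.E * δ p) ∧
      coeff 0 (δ p) = Q.ι p - coeff 0 (F.b p) ∧
      (∀ n i, i < n → R p n (i + 1) = (F.y * (i + 1 : ℕ) + Q.κ * constantCoeff F.W) *
        coeff (i + 1) (δ p) - (F.s * i - F.β) * coeff i (δ p)) ∧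
      (∀ n, R p n (n + 1) = constantCoeff F.W * (Q.a0 p * (n + 1 : ℕ) + Q.κ) *
        coeff (n + 1) (δ p) - (F.s * n - F.β) * coeff n (δ p)) ∧
      ∀ n, TT (fun k => coeff k (δ p)) (n + 1) ≤ τ →
        ∑ i ∈ range (n + 1), |R p n (i + 1)| ≤ F.r0 + F.k * τ := by
  obtain ⟨u, cu, hu⟩ := Q.exists_sol hne
  have hE : F.E * F.E⁻¹ = 1 := PowerSeries.mul_inv_cancel _ (by rw [F.E0]; exact one_ne_zero)
  let δ : P → ℝ⟦X⟧ := fun p => F.E⁻¹ * (u p - F.b p)
  have hδ : ∀ p, u p = F.b p + F.E * δ p := fun p => by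
    simp only [δ, ← mul_assoc, hE]
    ring
  let M : ℝ⟦X⟧ → ℝ⟦X⟧ := fun z =>
    (C F.y - X * C F.s) * th z + (C (Q.κ * constantCoeff F.W) + X * C F.β) * z
  have hM : ∀ z i, coeff (i + 1) (M z) = (F.y * (i + 1 : ℕ) + Q.κ * constantCoeff F.W) *
      coeff (i + 1) z - (F.s * i - F.β) * coeff i z := fun z i => by
    simp only [M, sub_mul, add_mul, mul_assoc, map_add, map_sub, coeff_succ_X_mul, coeff_C_mul,
      coeff_th]
    ring
  refine ⟨u, δ, fun p n i => coeff i (M (tr (n + 1) (δ p)) -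
    F.W * Q.G p (F.b p + F.E * tr (n + 1) (δ p))), cu, (CC.const _).mul (cu.sub F.cb),
    fun p => ?_⟩
  have hd : ∀ n, X ^ (n + 1) ∣ u p - (F.b p + F.E * tr (n + 1) (δ p)) := fun n => by
    rw [hδ, add_sub_add_left_eq_sub, ← mul_sub]
    exact (dvd_tr _ _).mul_left _
  have hG : ∀ n, X ^ (n + 1) ∣ Q.G p (F.b p + F.E * tr (n + 1) (δ p)) := fun n => by
    simpa [(hu p).2] using (Q.diag p (hd n)).1
  refine ⟨⟨(hu p).1, (hu p).2, hδ p⟩, ?_, fun n i hi => ?_, fun n => ?_, fun n hn => ?_⟩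
  · have := congrArg constantCoeff (hδ p)
    rw [map_add, map_mul, F.E0] at this
    rw [← (hu p).1]
    simp only [coeff_zero_eq_constantCoeff]
    linarith
  · beta_reduce
    rw [map_sub, hM, X_pow_dvd_iff.1 ((hG n).mul_left _) _ (by omega), coeff_tr, coeff_tr,
      if_pos (by omega), if_pos (by omega), sub_zero]
  · have a1 := (Q.diag p (hd n)).2
    rw [(hu p).2, Q.a0_eq (hu p).1, zero_sub, map_neg, hδ, add_sub_add_left_eq_sub, ← mul_sub,
      coeff_mul_dvd (dvd_tr _ _), F.E0, map_sub, coeff_tr, if_neg (lt_irrefl _)] at a1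
    beta_reduce
    rw [map_sub, hM, coeff_mul_dvd (hG n), coeff_tr, coeff_tr, if_neg (lt_irrefl _),
      if_pos (by omega)]
    linear_combination constantCoeff F.W * a1
  · have hS := fun m => (SS_tr m (n + 1) (δ p)).trans hn
    obtain ⟨Ω, Rc, c, e, a1, a2, a3⟩ := F.hB p _ (fun m => (hS m).trans hτ) (n + 2)
    have a4 := hS (n + 2)
    set z := tr (n + 1) (δ p)
    have e2 : M z - F.W * Q.G p (F.b p + F.E * z) + C c =
        (C (Q.κ * constantCoeff F.W) + X * C F.β - Ω) * z +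
          (C F.y - X * C F.s - F.W * Q.A p (F.b p + F.E * z) * F.E) * th z + -(Rc - C c) := by
      rw [e]
      simp only [M]
      ring
    have a5 : nm 1 (n + 2) (M z - F.W * Q.G p (F.b p + F.E * z) + C c) ≤ F.r0 + F.k * τ := by
      rw [e2]
      have b1 := (nm_mul (m := n + 2) zero_le_one _ z).trans
        (mul_le_mul_of_nonneg_right a1 (nm_nonneg zero_le_one _))
      have b2 := (nm_mul (m := n + 2) zero_le_one _ (th z)).trans
        (mul_le_mul_of_nonneg_right a2 (nm_nonneg zero_le_one _))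
      have b3 := mul_le_mul_of_nonneg_left a4 F.k0
      refine (nm_add zero_le_one _ _).trans ((add_le_add (nm_add zero_le_one _ _) le_rfl).trans ?_)
      rw [nm_neg]
      unfold SS at b3
      linarith
    refine le_trans ?_ a5
    rw [nm, sum_range_succ' _ (n + 1)]
    refine le_add_of_le_of_nonneg (le_of_eq (sum_congr rfl fun i _ => ?_)) (by positivity)
    simp [z]

theorem fwd {τ e0 Λ α : ℝ} (hs : F.s = 0) (hβ : F.β = 0) (hτ : τ ≤ F.τ')
    (h0 : ∀ p, |Q.ι p - coeff 0 (F.b p)| ≤ e0) (hΛ : 0 ≤ Λ) (hr : 0 ≤ F.r0 + F.k * τ)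
    (h1 : e0 + Λ * (F.r0 + F.k * τ) ≤ τ) (hα : α ≤ Q.κ * constantCoeff F.W)
    (h2 : 1 ≤ Λ * (F.y - F.k)) (h3 : 2 ≤ Λ * (F.y - F.k + α)) :
    ∃ u : P → ℝ⟦X⟧, CC u ∧ ∀ p, F.Sol τ p (u p) ∧ Q.a0 p + Q.κ ≠ 0 := by
  have key : ∀ (x : ℝ) (n : ℕ), F.y - F.k ≤ x →
      1 + (n + 1 : ℝ) ≤ Λ * (x * (n + 1 : ℕ) + Q.κ * constantCoeff F.W) := fun x n hx => by
    have hn : (0 : ℝ) ≤ n := n.cast_nonneg
    have a1 := mul_le_mul_of_nonneg_left hx hΛ
    have a2 := mul_le_mul_of_nonneg_left hα hΛ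
    push_cast
    nlinarith
  have hp : ∀ p (n : ℕ), 1 + (n + 1 : ℝ) ≤
      Λ * (constantCoeff F.W * (Q.a0 p * (n + 1 : ℕ) + Q.κ)) := fun p n =>
    (key _ n (F.a0_ge p)).trans_eq (by ring)
  have hne : ∀ p (n : ℕ), Q.a0 p * (n + 1 : ℕ) + Q.κ ≠ 0 := fun p n h => by
    have := hp p n
    have hn : (0 : ℝ) ≤ n := n.cast_nonneg
    rw [h, mul_zero, mul_zero] at this
    linarith
  obtain ⟨u, δ, R, cu, -, h⟩ := F.core hne hτ
  refine ⟨u, cu, fun p => ⟨?_, by simpa using hne p 0⟩⟩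
  obtain ⟨⟨a1, a2, a3⟩, a4, a5, a6, a7⟩ := h p
  refine ⟨a1, a2, δ p, a3, fun m => ?_⟩
  rw [SS_eq]
  exact PM.fwd (R := R p) (pb := fun i => F.y * i + Q.κ * constantCoeff F.W)
    (p := fun n => constantCoeff F.W * (Q.a0 p * n + Q.κ)) (a4 ▸ h0 p) h1 hΛ hr
    (fun n => key _ n (by linarith [F.k0])) (hp p)
    (fun n i hi => by simpa [hs, hβ] using a5 n i hi) (fun n => by simpa [hs, hβ] using a6 n) a7 m

theorem waz [PreconnectedSpace P] {τ Λ : ℝ} {lam : ℕ → ℝ} (hτ : τ ≤ F.τ') (hτ0 : 0 < τ)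
    (h1 : Λ * (F.r0 + F.k * τ) < τ) (hl : ∀ j, 0 ≤ lam j ∧ lam j ≤ Λ)
    (hlq : ∀ j : ℕ, 1 + j + lam j * |F.y * j + Q.κ * constantCoeff F.W| ≤
      lam (j + 1) * |F.s * j - F.β|) (hκ : ∀ p, 0 ≤ Q.a0 p * Q.κ)
    (hpos : 0 < Q.κ * constantCoeff F.W ∨
      (0 < F.y - F.k ∧ 0 < F.y - F.k + Q.κ * constantCoeff F.W))
    {a b : P} (ha : τ < Q.ι a - coeff 0 (F.b a)) (hb : Q.ι b - coeff 0 (F.b b) < -τ) :
    ∃ p u, F.Sol τ p u ∧ Q.a0 p + Q.κ ≠ 0 := by
  have hp : ∀ p (n : ℕ), 0 < constantCoeff F.W * (Q.a0 p * (n + 1 : ℕ) + Q.κ) := fun p n => by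
    have hn : (0 : ℝ) ≤ n := n.cast_nonneg
    have a1 := F.a0_ge p
    push_cast
    rcases hpos with h | h
    · have a2 : 0 ≤ constantCoeff F.W * Q.a0 p := by
        refine nonneg_of_mul_nonneg_left ?_ h
        nlinarith [mul_nonneg (sq_nonneg (constantCoeff F.W)) (hκ p)]
      nlinarith
    · nlinarith [h.1, h.2]
  have hne : ∀ p (n : ℕ), Q.a0 p * (n + 1 : ℕ) + Q.κ ≠ 0 := fun p n h => by
    simpa only [h, mul_zero, lt_irrefl] using hp p n
  obtain ⟨u, δ, R, -, cδ, h⟩ := F.core hne hτ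
  obtain ⟨p, hp'⟩ := PM.waz (d := fun p k => coeff k (δ p)) (R := R)
    (p := fun p n => constantCoeff F.W * (Q.a0 p * n + Q.κ)) cδ hl hlq h1 hτ0 hp
    (fun p => (h p).2.2.1) (fun p => (h p).2.2.2.1) (fun p => (h p).2.2.2.2)
    (a := a) (b := b) (by rwa [(h a).2.1]) (by rwa [(h b).2.1])
  obtain ⟨⟨a1, a2, a3⟩, -⟩ := h p
  exact ⟨p, u p, ⟨a1, a2, δ p, a3, fun m => by rw [SS_eq]; exact hp' m⟩, by simpa using hne p 0⟩

end Nf

end Pool.Agent.MP_187b32_an.PM
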