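import Pool.Agent.MP_187b32_an.PM.Fin

set_option autoImplicit false

namespace Pool.Agent.MP_187b32_an.PM

/-- Rows of length one. -/
def sg1 (l : List ℤ) : List (List ℤ) := l.map fun c => [c]

def gl : Gl := ⟨1 / 3, 0, [2009840929507553918911775324048035837888675060501170773797939], 200, 441711766194596082395824375185729628956870974218904739530401550323154944, 5371831909 / 4294967296⟩

end Pool.Agent.MP_187b32_an.PM
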