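import Pool.Agent.MP_187b32_an.PM.Tail
import Pool.Agent.MP_187b32_an.PM.Lmi

/-!
The polynomial form of the weighted repulsivity condition and chains of discs.
-/

set_option autoImplicit false

open Set
open scoped ContDiff

namespace Pool.Agent.MP_187b32_an.PM

open Prof (Ex)
open PD

section
variable {R : Type} [CommRing R]

def c1 (x w g : R) : R := 1 - 2 * x * (x * (1 + w) * g)
def c2 (r x w : R) : R := 1 + x * (w * (r + w))
def c3 (r x w g : R) : R := w * (r + w) + 2 * (x * (1 + w) * g)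

end

/-- The tests for `Lmi`. -/
def TL : Ts where
  es := [.var 5, .var 6, .var 11, .var 12,
    .int 6 * (.var 12 * .var 12 * .var 11) - .var 0 * (.int 2 * (.var 11 * .var 13) +
      .var 12 * .var 14),
    .int 12 * (.var 11 * .var 11 * .var 12) - .var 0 * (.int 4 * (.var 12 * .var 15) +
      .var 11 * .var 14)]
  ds := [.var 0 * (.int 1 + .var 1) * .var 2, .int 1 - .int 2 * .var 0 * .var 4,
    .int 1 + .var 0 * (.var 1 * (.var 3 + .var 1)), .var 1 * (.var 3 + .var 1) + .int 2 * .var 4,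
    (.int 2 * (.var 0 * .var 0) + .int 1) * (.var 0 * .var 0 + .int 30),
    .int 120832 * (.var 6 * .var 0), .int (-512) * (.var 7 * .var 8),
    (.int 511 + .int 512 * .var 1) * (.var 5 * .var 8) + .var 0 * .var 9 * (.int 1 + .var 1),
    .var 11 + .int 1024 * (.var 0 * .var 2 * (.var 6 * .var 8)),
    (.var 10 + .var 9) * (.var 10 + .var 9), .var 10 * .var 10, .var 9 * .var 9]
  n := 5

lemma ChkR.step {es ds : List Ex} {d : Ex} {env : List ℝ} (h : ChkR es (d :: ds) env) :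
    ∃ v, v = d.ev env ∧ ChkR es ds (env ++ [v]) := ⟨_, rfl, h⟩

lemma TL_ok {r x w g : ℝ} (h : TL.l r x w g) : 0 < c1 x w g ∧ 0 < c2 r x w ∧
    Lmi (1 / 512) x w (w + 2 * x * (c2 r x w / c1 x w g) * g) (-c3 r x w g / c1 x w g) := by
  obtain ⟨s, e0, h⟩ := ChkR.step h
  obtain ⟨k1, e1, h⟩ := h.step
  obtain ⟨k2, e2, h⟩ := h.step
  obtain ⟨k3, e3, h⟩ := h.step
  obtain ⟨Q, e4, h⟩ := h.step
  obtain ⟨p, e5, h⟩ := h.step
  obtain ⟨m, e6, h⟩ := h.step
  obtain ⟨n2, e7, h⟩ := h.step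
  obtain ⟨n1, e8, h⟩ := h.step
  obtain ⟨u1, e9, h⟩ := h.step
  obtain ⟨u2, e10, h⟩ := h.step
  obtain ⟨u3, e11, h⟩ := h.step
  simp only [TL, ChkR, List.cons_append, List.nil_append, List.forall_mem_cons, ev_sub',
    Ex.ev, List.getD_cons_succ, List.getD_cons_zero] at h e0 e1 e2 e3 e4 e5 e6 e7 e8 e9 e10 e11
  obtain ⟨h1, h2, h3, h4, h5, h6, -⟩ := h
  push_cast at h5 h6 e0 e1 e2 e3 e4 e5 e6 e7 e8
  have b1 : c1 x w g = k1 := by rw [e1, e0, c1]
  have b2 : c2 r x w = k2 := by rw [e2, c2]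
  have b3 : c3 r x w g = k3 := by rw [e3, e0, c3]
  have b4 : k1 + x * k3 = k2 := by rw [e1, e2, e3]; ring
  have q1 : x ^ 2 + 1 / 2 ≠ 0 := by positivity
  have q2 : x ^ 2 + 30 ≠ 0 := by positivity
  have hQ : 0 < Q := by
    have := mul_self_nonneg x
    rw [e4]
    positivity
  have hp : pp x (-k3 / k1) * (512 * (k1 * Q)) = p := by
    rw [pp, e5, e4, ← b4]
    field_simp
    ring
  have hk : k2 / k1 * k1 = k2 := div_mul_cancel₀ _ h1.ne'
  rw [b1, b2, b3]
  refine ⟨h1, h2, lmi_of (D := 512 * (k1 * Q)) (m := m) (by positivity) ?_ ?_ ?_ hp h4 h3 ?_ ?_⟩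
  · rw [A1, e8, e7]
    linear_combination x * (1 + w) * hp + 1024 * x * g * Q * hk
  · rw [A2, e7]
    linear_combination x * (1 + w) * hp
  · rw [e6]
    field_simp
  · rw [e9, e10] at h5
    linarith
  · rw [e10, e11] at h6
    linarith

theorem InnerTo.innerP {T : Ts} {P : Cond} {e r c w q y : ℝ} (h : InnerTo T.l e r c w)
    (ok : ∀ {x w g : ℝ}, T.l r x w g → 0 < c1 x w g ∧ 0 < c2 r x w ∧
      P (1 / 512) x w (w + 2 * x * (c2 r x w / c1 x w g) * g) (-c3 r x w g / c1 x w g))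
    (h0 : 0 ≤ c) (hc : (q ^ 2)⁻¹ = c) (hw : w = q * y) : InnerP P e r q y := by
  obtain ⟨δ, W, hδ, cW, oW, kW, eW⟩ := h
  have cD : ContDiffOn ℝ ∞ (deriv W) (Ioo (-δ) (c + δ)) := cW.deriv_of_isOpen isOpen_Ioo (by simp)
  have c0 : ContDiffOn ℝ ∞ (fun x => c1 x (W x) (deriv W x)) (Ioo (-δ) (c + δ)) := by
    unfold c1
    fun_prop
  have ho : IsOpen (Ioo (-δ) (c + δ) ∩ (fun x => c1 x (W x) (deriv W x)) ⁻¹' Ioi 0) :=
    c0.continuousOn.isOpen_inter_preimage isOpen_Ioo isOpen_Ioi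
  obtain ⟨ε, hε, hs⟩ := (isCompact_Icc (a := (0 : ℝ)) (b := c)).exists_thickening_subset_open ho
    fun x hx => ⟨⟨by linarith [hx.1], by linarith [hx.2]⟩, (ok (kW x hx)).1⟩
  have hs' : ∀ x ∈ Ioo (-ε) (c + ε), x ∈ Ioo (-δ) (c + δ) ∧ 0 < c1 x (W x) (deriv W x) :=
    fun x hx => hs (Metric.mem_thickening_iff.2 ⟨max 0 (min x c), ⟨le_max_left _ _,
      max_le h0 (min_le_right _ _)⟩, by
        rw [Real.dist_eq, abs_lt]
        rcases le_total x 0 with a | a
        · rw [max_eq_left ((min_le_left _ _).trans a)]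
          constructor <;> linarith [hx.1]
        · rcases le_total x c with b | b
          · rw [min_eq_left b, max_eq_right a]
            constructor <;> linarith
          · rw [min_eq_right b, max_eq_right h0]
            constructor <;> linarith [hx.2]⟩)
  have hsub : Ioo (-ε) (c + ε) ⊆ Ioo (-δ) (c + δ) := fun x hx => (hs' x hx).1
  let mu : ℝ → ℝ := fun x => -c3 r x (W x) (deriv W x) / c1 x (W x) (deriv W x)
  have hT : ∀ x, c1 x (W x) (deriv W x) ≠ 0 →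
      1 - x * mu x = c2 r x (W x) / c1 x (W x) (deriv W x) := fun x hx => by
    simp only [mu]
    field_simp
    unfold c1 c2 c3
    ring
  unfold InnerP
  rw [hc]
  refine ⟨ε, 1 / 512, W, mu, hε, by norm_num, cW.mono hsub, ?_, fun x hx => ?_, fun x hx => ?_,
    eW.trans hw⟩
  · refine ContDiffOn.div ?_ (c0.mono hsub) fun x hx => (hs' x hx).2.ne'
    have := cW.mono hsub
    have := cD.mono hsub
    unfold c3
    fun_prop
  · have a1 := (hs' x hx).2.ne'
    have a2 := oW x (hsub hx)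
    unfold Eqs AA
    rw [hT x a1]
    simp only [mu]
    constructor
    · field_simp
      unfold c1 c2 c3
      ring
    · field_simp
      unfold Ode AF NG at a2
      unfold c1 c2 c3
      linear_combination a2
  · obtain ⟨b1, b2, b3⟩ := ok (kW x hx)
    unfold AA
    rw [hT x b1.ne']
    exact ⟨div_pos b2 b1, b3⟩

/-- The end of the chain. -/
theorem St.fin {g : Gl} {t : ℝ} {A B : ℚ} {err : ℕ} (ht : |t| ≤ g.T0 / SC)
    (h : St TL g (fun _ : Unit => t) (169 / 100) A B err) (h1 : g.ec = 1 / 3) (h2 : g.e0 = 0)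
    (h3 : 12507 / 10000 + (g.T0 : ℚ) / SC ≤ hq g.kr g.rl)
    (h4 : hq g.kr g.rl + (g.T0 : ℚ) / SC ≤ 12508 / 10000) (h5 : B = 0)
    (h6 : -668 / 1300 + (err : ℚ) / SC ≤ A) (h7 : A + (err : ℚ) / SC ≤ -662 / 1300) :
    ∃ r y : ℝ, 12507 / 10000 ≤ r ∧ r ≤ 12508 / 10000 ∧ -668 / 1000 ≤ y ∧ y ≤ -662 / 1000 ∧
      InnerP Lmi (1 / 3) r (10 / 13) y := by
  obtain ⟨ι, -, h⟩ := h
  obtain ⟨a1, a2⟩ := h ()
  have d3 := (Rat.cast_le (K := ℝ)).2 h3
  have d4 := (Rat.cast_le (K := ℝ)).2 h4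
  have d6 := (Rat.cast_le (K := ℝ)).2 h6
  have d7 := (Rat.cast_le (K := ℝ)).2 h7
  rw [h5, abs_le] at a2
  rw [abs_le] at ht
  rw [Gl.e, Gl.r, rv_zero, h1, h2] at a1
  push_cast at a1 a2 d3 d4 d6 d7
  rcases a1 with ⟨a, -⟩ | ⟨-, a⟩
  · norm_num at a
  · rw [zero_mul, add_zero] at a
    exact ⟨_, 13 / 10 * ι (), by linarith [ht.1], by linarith [ht.2], by linarith [a2.1],
      by linarith [a2.2], a.innerP TL_ok (by norm_num) (by norm_num) (by ring)⟩

end Pool.Agent.MP_187b32_an.PM
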