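import Pool.Agent.MP_187b32_an.PM.D0

/-!
The polynomial form of the crude repulsivity condition.
-/

set_option autoImplicit false

open Set
open scoped ContDiff

namespace Pool.Agent.MP_187b32_an.PM

open Prof (Ex)
open PD

/-- The tests for `Crude`. -/
def TC : Ts where
  es := [.var 5, .var 6, .var 8, .var 9, .int 3 * (.var 9 * .var 9) - .var 10,
    .int 3 * (.var 8 * .var 8) - .var 10]
  ds := [.var 0 * (.int 1 + .var 1) * .var 2, .int 1 - .int 2 * .var 0 * .var 4,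
    .int 1 + .var 0 * (.var 1 * (.var 3 + .var 1)), .var 1 * (.var 3 + .var 1) + .int 2 * .var 4,
    (.int 511 + .int 512 * .var 1) * .var 5, .var 8 + .int 1024 * (.var 0 * .var 2 * .var 6),
    .int 1048576 * (.var 0 * (.var 7 * .var 7))]
  n := 5

lemma TC_ok {r x w g : ℝ} (h : TC.l r x w g) : 0 < c1 x w g ∧ 0 < c2 r x w ∧
    Crude (1 / 512) x w (w + 2 * x * (c2 r x w / c1 x w g) * g) (-c3 r x w g / c1 x w g) := by
  simp only [Ts.l, TC, ChkR, List.cons_append, List.nil_append, List.forall_mem_cons, ev_sub',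
    Ex.ev, List.getD_cons_succ, List.getD_cons_zero] at h
  obtain ⟨h1, h2, h3, h4, h5, h6, -⟩ := h
  push_cast at h1 h2 h3 h4 h5 h6
  change 0 < c1 x w g at h1
  change 0 < c2 r x w at h2
  change 0 < (511 + 512 * w) * c1 x w g at h3
  change 0 < (511 + 512 * w) * c1 x w g + 1024 * (x * g * c2 r x w) at h4
  change 0 < 3 * (((511 + 512 * w) * c1 x w g + 1024 * (x * g * c2 r x w)) *
    ((511 + 512 * w) * c1 x w g + 1024 * (x * g * c2 r x w))) -
      1048576 * (x * (c3 r x w g * c3 r x w g)) at h5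
  change 0 < 3 * ((511 + 512 * w) * c1 x w g * ((511 + 512 * w) * c1 x w g)) -
      1048576 * (x * (c3 r x w g * c3 r x w g)) at h6
  have e0 : 1 - x * (-c3 r x w g / c1 x w g) = c2 r x w / c1 x w g := by
    field_simp
    unfold c1 c2 c3
    ring
  have e1 : 1 + (w + 2 * x * (c2 r x w / c1 x w g) * g) - 1 / 512 =
      ((511 + 512 * w) * c1 x w g + 1024 * (x * g * c2 r x w)) / (512 * c1 x w g) := by
    field_simp
    ring
  have e2 : 1 + w - 1 / 512 = (511 + 512 * w) * c1 x w g / (512 * c1 x w g) := by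
    field_simp
    ring
  have e3 : 4 / 3 * x * (-c3 r x w g / c1 x w g) ^ 2 =
      1048576 * (x * (c3 r x w g * c3 r x w g)) / 3 / (512 * c1 x w g) ^ 2 := by
    field_simp
    ring
  refine ⟨h1, h2, e0 ▸ div_pos h2 h1, sub_pos.1 (e1 ▸ by positivity),
    sub_pos.1 (e2 ▸ by positivity), ?_, ?_⟩
  · rw [e1, e3, div_pow]
    exact div_le_div_of_nonneg_right (by linarith) (by positivity)
  · rw [e2, e3, div_pow]
    exact div_le_div_of_nonneg_right (by linarith) (by positivity)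

/-- The end of the chain at `x = 1`. -/
theorem St.fin1 {g : Gl} {t : ℝ} {A B : ℚ} {err : ℕ} (ht : |t| ≤ g.T0 / SC)
    (h : St TC g (fun _ : Unit => t) 1 A B err) (r1 r2 y1 y2 : ℚ) (h2 : g.e0 = 0) (h5 : B = 0)
    (h3 : r1 + (g.T0 : ℚ) / SC ≤ hq g.kr g.rl ∧ hq g.kr g.rl + (g.T0 : ℚ) / SC ≤ r2 ∧
      y1 + (err : ℚ) / SC ≤ A ∧ A + (err : ℚ) / SC ≤ y2) :
    ∃ r y : ℝ, r1 ≤ r ∧ r ≤ r2 ∧ y1 ≤ y ∧ y ≤ y2 ∧ InnerP Crude g.ec r 1 y := by
  obtain ⟨ι, -, h⟩ := h
  obtain ⟨a1, a2⟩ := h ()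
  have d3 := (Rat.cast_le (K := ℝ)).2 h3.1
  have d4 := (Rat.cast_le (K := ℝ)).2 h3.2.1
  have d6 := (Rat.cast_le (K := ℝ)).2 h3.2.2.1
  have d7 := (Rat.cast_le (K := ℝ)).2 h3.2.2.2
  rw [h5, abs_le] at a2
  rw [abs_le] at ht
  rw [Gl.e, Gl.r, rv_zero, h2] at a1
  push_cast at a1 a2 d3 d4 d6 d7
  rcases a1 with ⟨a, -⟩ | ⟨-, a⟩
  · norm_num at a
  · rw [zero_mul, add_zero] at a
    exact ⟨_, ι (), by linarith [ht.1], by linarith [ht.2], by linarith [a2.1],
      by linarith [a2.2], a.innerP TC_ok (by norm_num) (by norm_num) (by ring)⟩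

end Pool.Agent.MP_187b32_an.PM
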