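import Pool.Agent.MP_187b32_an.PM.Da
import Pool.Agent.MP_187b32_an.PM.Db
import Pool.Agent.MP_187b32_an.PM.Dc
import Pool.Agent.MP_187b32_an.PM.Dw
import Pool.Agent.MP_187b32_an.PM.Dd

/-!
The inner part of the profile in dimension three.
-/

set_option autoImplicit false

namespace Pool.Agent.MP_187b32_an.PM

theorem inner3 : ∃ r y : ℝ, 12507 / 10000 ≤ r ∧ r ≤ 12508 / 10000 ∧ -668 / 1000 ≤ y ∧
    y ≤ -662 / 1000 ∧ InnerP Lmi (1 / 3) r (10 / 13) y := by
  have c := continuous_subtype_val (p := (· ∈ Set.Icc (-(gl.T0 / SC) : ℝ) (gl.T0 / SC)))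
  have b : ∀ p : Set.Icc (-(gl.T0 / SC) : ℝ) (gl.T0 / SC), |p.1| ≤ gl.T0 / SC := fun p =>
    abs_le.2 p.2
  have s0 := St.start TL gl c
  have s1 := Dk.step_fwd c b s0 d0C d0S d0F
  have s2 := Dk.step_fwd c b s1 d1C d1S d1F
  have s3 := Dk.step_fwd c b s2 d2C d2S d2F
  have s4 := Dk.step_fwd c b s3 d3C d3S d3F
  have s5 := Dk.step_fwd c b s4 d4C d4S d4F
  have s6 := Dk.step_fwd c b s5 d5C d5S d5F
  have s7 := Dk.step_fwd c b s6 d6C d6S d6F
  obtain ⟨t, ht, s8⟩ := Dk.step_waz s7 d7C d7S d7F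
  have s9 := Dk.step_fwd continuous_const (fun _ => ht) s8 d8C d8S d8F
  have s10 := Dk.step_fwd continuous_const (fun _ => ht) s9 d9C d9S d9F
  have s11 := Dk.step_fwd continuous_const (fun _ => ht) s10 d10C d10S d10F
  have s12 := Dk.step_fwd continuous_const (fun _ => ht) s11 d11C d11S d11F
  have s13 := Dk.step_fwd continuous_const (fun _ => ht) s12 d12C d12S d12F
  have s14 := Dk.step_fwd continuous_const (fun _ => ht) s13 d13C d13S d13F
  have s15 := Dk.step_fwd continuous_const (fun _ => ht) s14 d14C d14S d14F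
  have s16 := Dk.step_fwd continuous_const (fun _ => ht) s15 d15C d15S d15F
  have s17 := Dk.step_fwd continuous_const (fun _ => ht) s16 d16C d16S d16F
  have s18 := Dk.step_fwd continuous_const (fun _ => ht) s17 d17C d17S d17F
  have s19 := Dk.step_fwd continuous_const (fun _ => ht) s18 d18C d18S d18F
  have s20 := Dk.step_fwd continuous_const (fun _ => ht) s19 d19C d19S d19F
  have s21 := Dk.step_fwd continuous_const (fun _ => ht) s20 d20C d20S d20F
  exact St.fin ht s21 rfl rfl (by decide +kernel) (by decide +kernel) rfl (by decide +kernel)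
    (by decide +kernel)

end Pool.Agent.MP_187b32_an.PM
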