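import Pool.Agent.MP_187b32_an.Prof.Side

/-!
Polynomials in two variables with rational coefficients, packed into one integer, and the
computation of their `l1` norms from the digits of that integer.
-/

set_option autoImplicit false

open Polynomial Finset

namespace Pool.Agent.MP_187b32_an.PM

open Prof

/-- Submultiplicative seminorms. -/
structure SN {R : Type} [CommRing R] (ν : R → ℝ) : Prop where
  zero : ν 0 ≤ 0
  one : ν 1 ≤ 1
  nonneg : ∀ a, 0 ≤ ν a
  add : ∀ a b, ν (a + b) ≤ ν a + ν b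
  mul : ∀ a b, ν (a * b) ≤ ν a * ν b
  neg : ∀ a, ν (-a) ≤ ν a

section
variable {R : Type} [CommRing R] {ν : R → ℝ}

lemma SN.sum (h : SN ν) {ι : Type} (s : Finset ι) (f : ι → R) :
    ν (∑ i ∈ s, f i) ≤ ∑ i ∈ s, ν (f i) := by
  classical
  induction s using Finset.induction_on with
  | empty => simpa using h.zero
  | insert i s hi ih =>
    rw [sum_insert hi, sum_insert hi]
    exact (h.add _ _).trans (add_le_add le_rfl ih)

lemma SN.mul_le (h : SN ν) {a b : R} {x y : ℝ} (h1 : ν a ≤ x) (h2 : ν b ≤ y) : ν (a * b) ≤ x * y :=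
  (h.mul a b).trans (mul_le_mul h1 h2 (h.nonneg _) ((h.nonneg _).trans h1))

lemma SN.add_le (h : SN ν) {a b : R} {x y : ℝ} (h1 : ν a ≤ x) (h2 : ν b ≤ y) : ν (a + b) ≤ x + y :=
  (h.add a b).trans (add_le_add h1 h2)

lemma SN.pow_le (h : SN ν) {a : R} {x : ℝ} (h1 : ν a ≤ x) (n : ℕ) : ν (a ^ n) ≤ x ^ n := by
  induction n with
  | zero => simpa using h.one
  | succ n ih => rw [pow_succ, pow_succ]; exact h.mul_le ih h1

/-- Finite sums of the seminorms of the coefficients. -/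
noncomputable def ps (ν : R → ℝ) (m : ℕ) (p : R[X]) : ℝ := ∑ i ∈ range m, ν (p.coeff i)

lemma SN.ps_monomial (h : SN ν) (m j : ℕ) (a : R) : ps ν m (monomial j a) ≤ ν a := by
  have : ∀ i ∈ range m, ν ((monomial j a).coeff i) ≤ if j = i then ν a else 0 := fun i _ => by
    rw [coeff_monomial]
    split_ifs
    exacts [le_rfl, h.zero]
  refine (sum_le_sum this).trans ?_
  rw [sum_ite_eq]
  split_ifs
  exacts [le_rfl, h.nonneg a]

lemma SN.ps (h : SN ν) (m : ℕ) : SN (ps ν m) where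
  zero := sum_nonpos fun _ _ => by simpa using h.zero
  one := (h.ps_monomial m 0 1).trans h.one
  nonneg _ := sum_nonneg fun _ _ => h.nonneg _
  add a b := by
    simp only [PM.ps, ← sum_add_distrib, coeff_add]
    exact sum_le_sum fun _ _ => h.add _ _
  mul a b := by
    refine le_trans (sum_le_sum fun n _ => ?_)
      (sum_anti_le _ _ (fun n => h.nonneg (a.coeff n)) fun n => h.nonneg (b.coeff n))
    rw [coeff_mul]
    exact (h.sum _ _).trans (sum_le_sum fun _ _ => h.mul _ _)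
  neg a := sum_le_sum fun _ _ => by rw [coeff_neg]; exact h.neg _

lemma SN.ps_le (h : SN ν) {p : R[X]} {d : ℕ} (hd : p.natDegree ≤ d) (m : ℕ) :
    PM.ps ν m p ≤ PM.ps ν (d + 1) p := by
  rcases le_total m (d + 1) with hm | hm
  · exact sum_le_sum_of_subset_of_nonneg (range_mono hm) fun _ _ _ => h.nonneg _
  · unfold PM.ps
    rw [← sum_range_add_sum_Ico _ hm]
    refine add_le_of_nonpos_right (sum_nonpos fun i hi => ?_)
    rw [coeff_eq_zero_of_natDegree_lt (by have := (mem_Ico.1 hi).1; omega)]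
    exact h.zero

lemma SN.eval_le {A : Type} [CommRing A] {μ : A → ℝ} (h : SN μ) (φ : R →+* A) {ξ : A} {s : ℝ}
    (hξ : μ ξ ≤ s) (hs : 1 ≤ s) {p : R[X]} {d : ℕ} (hd : p.natDegree ≤ d)
    (hφ : ∀ i, μ (φ (p.coeff i)) ≤ ν (p.coeff i)) :
    μ (p.eval₂ φ ξ) ≤ PM.ps ν (d + 1) p * s ^ d := by
  rw [eval₂_eq_sum_range' φ (Nat.lt_succ_of_le hd), PM.ps, sum_mul]
  refine (h.sum _ _).trans (sum_le_sum fun i hi => (h.mul_le (hφ i) (h.pow_le hξ i)).trans ?_)
  exact mul_le_mul_of_nonneg_left (pow_le_pow_right₀ hs (Nat.lt_succ_iff.1 (mem_range.1 hi)))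
    ((h.nonneg _).trans (hφ i))

end

/-- The absolute value of an integer. -/
def za (z : ℤ) : ℝ := |(z : ℝ)|

lemma sn_za : SN za where
  zero := by simp [za]
  one := by simp [za]
  nonneg _ := abs_nonneg _
  add a b := by simpa [za] using abs_add_le (a : ℝ) b
  mul a b := by simp [za, abs_mul]
  neg a := by simp [za]

/-- The norm of a polynomial in two variables. -/
noncomputable def NN (m : ℕ) : ℤ[X][X] → ℝ := ps (ps za m) m

lemma sn_NN (m : ℕ) : SN (NN m) := (sn_za.ps m).ps m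

/-- Evaluation of a polynomial in two variables. -/
noncomputable def sem {A : Type} [CommRing A] (η ξ : A) : ℤ[X][X] →+* A :=
  eval₂RingHom (eval₂RingHom (Int.castRingHom A) η) ξ

/-- Forces the evaluation of a natural number. -/
def frc {α : Type} (n : ℕ) (f : ℕ → α) : α :=
  match n with
  | 0 => f 0
  | k + 1 => f (k + 1)

/-- Forces the evaluation of an integer. -/
def frz {α : Type} (z : ℤ) (f : ℤ → α) : α :=
  match z with
  | .ofNat n => frc n fun n => f (.ofNat n)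
  | .negSucc n => frc n fun n => f (.negSucc n)

@[simp] lemma frc_eq {α : Type} (n : ℕ) (f : ℕ → α) : frc n f = f n := by cases n <;> rfl

@[simp] lemma frz_eq {α : Type} (z : ℤ) (f : ℤ → α) : frz z f = f z := by
  cases z <;> simp [frz]

/-- Sum of `φ` over the balanced digits in base `2 ^ (w + 1)`. -/
def dfold (φ : ℤ → ℕ) (w : ℕ) : ℕ → ℤ → ℕ → ℕ
  | 0, _, acc => acc
  | k + 1, z, acc => frz ((z + (2 ^ w : ℕ)) >>> (w + 1)) fun y =>
      frc (acc + φ (z - y <<< (w + 1))) fun a => dfold φ w k y a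

lemma dfold_eq (φ : ℤ → ℕ) (w k : ℕ) : ∀ (q : ℤ[X]) (acc : ℕ), (∀ i, |q.coeff i| < 2 ^ w) →
    dfold φ w k (q.eval (2 ^ (w + 1))) acc = acc + ∑ i ∈ range k, φ (q.coeff i) := by
  induction k with
  | zero => intro q acc _; simp [dfold]
  | succ k ih =>
    intro q acc h
    have e : q.eval (2 ^ (w + 1)) = q.coeff 0 + q.divX.eval (2 ^ (w + 1)) * 2 ^ (w + 1) := by
      conv_lhs => rw [← q.divX_mul_X_add]
      simp [add_comm]
    have h0 := abs_lt.1 (h 0)
    have e2 : (q.eval (2 ^ (w + 1)) + (2 ^ w : ℕ)) >>> (w + 1) = q.divX.eval (2 ^ (w + 1)) := by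
      rw [Int.shiftRight_eq_div_pow, e]
      push_cast
      rw [add_right_comm, Int.add_mul_ediv_right _ _ (by positivity),
        Int.ediv_eq_zero_of_lt (by linarith) (by rw [pow_succ]; linarith), zero_add]
    rw [dfold, frz_eq, frc_eq, e2, ih _ _ fun i => by rw [coeff_divX]; exact h _, Int.shiftLeft_eq,
      e, add_sub_cancel_right, sum_range_succ']
    simp only [coeff_divX]
    ring

/-- A packed polynomial: packed value, norm bound, two degree bounds, denominator. -/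
structure CP where
  z : ℤ
  n : ℕ
  dx : ℕ
  de : ℕ
  den : ℕ

namespace CP

def frc (a : CP) : CP := frz a.z fun z => PM.frc a.n fun n => PM.frc a.dx fun dx =>
  PM.frc a.de fun de => PM.frc a.den fun den => ⟨z, n, dx, de, den⟩
def mul (a b : CP) : CP := frc ⟨a.z * b.z, a.n * b.n, a.dx + b.dx, a.de + b.de, a.den * b.den⟩
def neg (a : CP) : CP := ⟨-a.z, a.n, a.dx, a.de, a.den⟩
def sm (k : ℕ) (a : CP) : CP := ⟨k * a.z, k * a.n, a.dx, a.de, k * a.den⟩
def add0 (a b : CP) : CP := frc ⟨a.z + b.z, a.n + b.n, max a.dx b.dx, max a.de b.de, a.den⟩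
def add (a b : CP) : CP :=
  if a.den = b.den then add0 a b else if a.n = 0 then b else if b.n = 0 then a
  else add0 (sm (b.den / a.den.gcd b.den) a) (sm (a.den / a.den.gcd b.den) b)
def rat (q : ℚ) : CP := ⟨q.num, q.num.natAbs, 0, 0, q.den⟩
def int (k : ℤ) : CP := ⟨k, k.natAbs, 0, 0, 1⟩
def vx (w2 : ℕ) : CP := ⟨(2 ^ (w2 + 1) : ℕ), 1, 1, 0, 1⟩
def ve (w1 : ℕ) : CP := ⟨(2 ^ (w1 + 1) : ℕ), 1, 0, 1, 1⟩

/-- The exact norm of the numerator. -/
def nrm (w1 w2 : ℕ) (c : CP) : ℕ :=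
  if c.n < 2 ^ w1 ∧ c.n * (2 ^ (w1 + 1)) ^ c.de < 2 ^ w2 then
    dfold (fun r => dfold Int.natAbs w1 (c.de + 1) r 0) w2 (c.dx + 1) c.z 0
  else c.n

@[simp] lemma frc_eq (a : CP) : a.frc = a := by simp [frc]

/-- Forces the evaluation and passes the value on. -/
def k1 {α : Type} (a : CP) (f : CP → α) : α :=
  match a with
  | ⟨z, n, dx, de, den⟩ => frz z fun z => PM.frc n fun n => PM.frc dx fun dx =>
      PM.frc de fun de => PM.frc den fun den => f ⟨z, n, dx, de, den⟩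

@[simp] lemma k1_eq {α : Type} (a : CP) (f : CP → α) : k1 a f = f a := by simp [k1]

def k2 {α : Type} (a : CP × CP) (f : CP → CP → α) : α :=
  match a with
  | (p, q) => k1 p fun p => k1 q fun q => f p q

@[simp] lemma k2_eq {α : Type} (a : CP × CP) (f : CP → CP → α) : k2 a f = f a.1 a.2 := by
  simp [k2]

end CP

/-- The integer part of the representation. -/
structure Rp (w1 w2 : ℕ) (c : CP) (p : ℤ[X][X]) : Prop where
  z : c.z = sem (2 ^ (w1 + 1)) (2 ^ (w2 + 1)) p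
  n : ∀ m, NN m p ≤ c.n
  dx : p.natDegree ≤ c.dx
  de : ∀ i, (p.coeff i).natDegree ≤ c.de
  den : 0 < c.den

section
variable {w1 w2 : ℕ} {a b : CP} {p q : ℤ[X][X]}

lemma Rp.mul (h1 : Rp w1 w2 a p) (h2 : Rp w1 w2 b q) : Rp w1 w2 (a.mul b) (p * q) := by
  rw [CP.mul, CP.frc_eq]
  refine ⟨by simp [h1.z, h2.z], fun m => ?_, natDegree_mul_le.trans (add_le_add h1.dx h2.dx),
    fun i => ?_, mul_pos h1.den h2.den⟩
  · simpa using (sn_NN m).mul_le (h1.n m) (h2.n m)
  · rw [coeff_mul]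
    exact natDegree_sum_le_of_forall_le _ _ fun _ _ =>
      natDegree_mul_le.trans (add_le_add (h1.de _) (h2.de _))

lemma Rp.neg (h1 : Rp w1 w2 a p) : Rp w1 w2 a.neg (-p) :=
  ⟨by simp [CP.neg, h1.z], fun m => ((sn_NN m).neg p).trans (h1.n m), by simpa [CP.neg] using h1.dx,
    fun i => by simpa [CP.neg] using h1.de i, h1.den⟩

lemma Rp.add0 (h1 : Rp w1 w2 a p) (h2 : Rp w1 w2 b q) : Rp w1 w2 (a.add0 b) (p + q) := by
  rw [CP.add0, CP.frc_eq]
  refine ⟨by simp [h1.z, h2.z], fun m => ?_, (natDegree_add_le _ _).trans (max_le_max h1.dx h2.dx),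
    fun i => ?_, h1.den⟩
  · simpa using (sn_NN m).add_le (h1.n m) (h2.n m)
  · rw [coeff_add]
    exact (natDegree_add_le _ _).trans (max_le_max (h1.de _) (h2.de _))

lemma rp_mono (i j : ℕ) (k : ℤ) {d : ℕ} (hd : 0 < d) :
    Rp w1 w2 ⟨k * (2 ^ (w1 + 1)) ^ j * (2 ^ (w2 + 1)) ^ i, k.natAbs, i, j, d⟩
      (monomial i (monomial j k)) := by
  refine ⟨by simp [sem], fun m => ?_, natDegree_monomial_le _, fun l => ?_, hd⟩
  · refine ((sn_za.ps m).ps_monomial m i _).trans ((sn_za.ps_monomial m j k).trans ?_)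
    simp [za]
  · rw [coeff_monomial]
    split_ifs
    · exact natDegree_monomial_le _
    · simp

lemma rp_int (k : ℤ) {d : ℕ} (hd : 0 < d) : Rp w1 w2 ⟨k, k.natAbs, 0, 0, d⟩ k := by
  simpa using rp_mono (w1 := w1) (w2 := w2) 0 0 k hd

lemma Rp.sm (h1 : Rp w1 w2 a p) {k : ℕ} (hk : 0 < k) : Rp w1 w2 (a.sm k) (k * p) := by
  simpa [CP.mul, CP.sm] using (rp_int (k : ℤ) hk).mul h1

lemma Rp.nrm (h : Rp w1 w2 a p) (m : ℕ) : NN m p ≤ a.nrm w1 w2 := by
  unfold CP.nrm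
  split_ifs with hc
  swap
  · exact h.n m
  have a1 : ∀ i m, ps za m (p.coeff i) ≤ a.n := fun i m =>
    le_trans (sum_le_sum_of_subset_of_nonneg (range_mono (le_max_left m (i + 1)))
      fun _ _ _ => sn_za.nonneg _) ((single_le_sum (f := fun l => ps za (max m (i + 1)) (p.coeff l))
        (fun _ _ => (sn_za.ps _).nonneg _) (mem_range.2 (by omega))).trans (h.n _))
  have a2 : ∀ i j, |(p.coeff i).coeff j| < 2 ^ w1 := fun i j => by
    have b1 := (single_le_sum (f := fun l => za ((p.coeff i).coeff l)) (fun _ _ => sn_za.nonneg _)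
      (self_mem_range_succ j)).trans (a1 i (j + 1))
    have b2 : (a.n : ℝ) < 2 ^ w1 := by exact_mod_cast hc.1
    have b3 := b1.trans_lt b2
    unfold za at b3
    exact_mod_cast b3
  have e0 : Int.castRingHom ℤ = RingHom.id ℤ := Subsingleton.elim _ _
  have a3 : ∀ i, |(p.coeff i).eval (2 ^ (w1 + 1))| < 2 ^ w2 := fun i => by
    have b1 := sn_za.eval_le (ν := za) (RingHom.id ℤ) (ξ := 2 ^ (w1 + 1)) (s := 2 ^ (w1 + 1))
      (by simp [za]) (one_le_pow₀ one_le_two) (h.de i) fun _ => le_rfl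
    have b2 : (a.n : ℝ) * (2 ^ (w1 + 1)) ^ a.de < 2 ^ w2 := by exact_mod_cast hc.2
    have b3 := (b1.trans (mul_le_mul_of_nonneg_right (a1 i _) (by positivity))).trans_lt b2
    rw [eval₂_id, za] at b3
    exact_mod_cast b3
  have e1 : a.z = (p.map (evalRingHom (2 ^ (w1 + 1)))).eval (2 ^ (w2 + 1)) := by
    rw [h.z, sem, e0, coe_eval₂RingHom, eval₂_eq_eval_map]
    rfl
  rw [e1, dfold_eq _ _ _ _ _ fun i => by rw [coeff_map]; exact a3 i]
  simp only [coeff_map, coe_evalRingHom, dfold_eq _ _ _ _ _ (a2 _), zero_add]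
  refine ((sn_za.ps m).ps_le h.dx m).trans ?_
  push_cast
  refine sum_le_sum fun i _ => (sn_za.ps_le (h.de i) m).trans (le_of_eq ?_)
  simp [ps, za]

end

/-- A real algebra with a seminorm and two elements of norm at most one. -/
structure Cx (A : Type) [CommRing A] [Algebra ℝ A] where
  ν : A → ℝ
  η : A
  ξ : A
  sn : SN ν
  alg : ∀ r : ℝ, ν (algebraMap ℝ A r) ≤ |r|
  hη : ν η ≤ 1
  hξ : ν ξ ≤ 1

variable {A : Type} [CommRing A] [Algebra ℝ A]

/-- The packed polynomial `c` has the value `x`. -/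
def Is (w1 w2 : ℕ) (η ξ : A) (c : CP) (x : A) : Prop :=
  ∃ p, Rp w1 w2 c p ∧ (c.den : A) * x = sem η ξ p

section
variable {w1 w2 : ℕ} {η ξ x y : A} {a b : CP}

omit [Algebra ℝ A] in
lemma Is.mul (h1 : Is w1 w2 η ξ a x) (h2 : Is w1 w2 η ξ b y) : Is w1 w2 η ξ (a.mul b) (x * y) := by
  obtain ⟨p, h1, e1⟩ := h1
  obtain ⟨q, h2, e2⟩ := h2
  refine ⟨_, h1.mul h2, ?_⟩
  rw [map_mul, ← e1, ← e2, CP.mul, CP.frc_eq]
  push_cast
  ring

omit [Algebra ℝ A] in
lemma Is.neg (h1 : Is w1 w2 η ξ a x) : Is w1 w2 η ξ a.neg (-x) := by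
  obtain ⟨p, h1, e1⟩ := h1
  exact ⟨_, h1.neg, by rw [map_neg, ← e1, mul_neg]; rfl⟩

lemma Is.zero (h : Is w1 w2 η ξ a x) (h0 : a.n = 0) : x = 0 := by
  obtain ⟨p, h, e⟩ := h
  have hp : p = 0 := by
    ext i j
    have b1 := (single_le_sum (f := fun l => za ((p.coeff i).coeff l)) (fun _ _ => sn_za.nonneg _)
      (mem_range.2 (by omega : j < i + j + 1))).trans ((single_le_sum
        (f := fun l => ps za (i + j + 1) (p.coeff l)) (fun _ _ => (sn_za.ps _).nonneg _)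
          (mem_range.2 (by omega : i < i + j + 1))).trans (h.n _))
    simpa [za, h0] using b1
  have hd : (a.den : ℝ) ≠ 0 := by exact_mod_cast h.den.ne'
  rw [hp, map_zero, ← map_natCast (algebraMap ℝ A)] at e
  rw [← one_mul x, ← map_one (algebraMap ℝ A), ← inv_mul_cancel₀ hd, map_mul, mul_assoc, e, mul_zero]

lemma Is.add (h1 : Is w1 w2 η ξ a x) (h2 : Is w1 w2 η ξ b y) : Is w1 w2 η ξ (a.add b) (x + y) := by
  unfold CP.add
  split_ifs with h k1 k2
  any_goals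
    first
    | rwa [h1.zero k1, zero_add]
    | rwa [h2.zero k2, add_zero]
    | obtain ⟨p, h1, e1⟩ := h1
      obtain ⟨q, h2, e2⟩ := h2
  · refine ⟨_, h1.add0 h2, ?_⟩
    rw [map_add, ← e1, ← e2, ← h, CP.add0, CP.frc_eq, mul_add]
  · have g0 := Nat.gcd_pos_of_pos_left b.den h1.den
    have g1 := Nat.gcd_dvd_left a.den b.den
    have g2 := Nat.gcd_dvd_right a.den b.den
    refine ⟨_, (h1.sm (Nat.div_pos (Nat.le_of_dvd h2.den g2) g0)).add0
      (h2.sm (Nat.div_pos (Nat.le_of_dvd h1.den g1) g0)), ?_⟩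
    have e : b.den / a.den.gcd b.den * a.den = a.den / a.den.gcd b.den * b.den := by
      rw [← Nat.mul_div_right_comm g2, ← Nat.mul_div_right_comm g1, mul_comm]
    have e' := congrArg (Nat.cast : ℕ → A) e
    rw [map_add, map_mul, map_mul, map_natCast, map_natCast, ← e1, ← e2, CP.add0, CP.frc_eq]
    simp only [CP.sm, Nat.cast_mul] at e' ⊢
    linear_combination y * e'

lemma is_rat (q : ℚ) : Is w1 w2 η ξ (CP.rat q) (algebraMap ℝ A q) := by
  refine ⟨_, rp_int q.num q.den_pos, ?_⟩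
  have : (q.den : ℝ) * q = q.num := by exact_mod_cast q.den_mul_eq_num
  rw [map_intCast, ← map_intCast (algebraMap ℝ A), ← this, map_mul, map_natCast]
  rfl

omit [Algebra ℝ A] in
lemma is_int (k : ℤ) : Is w1 w2 η ξ (CP.int k) k :=
  ⟨_, rp_int k one_pos, by simp [CP.int]⟩

omit [Algebra ℝ A] in
lemma is_vx : Is w1 w2 η ξ (CP.vx w2) ξ :=
  ⟨_, by simpa [CP.vx] using rp_mono (w1 := w1) (w2 := w2) 1 0 1 one_pos, by simp [CP.vx, sem]⟩

omit [Algebra ℝ A] in
lemma is_ve : Is w1 w2 η ξ (CP.ve w1) η :=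
  ⟨_, by simpa [CP.ve] using rp_mono (w1 := w1) (w2 := w2) 0 1 1 one_pos, by simp [CP.ve, sem]⟩

end

/-- The scale of the radii. -/
def SC : ℕ := 2 ^ 400

lemma SC_pos : (0 : ℝ) < SC := by unfold SC; positivity

lemma Cx.int (K : Cx A) (k : ℤ) : K.ν k ≤ za k := by simpa [za] using K.alg k

lemma Cx.le_of (K : Cx A) {w1 w2 n : ℕ} {c : CP} {p : ℤ[X][X]} {x : A} (h : Rp w1 w2 c p)
    (e : (c.den : A) * x = sem K.η K.ξ p) (hn : ∀ m, NN m p ≤ n) :
    K.ν x ≤ (n * SC / c.den + 1 : ℕ) / SC := by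
  have hd : (0 : ℝ) < c.den := by exact_mod_cast h.den
  have a1 := K.sn.eval_le (ν := ps za (max c.dx c.de + 1)) (eval₂RingHom (Int.castRingHom A) K.η)
    K.hξ le_rfl (h.dx.trans (le_max_left _ c.de)) fun i => by
      simpa using K.sn.eval_le (ν := za) (Int.castRingHom A) K.hη le_rfl
        ((h.de i).trans (le_max_right c.dx _)) fun j => K.int _
  rw [one_pow, mul_one] at a1
  have a2 : K.ν (sem K.η K.ξ p) ≤ n := a1.trans (hn _)
  have a3 : x = algebraMap ℝ A (c.den : ℝ)⁻¹ * sem K.η K.ξ p := by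
    rw [← e, ← mul_assoc, ← map_natCast (algebraMap ℝ A), ← map_mul, inv_mul_cancel₀ hd.ne',
      map_one, one_mul]
  rw [a3]
  refine (K.sn.mul_le (K.alg _) a2).trans ?_
  have a4 : ((n * SC : ℕ) : ℝ) < ((n * SC / c.den + 1 : ℕ) : ℝ) * c.den := by
    exact_mod_cast (Nat.div_lt_iff_lt_mul h.den).1 (Nat.lt_succ_self _)
  rw [abs_of_pos (inv_pos.2 hd), le_div_iff₀ SC_pos, mul_assoc, inv_mul_le_iff₀ hd]
  push_cast at a4 ⊢
  linarith

/-- Balls: centre and radius. -/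
abbrev BL := CP × ℕ

def CP.bd (c : CP) : ℕ := c.n * SC / c.den + 1

/-- Forces the evaluation of a ball. -/
def BL.k {α : Type} (b : BL) (f : BL → α) : α :=
  match b with
  | (c, r) => CP.k1 c fun c => frc r fun r => f (c, r)

@[simp] lemma BL.k_eq {α : Type} (b : BL) (f : BL → α) : b.k f = f b := by simp [BL.k]

def BL.k2 {α : Type} (b : BL × BL) (f : BL → BL → α) : α :=
  match b with
  | (p, q) => p.k fun p => q.k fun q => f p q

@[simp] lemma BL.k2_eq {α : Type} (b : BL × BL) (f : BL → BL → α) : BL.k2 b f = f b.1 b.2 := by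
  simp [BL.k2]

def BL.up (w1 w2 : ℕ) (b : BL) : ℕ := b.k fun b => b.1.nrm w1 w2 * SC / b.1.den + 1 + b.2
def BL.add (a b : BL) : BL := a.k fun a => b.k fun b => (a.1.add b.1, a.2 + b.2)
def BL.neg (a : BL) : BL := a.k fun a => (a.1.neg, a.2)
def BL.mul (a b : BL) : BL := a.k fun a => b.k fun b =>
  (a.1.mul b.1, (a.1.bd * b.2 + b.1.bd * a.2 + a.2 * b.2) / SC + 1)

/-- The element `x` lies in the ball `b`. -/
def Cx.In (K : Cx A) (w1 w2 : ℕ) (b : BL) (x : A) : Prop :=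
  ∃ x0, Is w1 w2 K.η K.ξ b.1 x0 ∧ K.ν (x - x0) ≤ b.2 / SC

section
variable {K : Cx A} {w1 w2 : ℕ} {a b : BL} {x y : A}

lemma Is.bd {c : CP} (h : Is w1 w2 K.η K.ξ c x) : K.ν x ≤ c.bd / SC := by
  obtain ⟨p, h, e⟩ := h
  exact K.le_of h e h.n

lemma Is.in {c : CP} (h : Is w1 w2 K.η K.ξ c x) : K.In w1 w2 (c, 0) x :=
  ⟨x, h, by simpa using K.sn.zero⟩

lemma Cx.In.up (h : K.In w1 w2 b x) : K.ν x ≤ b.up w1 w2 / SC := by
  obtain ⟨x0, ⟨p, h, e⟩, h2⟩ := h
  have := K.sn.add_le (K.le_of h e h.nrm) h2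
  rw [BL.up, BL.k_eq]
  rwa [add_sub_cancel, ← add_div, ← Nat.cast_add] at this

lemma Cx.In.add (h1 : K.In w1 w2 a x) (h2 : K.In w1 w2 b y) : K.In w1 w2 (a.add b) (x + y) := by
  obtain ⟨x0, h1, e1⟩ := h1
  obtain ⟨y0, h2, e2⟩ := h2
  rw [BL.add, BL.k_eq, BL.k_eq]
  refine ⟨_, h1.add h2, ?_⟩
  have := K.sn.add_le e1 e2
  rwa [← add_div, ← Nat.cast_add, show x - x0 + (y - y0) = x + y - (x0 + y0) by ring] at this

lemma Cx.In.neg (h1 : K.In w1 w2 a x) : K.In w1 w2 a.neg (-x) := by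
  obtain ⟨x0, h1, e1⟩ := h1
  rw [BL.neg, BL.k_eq]
  exact ⟨_, h1.neg, by rw [show -x - -x0 = -(x - x0) by ring]; exact (K.sn.neg _).trans e1⟩

lemma Cx.In.mul (h1 : K.In w1 w2 a x) (h2 : K.In w1 w2 b y) : K.In w1 w2 (a.mul b) (x * y) := by
  obtain ⟨x0, h1, e1⟩ := h1
  obtain ⟨y0, h2, e2⟩ := h2
  rw [BL.mul, BL.k_eq, BL.k_eq]
  refine ⟨_, h1.mul h2, ?_⟩
  have a1 := K.sn.add_le (K.sn.add_le (K.sn.mul_le h1.bd e2) (K.sn.mul_le h2.bd e1))
    (K.sn.mul_le e1 e2)
  rw [show x0 * (y - y0) + y0 * (x - x0) + (x - x0) * (y - y0) = x * y - x0 * y0 by ring] at a1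
  refine a1.trans ?_
  set k := a.1.bd * b.2 + b.1.bd * a.2 + a.2 * b.2 with hk
  have a4 : (k : ℝ) < ((k / SC + 1 : ℕ) : ℝ) * SC := by
    exact_mod_cast (Nat.div_lt_iff_lt_mul (by exact_mod_cast SC_pos)).1 (Nat.lt_succ_self _)
  have hs := SC_pos
  rw [le_div_iff₀ hs]
  refine le_trans (le_of_eq ?_) ((div_le_iff₀ hs).2 a4.le)
  rw [hk]
  push_cast
  field_simp

end

/-- Evaluation of an expression on balls. -/
def exB (env : List BL) : Ex → BL
  | .var i => env.getD i (CP.int 0, 0)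
  | .int n => (CP.int n, 0)
  | .add a b => (exB env a).add (exB env b)
  | .mul a b => (exB env a).mul (exB env b)
  | .neg a => (exB env a).neg

/-- Evaluation of an expression and of its divided difference on balls. -/
def exD (env : List (BL × BL)) : Ex → BL × BL
  | .var i => env.getD i ((CP.int 0, 0), (CP.int 0, 0))
  | .int n => ((CP.int n, 0), (CP.int 0, 0))
  | .add a b => BL.k2 (exD env a) fun a a' => BL.k2 (exD env b) fun b b' => (a.add b, a'.add b')
  | .mul a b => BL.k2 (exD env a) fun a a' => BL.k2 (exD env b) fun b b' =>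
      (a.mul b, (a'.mul b).add (a.mul b'))
  | .neg a => BL.k2 (exD env a) fun a a' => (a.neg, a'.neg)

section
variable {K : Cx A} {w1 w2 : ℕ}

lemma in_zero : K.In w1 w2 (CP.int 0, 0) 0 := by simpa using (is_int (η := K.η) (ξ := K.ξ) 0).in

lemma exB_in {env : List BL} {x : List A} (h : List.Forall₂ (K.In w1 w2) env x) (e : Ex) :
    K.In w1 w2 (exB env e) (e.ev x) := by
  induction e with
  | var i => exact forall₂_getD in_zero h i
  | int n => exact (is_int n).in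
  | add a b ha hb => exact ha.add hb
  | mul a b ha hb => exact ha.mul hb
  | neg a ha => exact ha.neg

/-- Two values in a ball and their divided difference in another ball. -/
def Cx.Du (K : Cx A) (w1 w2 : ℕ) (Δ : A) (b : BL × BL) (x : A × A) : Prop :=
  K.In w1 w2 b.1 x.1 ∧ K.In w1 w2 b.1 x.2 ∧ ∃ d, x.2 - x.1 = d * Δ ∧ K.In w1 w2 b.2 d

lemma du_const {Δ x : A} {b : BL} (h : K.In w1 w2 b x) : K.Du w1 w2 Δ (b, CP.int 0, 0) (x, x) :=
  ⟨h, h, 0, by simp, in_zero⟩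

lemma exD_in {Δ : A} {env : List (BL × BL)} {x : List (A × A)}
    (h : List.Forall₂ (K.Du w1 w2 Δ) env x) (e : Ex) : K.Du w1 w2 Δ (exD env e) (e.ev x) := by
  induction e with
  | var i => exact forall₂_getD (du_const in_zero) h i
  | int n => exact du_const (is_int n).in
  | add a b ha hb =>
    obtain ⟨a1, a2, d, a3, a4⟩ := ha
    obtain ⟨b1, b2, d', b3, b4⟩ := hb
    rw [exD, BL.k2_eq, BL.k2_eq]
    exact ⟨a1.add b1, a2.add b2, _, by
      simp only [Ex.ev, Prod.snd_add, Prod.fst_add]; linear_combination a3 + b3, a4.add b4⟩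
  | mul a b ha hb =>
    obtain ⟨a1, a2, d, a3, a4⟩ := ha
    obtain ⟨b1, b2, d', b3, b4⟩ := hb
    rw [exD, BL.k2_eq, BL.k2_eq]
    exact ⟨a1.mul b1, a2.mul b2, _, by
      simp only [Ex.ev, Prod.snd_mul, Prod.fst_mul]
      linear_combination (b.ev x).2 * a3 + (a.ev x).1 * b3, (a4.mul b2).add (a1.mul b4)⟩
  | neg a ha =>
    obtain ⟨a1, a2, d, a3, a4⟩ := ha
    rw [exD, BL.k2_eq]
    exact ⟨a1.neg, a2.neg, _, by
      simp only [Ex.ev, Prod.snd_neg, Prod.fst_neg]; linear_combination -a3, a4.neg⟩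

lemma exD_out {Δ : A} {env : List (BL × BL)} {x : List (A × A)}
    (h : List.Forall₂ (K.Du w1 w2 Δ) env x) (e : Ex) : ∃ d,
      e.ev (x.map Prod.snd) - e.ev (x.map Prod.fst) = d * Δ ∧ K.In w1 w2 (exD env e).2 d := by
  obtain ⟨-, -, d, h1, h2⟩ := exD_in h e
  exact ⟨d, (congrArg₂ (· - ·) (e.map (RingHom.snd A A) x).symm
    (e.map (RingHom.fst A A) x).symm).trans h1, h2⟩

end

/-! Polynomials given by lists. -/

/-- A row: polynomial in the parameter. -/
def rowC (e : CP) : List ℤ → CP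
  | [] => CP.int 0
  | [c] => CP.int c
  | c :: d :: l => (CP.int c).add0 (e.mul (rowC e (d :: l)))

/-- A polynomial and its derivative. -/
def polC (e x : CP) : List (List ℤ) → CP × CP
  | [] => (CP.int 0, CP.int 0)
  | r :: L => CP.k2 (polC e x L) fun p q => ((rowC e r).add (x.mul p), p.add (x.mul q))

def rowV {R : Type} [CommRing R] (e : R) : List ℤ → R
  | [] => 0
  | c :: l => c + e * rowV e l

def polV {R : Type} [CommRing R] (e x : R) : List (List ℤ) → R × R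
  | [] => (0, 0)
  | r :: L => (rowV e r + x * (polV e x L).1, (polV e x L).1 + x * (polV e x L).2)

section
variable {w1 w2 : ℕ} {η ξ : A}

lemma is_row (l : List ℤ) : Is w1 w2 η ξ (rowC (CP.ve w1) l) (rowV η l) := by
  have key : Is w1 w2 η ξ (rowC (CP.ve w1) l) (rowV η l) ∧ (rowC (CP.ve w1) l).den = 1 := by
    induction l with
    | nil => exact ⟨by simpa [rowC, rowV] using is_int (η := η) (ξ := ξ) 0, rfl⟩
    | cons c l ih =>
      cases l with
      | nil => exact ⟨by simpa [rowC, rowV] using is_int (η := η) (ξ := ξ) c, rfl⟩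
      | cons d l =>
        have h := (is_int c).add (is_ve.mul ih.1)
        have e : (CP.int c).den = ((CP.ve w1).mul (rowC (CP.ve w1) (d :: l))).den := by
          rw [CP.mul, CP.frc_eq, ih.2]
          rfl
        rw [CP.add, if_pos e] at h
        exact ⟨h, by simp [rowC, CP.add0, CP.int]⟩
  exact key.1

lemma is_pol {c : CP} {x : A} (h : Is w1 w2 η ξ c x) (L : List (List ℤ)) :
    Is w1 w2 η ξ (polC (CP.ve w1) c L).1 (polV η x L).1 ∧
      Is w1 w2 η ξ (polC (CP.ve w1) c L).2 (polV η x L).2 := by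
  induction L with
  | nil => exact ⟨by simpa [polC, polV] using is_int 0, by simpa [polC, polV] using is_int 0⟩
  | cons r L ih =>
    rw [polC, CP.k2_eq]
    exact ⟨(is_row r).add (h.mul ih.1), ih.1.add (h.mul ih.2)⟩

end

/-- Division by a power of two. -/
def CP.dv (k : ℕ) (c : CP) : CP := ⟨c.z, c.n, c.dx, c.de, 2 ^ k * c.den⟩

/-- The inverse of a power of two. -/
noncomputable def i2 (A : Type) [CommRing A] [Algebra ℝ A] (k : ℕ) : A :=
  algebraMap ℝ A (2 ^ k)⁻¹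

lemma Is.dv {w1 w2 : ℕ} {η ξ x : A} {c : CP} (h : Is w1 w2 η ξ c x) (k : ℕ) :
    Is w1 w2 η ξ (c.dv k) (i2 A k * x) := by
  obtain ⟨p, h, e⟩ := h
  refine ⟨p, ⟨h.z, h.n, h.dx, h.de, mul_pos (by positivity) h.den⟩, ?_⟩
  have : (2 : A) ^ k * i2 A k = 1 := by
    rw [i2, ← map_ofNat (algebraMap ℝ A), ← map_pow, ← map_mul, mul_inv_cancel₀ (by positivity),
      map_one]
  rw [← e, CP.dv]
  push_cast
  linear_combination (c.den * x) * this

/-- The ball around zero that contains a given ball. -/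
def BL.tight (w1 w2 : ℕ) (b : BL) : BL := (CP.int 0, b.up w1 w2)

lemma Cx.in_zero (K : Cx A) {w1 w2 n : ℕ} {x : A} (h : K.ν x ≤ n / SC) :
    K.In w1 w2 (CP.int 0, n) x :=
  ⟨0, by simpa using is_int (η := K.η) (ξ := K.ξ) 0, by simpa using h⟩

lemma Cx.In.tight {K : Cx A} {w1 w2 : ℕ} {b : BL} {x : A} (h : K.In w1 w2 b x) :
    K.In w1 w2 (b.tight w1 w2) x := K.in_zero h.up

/-- The real numbers with two points of the unit interval. -/
noncomputable def cxR {η ξ : ℝ} (h1 : |η| ≤ 1) (h2 : |ξ| ≤ 1) : Cx ℝ where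
  ν := abs
  η := η
  ξ := ξ
  sn := ⟨by simp, by simp, abs_nonneg, abs_add_le, fun a b => (abs_mul a b).le,
    fun a => (abs_neg a).le⟩
  alg r := by simp
  hη := h1
  hξ := h2

/-- Positivity test. -/
def BL.pos (w1 w2 : ℕ) (b : BL) : Bool :=
  frz (b.1.z - (b.1.z + (2 ^ w1 : ℕ)) >>> (w1 + 1) <<< (w1 + 1)) fun c =>
    decide ((b.add (⟨-c, (-c).natAbs, 0, 0, b.1.den⟩, 0)).up w1 w2 * b.1.den < c.toNat * SC)

lemma Cx.In.pos {η ξ x : ℝ} {h1 : |η| ≤ 1} {h2 : |ξ| ≤ 1} {w1 w2 : ℕ} {b : BL}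
    (h : (cxR h1 h2).In w1 w2 b x) (hp : b.pos w1 w2 = true) : 0 < x := by
  rw [BL.pos, frz_eq, decide_eq_true_eq] at hp
  generalize b.1.z - (b.1.z + (2 ^ w1 : ℕ)) >>> (w1 + 1) <<< (w1 + 1) = c at hp
  have hd : 0 < b.1.den := by
    obtain ⟨_, ⟨_, h, -⟩, -⟩ := h
    exact h.den
  have hd' : (0 : ℝ) < b.1.den := by exact_mod_cast hd
  have a1 : Is w1 w2 η ξ ⟨-c, (-c).natAbs, 0, 0, b.1.den⟩ (-c / b.1.den) :=
    ⟨_, rp_int _ hd, by rw [map_intCast]; push_cast; field_simp⟩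
  have a2 : |x + -c / b.1.den| ≤ _ := (h.add (Is.in (K := cxR h1 h2) a1)).up
  have a3 : 0 < c.toNat := Nat.pos_of_mul_pos_right (Nat.zero_lt_of_lt hp)
  have a4 : ((c.toNat : ℤ) : ℝ) = c := by rw [Int.toNat_of_nonneg (by omega)]
  have a5 := (Nat.cast_lt (α := ℝ)).2 hp
  push_cast at a4 a5
  rw [a4, ← div_lt_div_iff₀ SC_pos hd'] at a5
  have := (abs_le.1 a2).1
  rw [neg_div] at this
  linarith

end Pool.Agent.MP_187b32_an.PM
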