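import Pool.Agent.MP_187b32_an.PD.Small.Loc

/-!
Interfaces for imploding profiles with a general pointwise condition `P lam x w a mu`, where
`x = R ^ 2 / ((d + 2) C ^ 2)`, `w = U / R`, `a = U_R` and `mu = 2 (d + 2) C C_z`, `z = R ^ 2`.
-/

set_option autoImplicit false

open Set
open scoped ContDiff

namespace Pool.Agent.MP_187b32_an.PM

open PD

/-- A pointwise condition in the variables `lam x w a mu`. -/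
abbrev Cond := ℝ → ℝ → ℝ → ℝ → ℝ → Prop

/-- The condition of `PD.Rep`. -/
def Crude : Cond := fun lam x w a mu =>
  0 < 1 - x * mu ∧ lam < 1 + a ∧ lam < 1 + w ∧
    4 / 3 * x * mu ^ 2 ≤ (1 + a - lam) ^ 2 ∧ 4 / 3 * x * mu ^ 2 ≤ (1 + w - lam) ^ 2

/-- The condition is monotone in `lam` and follows from `Crude` at supersonic points `x ≥ X`. -/
structure Cond.Ok (P : Cond) (e X : ℝ) : Prop where
  mono : ∀ lam lam' x w a mu, 0 ≤ x → 0 < lam' → lam' ≤ lam → 0 < 1 - x * mu →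
    P lam x w a mu → P lam' x w a mu
  far : ∀ lam, 0 < lam → ∃ lam', 0 < lam' ∧ ∀ x w a mu, X ≤ x → e < x * (1 + w) ^ 2 →
    Crude lam x w a mu → P lam' x w a mu

/-- The inner part of the profile, up to `x = q1 ^ (-2)`, where `W = q1 * y1`. -/
def InnerP (P : Cond) (e r q1 y1 : ℝ) : Prop :=
  ∃ (δ lam : ℝ) (W mu : ℝ → ℝ), 0 < δ ∧ 0 < lam ∧
    ContDiffOn ℝ ∞ W (Ioo (-δ) ((q1 ^ 2)⁻¹ + δ)) ∧ ContDiffOn ℝ ∞ mu (Ioo (-δ) ((q1 ^ 2)⁻¹ + δ)) ∧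
    (∀ x ∈ Ioo (-δ) ((q1 ^ 2)⁻¹ + δ), Eqs e r W mu x) ∧
    (∀ x ∈ Icc (0 : ℝ) (q1 ^ 2)⁻¹, 0 < 1 - x * mu x ∧ P lam x (W x) (AA W mu x) (mu x)) ∧
    W (q1 ^ 2)⁻¹ = q1 * y1

/-- The profile as a function of `x` on the whole half-line. -/
def GlobP (P : Cond) (e r : ℝ) : Prop :=
  ∃ (δ lam : ℝ) (W mu Y M : ℝ → ℝ), 0 < δ ∧ 0 < lam ∧
    ContDiffOn ℝ ∞ W (Ioi (-δ)) ∧ ContDiffOn ℝ ∞ mu (Ioi (-δ)) ∧
    (∀ x, -δ < x → 0 < 1 - x * mu x) ∧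
    (∀ x, 0 ≤ x → Eqs e r W mu x ∧ P lam x (W x) (AA W mu x) (mu x)) ∧
    ContDiffOn ℝ ∞ Y (Ioo (-1 / 10) (1 / 2)) ∧ ContDiffOn ℝ ∞ M (Ioo (-1 / 10) (1 / 2)) ∧
    M 0 = r ∧ (∀ q ∈ Ioo (-1 / 10 : ℝ) (1 / 2), 0 < M q) ∧
    ∀ x, 4 < x → W x = (√x)⁻¹ * Y (√x)⁻¹ ∧ 1 - x * mu x = M (√x)⁻¹

/-- The radial form of the profile in dimension `d`: `U = w (|y| ^ 2) y`; `S z` is the value of
`x` at `z`. -/
def RadP (P : Cond) (d r : ℝ) : Prop :=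
  ∃ (lam c0 δ : ℝ) (w C S : ℝ → ℝ), 0 < lam ∧ 0 < c0 ∧ 0 < δ ∧
    SymZ δ (-r / 2) w ∧ SymZ δ ((1 - r) / 2) C ∧
    (∀ z, 0 ≤ z → (r - 1) * w z + (1 + w z) * (w z + 2 * z * deriv w z)
      + 2 * (d + 2) * C z * deriv C z = 0) ∧
    (∀ z, 0 ≤ z → (r - 1) * C z + 2 * z * (1 + w z) * deriv C z
      + 1 / d * C z * (d * w z + 2 * z * deriv w z) = 0) ∧
    (∀ z, 0 ≤ z → c0 * (1 + z) ^ ((1 - r) / 2) ≤ C z) ∧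
    (∀ g ψ : ℝ → ℝ, ContDiff ℝ ∞ g → ContDiffOn ℝ ∞ ψ (Ioo (-1 / 10) (1 / 2)) →
      (∀ x, 4 < x → g x = (√x)⁻¹ * ψ (√x)⁻¹) → SymZ δ (-r / 2) fun z => g (S z)) ∧
    ∀ z, 0 ≤ z → 0 ≤ S z ∧ (d + 2) * C z ^ 2 * S z = z ∧
      0 < 1 - S z * (2 * (d + 2) * C z * deriv C z) ∧
      HasDerivAt S ((1 - S z * (2 * (d + 2) * C z * deriv C z)) / ((d + 2) * C z ^ 2)) z ∧
      P lam (S z) (w z) (w z + 2 * z * deriv w z) (2 * (d + 2) * C z * deriv C z)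

/-- Gluing. -/
def GlueP : Prop :=
  ∀ (P : Cond) (e r q1 y1 : ℝ), 0 < e → 1 / 2 ≤ q1 → P.Ok e (q1 ^ 2)⁻¹ → InnerP P e r q1 y1 →
    Outer e r q1 y1 → GlobP P e r

/-- Passage to the variable `z`. -/
def QuadP : Prop := ∀ (P : Cond) (d r : ℝ), 0 < d → 1 < r → GlobP P (1 / d) r → RadP P d r

end Pool.Agent.MP_187b32_an.PM
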