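import Pool.Agent.MP_187b32_an.PM.Bnd

/-!
The certified step from one disc to the next one.
-/

set_option autoImplicit false

open PowerSeries Finset
open scoped ContDiff

namespace Pool.Agent.MP_187b32_an.PM

open Prof

/-! Positivity tests on an interval. -/

/-- Rounded balanced digits. -/
def digs (w k den : ℕ) : ℕ → ℤ → List (List ℤ)
  | 0, _ => []
  | n + 1, z => frz ((z + (2 ^ w : ℕ)) >>> (w + 1)) fun y =>
      [(z - y <<< (w + 1)) <<< k / den] :: digs w k den n y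

/-- Truncation and rounding of the centre. -/
def BL.rnd (w k n : ℕ) (b : BL) : BL :=
  b.k fun b => CP.k1 (pC w (CP.vx w) k (digs w k b.1.den n b.1.z)) fun c =>
    (c, (b.sub (ex c)).up w w)

lemma Cx.In.rnd {A : Type} [CommRing A] [Algebra ℝ A] {K : Cx A} {w : ℕ} {b : BL} {x : A}
    (h : K.In w w b x) (k n : ℕ) : K.In w w (b.rnd w k n) x := by
  rw [BL.rnd, BL.k_eq, CP.k1_eq]
  exact ⟨_, is_pC is_vx _ _, (h.sub (Is.in (is_pC is_vx _ _))).up⟩

/-- The expressions `es` are positive after the definitions. -/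
def ChkR (es : List Ex) : List Ex → List ℝ → Prop
  | [], env => ∀ e ∈ es, 0 < e.ev env
  | d :: ds, env => ChkR es ds (env ++ [d.ev env])

def chkB (w k n : ℕ) (es : List Ex) : List Ex → List BL → Bool
  | [], env => es.all fun e => (exB env e).k (BL.pos w w)
  | d :: ds, env => ((exB env d).rnd w k n).k fun b => chkB w k n es ds (env ++ [b])

lemma chkB_ok {η ξ : ℝ} {h1 : |η| ≤ 1} {h2 : |ξ| ≤ 1} {w k n : ℕ} {es : List Ex} (ds : List Ex) :
    ∀ {env : List BL} {x : List ℝ}, List.Forall₂ ((cxR h1 h2).In w w) env x →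
      chkB w k n es ds env = true → ChkR es ds x := by
  induction ds with
  | nil =>
    intro env x h hc e he
    have := List.all_eq_true.1 hc e he
    rw [BL.k_eq] at this
    exact (exB_in h e).pos this
  | cons d ds ih =>
    intro env x h hc
    rw [chkB, BL.k_eq] at hc
    exact ih (List.rel_append h (.cons ((exB_in h d).rnd k n) .nil)) hc

def cov (f : ℚ → ℚ → Bool) : ℚ → List ℚ → Bool
  | _, [] => true
  | a, b :: l => f a b && cov f b l

lemma cov_ok {f : ℚ → ℚ → Bool} {s : ℝ} (l : List ℚ) : ∀ {a b : ℚ}, cov f a (b :: l) = true →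
    a ≤ s → s ≤ (l.getLastD b : ℚ) → ∃ a' b' : ℚ, f a' b' = true ∧ a' ≤ s ∧ s ≤ b' := by
  induction l with
  | nil =>
    intro a b h h1 h2
    exact ⟨a, b, by simpa [cov] using h, h1, h2⟩
  | cons d l ih =>
    intro a b h h1 h2
    rw [cov, Bool.and_eq_true] at h
    rcases le_total s b with h3 | h3
    · exact ⟨a, b, h.1, h1, h3⟩
    · exact ih h.2 h3 (by rwa [List.getLastD_cons] at h2)

/-! The weights of the shooting argument. -/

def lamOk (N y : ℕ) (β : ℤ) (Λ : ℕ) : ℕ → ℕ → ℕ → Bool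
  | 0, _, l => decide (l ≤ Λ)
  | n + 1, j, l => decide (l ≤ Λ) && frc ((j * N : ℕ) - β).natAbs fun q => decide (0 < q) &&
      frc (((1 + j) * N + l * (y * j)) / q + 1) fun l' => frc (j + 1) fun j' =>
        lamOk N y β Λ n j' l'

lemma lamOk_ok {N y : ℕ} {β : ℤ} {Λ : ℕ} (n : ℕ) : ∀ {j l : ℕ}, lamOk N y β Λ n j l = true →
    (∀ i : ℕ, j + n ≤ i → (1 + i) * (N : ℝ) + Λ * (y * i) ≤ Λ * |(i : ℝ) * N - β|) →
    ∃ lam : ℕ → ℕ, lam j = l ∧ ∀ i, lam i ≤ Λ ∧ (j ≤ i →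
      (1 + i) * (N : ℝ) + lam i * (y * i) ≤ lam (i + 1) * |(i : ℝ) * N - β|) := by
  induction n with
  | zero =>
    intro j l h ht
    have hl : l ≤ Λ := by simpa [lamOk] using h
    have h1 : ∀ i, (if i ≤ j then l else Λ) ≤ Λ := fun i => by split_ifs; exacts [hl, le_rfl]
    refine ⟨fun i => if i ≤ j then l else Λ, if_pos le_rfl, fun i => ⟨h1 i, fun hi => ?_⟩⟩
    beta_reduce
    rw [if_neg (by omega : ¬ i + 1 ≤ j)]
    refine le_trans ?_ (ht i hi)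
    gcongr
    exact h1 i
  | succ n ih =>
    intro j l h ht
    simp only [lamOk, frc_eq, Bool.and_eq_true, decide_eq_true_eq] at h
    obtain ⟨h1, h2, h3⟩ := h
    obtain ⟨lam, e, hl⟩ := ih h3 fun i hi => ht i (by omega)
    refine ⟨fun i => if i ≤ j then l else lam i, if_pos le_rfl, fun i => ⟨?_, fun hi => ?_⟩⟩
    · beta_reduce
      split_ifs
      exacts [h1, (hl i).1]
    · beta_reduce
      rw [if_neg (by omega : ¬ i + 1 ≤ j)]
      rcases hi.eq_or_lt with rfl | hi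
      · rw [if_pos le_rfl, e]
        have a1 := ((Nat.div_lt_iff_lt_mul h2).1
          (Nat.lt_succ_self (((1 + j) * N + l * (y * j)) / _))).le
        have a2 := (Nat.cast_le (α := ℝ)).2 a1
        rw [Nat.cast_mul, Nat.cast_natAbs] at a2
        push_cast at a2 ⊢
        exact a2
      · rw [if_neg hi.not_ge]
        exact (hl i).2 hi

/-! Sums of series. -/

lemma hs_abs_le {s v B : ℝ} {y : ℝ⟦X⟧} (h : HS s y v) (hs : |s| ≤ 1) (hB : ∀ m, nm 1 m y ≤ B) :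
    |v| ≤ B := by
  rw [← h.2, ev, ← Real.norm_eq_abs]
  refine (norm_tsum_le_tsum_norm h.1).trans (h.1.tsum_le_of_sum_range_le fun m => ?_)
  refine (sum_le_sum fun n _ => ?_).trans (hB m)
  rw [Real.norm_eq_abs, abs_mul, abs_pow]
  gcongr

lemma hs_sub {t : ℝ} {y z : ℝ⟦X⟧} {v w : ℝ} (h1 : HS t y v) (h2 : HS t z w) :
    HS t (y - z) (v - w) := by
  rw [sub_eq_add_neg, sub_eq_add_neg]
  exact h1.add h2.neg

lemma coeff_le {B : ℝ} {y : ℝ⟦X⟧} (hB : ∀ m, nm 1 m y ≤ B) (n : ℕ) : |coeff n y| * 1 ^ n ≤ B :=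
  (single_le_sum (f := fun n => |coeff n y| * (1 : ℝ) ^ n) (fun _ _ => by positivity)
    (self_mem_range_succ n)).trans (hB (n + 1))

lemma nm_le_SS (m : ℕ) (y : ℝ⟦X⟧) : nm 1 m y ≤ SS m y :=
  le_add_of_nonneg_right (nm_nonneg zero_le_one _)

lemma nm_deriv (m : ℕ) (y : ℝ⟦X⟧) : nm 1 m (d⁄dX ℝ y) ≤ SS (m + 1) y := by
  refine le_trans (le_of_eq ?_) (le_add_of_nonneg_left (nm_nonneg zero_le_one _))
  rw [nm, nm, sum_range_succ']
  simp [th, coeff_succ_X_mul]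

/-- The rational number given by the head of a row. -/
def hq (k : ℕ) (l : List ℤ) : ℚ := l.headD 0 / 2 ^ k

lemma rv_zero (k : ℕ) (l : List ℤ) : rv (0 : ℝ) k l = hq k l := by
  cases l <;> simp [rv, hq, i2, rowV, div_eq_inv_mul]

lemma z1 : |(0 : ℝ)| ≤ 1 := by simp

/-- The tests: expressions, definitions and the degree. -/
structure Ts where
  es : List Ex
  ds : List Ex
  n : ℕ

def Ts.l (T : Ts) (r x w g : ℝ) : Prop := ChkR T.es T.ds [x, w, g, r]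

/-- The solution has been continued up to `c`. -/
def Pre (T : Ts) (e r c w : ℝ) : Prop := (c = 0 ∧ w = 1 - r) ∨ (0 < c ∧ InnerTo T.l e r c w)

/-- The state at `c`. -/
def St (T : Ts) (g : Gl) {P : Type} [TopologicalSpace P] (t : P → ℝ) (c A B : ℚ) (err : ℕ) : Prop :=
  ∃ ι : P → ℝ, Continuous ι ∧ ∀ p, Pre T (g.e 0) (g.r 0 + t p) c (ι p) ∧
    |ι p - (A + t p * B)| ≤ err / SC

namespace Dk

variable (D : Dk) (T : Ts) (g : Gl) (c A B : ℚ) (err : ℕ)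

def h : ℚ := D.sub.getLastD D.s1
def dA : ℚ := A - hq D.kv (D.V.headD [])
def dB : ℚ := B - hq D.kw (D.Z.headD [])
def ein : ℚ := (|D.dA A| * SC + |D.dB B| * g.T0 + err) / SC
def at1 (k : ℕ) (L : List (List ℤ)) : BL := ex (pC D.wj (CP.rat D.h) k L)
def eout : ℕ := ((((D.at1 D.kv D.V).sub (ex (CP.rat D.Ao))).add
  ((((D.at1 D.kw D.Z).sub (ex (CP.rat D.Bo))).tight D.wj D.wj).mul (CP.int 0, g.T0))).add
    (((D.at1 D.kw D.E).tight D.wj D.wj).mul (CP.int 0, D.τ0))).up D.wj D.wj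
def ew : ℕ := ((D.bv g D.τ).sub (D.bp D.kp D.P)).up D.w1 D.w2
def eg : ℕ := ((((D.bb' g).add ((D.bd D.kw D.E).mul (CP.int 0, D.τ))).add
  ((D.bp D.kw D.E).mul (CP.int 0, D.τ))).sub (D.bd D.kp D.P)).up D.w1 D.w2
def er : ℕ := (((ex (CP.rat (hq g.kr g.rl))).add (CP.int 0, g.T0)).sub (ex (CP.rat g.rlo))).up
  D.wj D.wj

def sub1 (ew eg er : ℕ) (a b : ℚ) : Bool :=
  CP.k1 ((CP.rat ((a + b) / 2)).add ((CP.rat ((b - a) / 2)).mul (CP.vx D.wp))) fun s =>
    (ex ((CP.rat c).add ((CP.rat D.ρ).mul s))).k fun bx =>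
    (BL.rnd D.wp D.kp T.n (pC D.wp s D.kp D.P, ew)).k fun bw =>
    (BL.rnd D.wp D.kp T.n (BL.mul (dC D.wp s D.kp D.P, eg) (ex (CP.rat D.ρ⁻¹)))).k fun bg =>
      chkB D.wp D.kp T.n T.es T.ds [bx, bw, bg, (CP.rat g.rlo, er)]

/-- The tests on the subintervals. -/
def okS : Bool := frc (D.ew g) fun ew => frc (D.eg g) fun eg => frc (D.er g) fun er =>
  cov (D.sub1 T g c ew eg er) 0 (D.s1 :: D.sub)

/-- The common tests. -/
def okC : Bool := decide (0 < D.ρ) && decide (0 < D.h) && decide (D.h < 1) &&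
  decide (D.co = c + D.ρ * D.h) && decide (D.ein g A B err ≤ D.τ / SC) && decide (D.τ0 ≤ D.τ) &&
  decide (D.eout g ≤ D.eo)

/-- The tests for a forward step. -/
def okF : Bool := !D.wz && frc (max (D.k1 g c D.τ) (D.k2 g c D.τ)) fun k => frc (D.r0 g c) fun r =>
  decide (D.ein g A B err + D.Λ * (r / SC + k / SC * (D.τ0 / SC)) ≤ D.τ0 / SC) &&
  decide ((1 : ℚ) ≤ D.Λ * (hq D.kw D.y - k / SC)) &&
  decide ((2 : ℚ) ≤ D.Λ * (hq D.kw D.y - k / SC + kI c * hq D.kw (D.W.headD [])))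

/-- The tests for the shooting step. -/
def okW : Bool := D.wz && frc (max (D.k1 g c D.τ) (D.k2 g c D.τ)) fun k => frc (D.r0 g c) fun r =>
  decide (c ≠ 0) && decide (0 < D.τ0) &&
  decide ((D.Λ : ℚ) * (r / SC + k / SC * (D.τ0 / SC)) < D.τ0 / SC) &&
  decide ((0 : ℚ) < hq D.kw D.y - k / SC) &&
  lamOk (2 ^ D.kw) (D.y.headD 0).toNat (D.β1.headD 0) D.Λ D.n0 0 0 &&
  decide ((1 : ℚ) + D.Λ * hq D.kw D.y ≤ D.Λ) &&
  decide ((1 : ℚ) + D.n0 + D.Λ * (hq D.kw D.y * D.n0) ≤ D.Λ * (D.n0 - hq D.kw D.β1)) &&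
  decide (D.sg.natAbs ≤ 1) &&
  decide (((D.τ0 : ℚ) + err) / SC < D.dA A + D.sg * (g.T0 / SC) * D.dB B) &&
  decide (D.dA A - D.sg * (g.T0 / SC) * D.dB B < -(((D.τ0 : ℚ) + err) / SC))

variable {D T g c A B err}

lemma sub1_ok {ew eg er : ℕ} {a b : ℚ} (hc : D.sub1 T g c ew eg er a b = true) {s w v r : ℝ}
    (h1 : a ≤ s) (h2 : s ≤ b) (hw : |w - pv 0 s D.kp D.P| ≤ ew / SC)
    (hv : |v - pd 0 s D.kp D.P| ≤ eg / SC) (hr : |r - g.rlo| ≤ er / SC) :
    T.l r (c + D.ρ * s) w (v * (D.ρ⁻¹ : ℚ)) := by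
  obtain ⟨ξ, hξ, e⟩ : ∃ ξ : ℝ, |ξ| ≤ 1 ∧ s = ((a + b) / 2 : ℚ) + ((b - a) / 2 : ℚ) * ξ := by
    push_cast
    rcases (h1.trans h2).eq_or_lt with h | h
    · exact ⟨0, z1, by linarith⟩
    · have : (0 : ℝ) < b - a := by linarith
      refine ⟨(2 * s - a - b) / (b - a), ?_, by field_simp; ring⟩
      rw [abs_div, abs_of_pos this, div_le_one this, abs_le]
      constructor <;> linarith
  have is : Is D.wp D.wp (0 : ℝ) ξ _ s := e ▸ (is_rat ((a + b) / 2)).add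
    ((is_rat ((b - a) / 2)).mul is_vx)
  simp only [sub1, CP.k1_eq, BL.k_eq] at hc
  have ir : (cxR z1 hξ).In D.wp D.wp (CP.rat g.rlo, er) r := ⟨(g.rlo : ℝ), is_rat g.rlo, hr⟩
  refine chkB_ok (h1 := z1) (h2 := hξ) _ (.cons (Is.in (K := cxR z1 hξ)
    ((is_rat c).add ((is_rat D.ρ).mul is))) (.cons (Cx.In.rnd ⟨_, is_pC is _ _, hw⟩ _ _)
      (.cons (Cx.In.rnd (Cx.In.mul ⟨_, is_dC is _ _, hv⟩ (Is.in (K := cxR z1 hξ)
        (is_rat D.ρ⁻¹))) _ _) (.cons ir .nil)))) hc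

lemma ein_le {ι t : ℝ} (ht : |t| ≤ g.T0 / SC) (h : |ι - (A + t * B)| ≤ err / SC) :
    |ι - (rv 0 D.kv (D.V.headD []) + t * rv 0 D.kw (D.Z.headD []))| ≤ (D.ein g A B err : ℚ) := by
  have hs := SC_pos
  have e : ι - (rv 0 D.kv (D.V.headD []) + t * rv 0 D.kw (D.Z.headD [])) =
      (D.dA A : ℚ) + t * (D.dB B : ℚ) + (ι - (A + t * B)) := by
    rw [rv_zero, rv_zero, dA, dB]
    push_cast
    ring
  have a1 := mul_le_mul_of_nonneg_right ht (abs_nonneg ((D.dB B : ℚ) : ℝ))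
  rw [← abs_mul] at a1
  rw [e]
  refine ((abs_add_le _ _).trans (add_le_add ((abs_add_le _ _).trans (add_le_add le_rfl a1))
    h)).trans (le_of_eq ?_)
  rw [ein]
  push_cast
  field_simp

/-- The sum of a solution is a piece of the profile. -/
lemma piece (hC : D.okC g c A B err = true) (hS : D.okS T g c = true) {t ι : ℝ} {u δ : ℝ⟦X⟧}
    (ht : |t| ≤ g.T0 / SC) (hp : Pre T (g.e 0) (g.r 0 + t) c ι) (h0 : coeff 0 u = ι)
    (hG : AF (D.sm c) (C (g.e 0)) (D.sx c) (C (g.r 0 + t)) u * th u + C (kI c : ℝ) * u +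
      C (kI c * (g.r 0 + t - 1)) -
        X * NG (C (D.ρ : ℝ)) (D.sm c) (C (kI c : ℝ)) (C (g.r 0 + t)) u = 0)
    (hu : u = pv (C 0) X D.kv D.V + C t * pv (C 0) X D.kw D.Z + pv (C 0) X D.kw D.E * δ)
    (hδ : ∀ m, SS m δ ≤ D.τ0 / SC)
    (hA : constantCoeff (AF (D.sm c) (C (g.e 0)) (D.sx c) (C (g.r 0 + t)) (C ι)) + kI c ≠ 0) :
    (∀ m, nm 1 m u ≤ (D.bv g D.τ).up D.w1 D.w2 / SC) ∧
      Pre T (g.e 0) (g.r 0 + t) D.co (ev u D.h) ∧ |ev u D.h - (D.Ao + t * D.Bo)| ≤ D.eo / SC := by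
  simp only [okC, Bool.and_eq_true, decide_eq_true_eq] at hC
  obtain ⟨⟨⟨⟨⟨⟨c1, c2⟩, c3⟩, c4⟩, -⟩, c5⟩, c6⟩ := hC
  have hs := SC_pos
  have ρ0 : (0 : ℝ) < D.ρ := by exact_mod_cast c1
  have h1 : (0 : ℝ) < D.h := by exact_mod_cast c2
  have h2 : (D.h : ℝ) < 1 := by exact_mod_cast c3
  have eco : (D.co : ℝ) = c + D.ρ * D.h := by exact_mod_cast c4
  have hδ' : ∀ m, SS m δ ≤ D.τ / SC := fun m =>
    (hδ m).trans (div_le_div_of_nonneg_right (Nat.cast_le.2 c5) hs.le)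
  have id : ∀ m, (cxS z1 m).In D.w1 D.w2 (CP.int 0, D.τ) δ := fun m =>
    Cx.in_zero _ ((nm_le_SS m δ).trans (hδ' m))
  have id' : ∀ m, (cxS z1 m).In D.w1 D.w2 (CP.int 0, D.τ) (d⁄dX ℝ δ) := fun m =>
    Cx.in_zero _ ((nm_deriv m δ).trans (hδ' _))
  have iu : ∀ m, (cxS z1 m).In D.w1 D.w2 (D.bv g D.τ) u := fun m =>
    hu ▸ (D.in_bb g z1 m ht).add ((D.in_p z1 m _ _).mul (id m))
  have eu' : d⁄dX ℝ u = pd (C 0) X D.kv D.V + C t * pd (C 0) X D.kw D.Z +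
      pd (C 0) X D.kw D.E * δ + pv (C 0) X D.kw D.E * d⁄dX ℝ δ := by
    rw [hu]
    simp only [map_add, Derivation.leibniz, pv_deriv, derivative_C, smul_eq_mul]
    ring
  have bw : ∀ m, nm 1 m (u - pv (C 0) X D.kp D.P) ≤ D.ew g / SC := fun m =>
    ((iu m).sub (D.in_p z1 m _ _)).up
  have bg : ∀ m, nm 1 m (d⁄dX ℝ u - pd (C 0) X D.kp D.P) ≤ D.eg g / SC := fun m => eu' ▸
    ((((D.in_bb' g z1 m ht).add ((D.in_d z1 m _ _).mul (id m))).add
      ((D.in_p z1 m _ _).mul (id' m))).sub (D.in_d z1 m _ _)).up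
  have bu := coeff_le fun m => (iu m).up
  refine ⟨fun m => (iu m).up, ?_, ?_⟩
  swap
  · have hh : |(D.h : ℝ)| < 1 := by rwa [abs_of_pos h1]
    have a1 := hs_ev one_pos (coeff_le fun m => (nm_le_SS m δ).trans (hδ m)) hh
    have a2 := hs_abs_le a1 hh.le fun m => (nm_le_SS m δ).trans (hδ m)
    have a3 := (((hs_pv 0 D.h D.kv D.V).1.add ((hs_C _ t).mul (hs_pv 0 D.h D.kw D.Z).1)).add
      ((hs_pv 0 D.h D.kw D.E).1.mul a1)).2
    have i1 : ∀ k L, (cxR z1 z1).In D.wj D.wj (D.at1 k L) (pv 0 (D.h : ℝ) k L) := fun k L =>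
      Is.in (is_pC (is_rat D.h) k L)
    have i2 : ∀ q : ℚ, (cxR z1 z1).In D.wj D.wj (ex (CP.rat q)) (q : ℝ) := fun q =>
      Is.in (is_rat q)
    have a4 := ((((i1 D.kv D.V).sub (i2 D.Ao)).add (((i1 D.kw D.Z).sub (i2 D.Bo)).tight.mul
      (Cx.in_zero _ ht))).add ((i1 D.kw D.E).tight.mul (Cx.in_zero _ a2))).up
    rw [hu, a3]
    refine le_trans (le_of_eq (congrArg abs ?_))
      (a4.trans (div_le_div_of_nonneg_right (Nat.cast_le.2 c6) hs.le))
    ring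
  let U : ℝ → ℝ := fun x => ev u ((x - c) / D.ρ)
  have hm : ∀ x ∈ Set.Ioo ((c : ℝ) - D.ρ) (c + D.ρ), |(x - c) / D.ρ| < 1 := fun x hx => by
    rw [abs_div, abs_of_pos ρ0, div_lt_one ρ0, abs_lt]
    constructor <;> linarith [hx.1, hx.2]
  have hd : ∀ x ∈ Set.Ioo ((c : ℝ) - D.ρ) (c + D.ρ), ∃ v, deriv U x = v * (D.ρ⁻¹ : ℚ) ∧
      HS ((x - c) / D.ρ) (d⁄dX ℝ u) v := fun x hx => by
    obtain ⟨v, a1, a2⟩ := ev_deriv one_pos bu (hm x hx)
    refine ⟨v, ?_, a2⟩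
    have := (a1.comp x (((hasDerivAt_id x).sub_const (c : ℝ)).div_const (D.ρ : ℝ))).deriv
    simpa [U, Function.comp_def] using this
  have hr : |g.r 0 + t - g.rlo| ≤ D.er g / SC := by
    rw [Gl.r, rv_zero]
    exact (((Is.in (K := cxR z1 z1) (is_rat (hq g.kr g.rl))).add (Cx.in_zero _ ht)).sub
      (Is.in (K := cxR z1 z1) (is_rat g.rlo))).up
  have hP : Pc T.l (g.e 0) (g.r 0 + t) c D.ρ D.co U := by
    refine ⟨fun x hx => ?_, fun x hx => ?_, fun x hx => ?_⟩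
    · exact ((ev_analytic one_pos bu (hm x hx)).contDiffAt.comp x
        (by fun_prop : ContDiffAt ℝ ∞ (fun x : ℝ => (x - c) / D.ρ) x)).contDiffWithinAt
    · obtain ⟨v, a1, a2⟩ := hd x hx
      have a3 := hs_ev one_pos bu (hm x hx)
      rw [a1]
      change Ode _ _ x (ev u ((x - c) / D.ρ)) _
      have ex : (c : ℝ) + D.ρ * ((x - c) / D.ρ) = x := by field_simp; ring
      generalize (x - c) / D.ρ = s at a2 a3 ex ⊢
      have sx : HS s (D.sx c) x := ex ▸ (hs_C s _).add ((hs_C s _).mul (hs_X s))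
      have s1 : HS s 1 1 := by simpa using hs_C s 1
      have ev0 : ∀ {y : ℝ⟦X⟧} {z : ℝ}, ev y s = z → y = 0 → z = 0 := fun h1 h2 => by
        simpa [h2, ev, eq_comm] using h1
      unfold Ode
      push_cast
      by_cases hc : c = 0
      · have a4 := (Ex.hs (.cons (hs_X s) (.cons a3 (.cons ((hs_X s).mul a2) (.cons
          (hs_C s (g.r 0 + t)) (.cons (hs_C s (g.e 0)) (.cons sx (.cons s1 (.cons s1
            (.cons (hs_C s D.ρ) .nil))))))))) eG).2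
        rw [ev_eG, ev_eG] at a4
        simp only [sm, kI, if_pos hc, th, Int.cast_one, one_mul, map_sub, map_one] at hG
        replace a4 := ev0 a4 (by linear_combination hG)
        rw [hc, Rat.cast_zero, zero_add] at ex
        rw [← ex] at a4 ⊢
        unfold AF NG at a4 ⊢
        field_simp
        linear_combination a4
      · have a4 := (Ex.hs (.cons s1 (.cons a3 (.cons a2 (.cons
          (hs_C s (g.r 0 + t)) (.cons (hs_C s (g.e 0)) (.cons sx (.cons sx (.cons (hs_C s 0)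
            (.cons (hs_C s D.ρ) .nil))))))))) eG).2
        rw [ev_eG, ev_eG] at a4
        simp only [sm, kI, if_neg hc, th, Int.cast_zero, zero_mul, map_zero] at hG a4
        replace a4 := ev0 a4 (mul_left_cancel₀ X_ne_zero (by linear_combination hG))
        unfold AF NG at a4 ⊢
        field_simp
        linear_combination a4
    · have hx' : x ∈ Set.Ioo ((c : ℝ) - D.ρ) (c + D.ρ) :=
        ⟨by linarith [hx.1], by nlinarith [hx.2]⟩
      obtain ⟨v, a1, a2⟩ := hd x hx'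
      have a3 := hs_ev one_pos bu (hm x hx')
      have a4 := (hm x hx').le
      have a5 : 0 ≤ (x - c) / D.ρ := div_nonneg (by linarith [hx.1]) ρ0.le
      have a6 : (x - c) / D.ρ ≤ D.h := by rw [div_le_iff₀ ρ0]; linarith [hx.2]
      simp only [okS, frc_eq] at hS
      obtain ⟨a, b, b1, b2, b3⟩ := cov_ok D.sub hS (by simpa using a5) a6
      have := sub1_ok b1 b2 b3 (hs_abs_le (hs_sub a3 (hs_pv 0 _ D.kp D.P).1) a4 bw)
        (hs_abs_le (hs_sub a2 (hs_pv 0 _ D.kp D.P).2) a4 bg) hr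
      rw [a1]
      rwa [show (c : ℝ) + D.ρ * ((x - c) / D.ρ) = x by field_simp; ring] at this
  have e1 : U D.co = ev u D.h := by
    simp only [U, eco]
    congr 1
    field_simp
    ring
  have e0 : U c = ι := by simp [U, ev_zero, h0]
  have m1 := mul_pos ρ0 h1
  have m2 := mul_lt_mul_of_pos_left h2 ρ0
  rw [← e1]
  rcases hp with ⟨a1, -⟩ | ⟨a1, a2⟩
  · rw [a1] at hP eco
    exact .inr ⟨by linarith, hP.start (by linarith) (by linarith)⟩
  · refine .inr ⟨by linarith, hP.extend (e0 ▸ a2) a1.le (by linarith) (by linarith) ?_⟩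
    have hc : c ≠ 0 := by rintro rfl; simp at a1
    rw [e0]
    simpa [AF, sm, sx, kI, hc, map_ofNat] using hA

variable {P : Type} [TopologicalSpace P]

omit [TopologicalSpace P] in
lemma pre0 {t ι : P → ℝ} (h : ∀ p, Pre T (g.e 0) (g.r 0 + t p) c (ι p)) (hc : c = 0) (p : P) :
    ι p = 1 - (g.r 0 + t p) := by
  rcases h p with ⟨-, a⟩ | ⟨a, -⟩
  · exact a
  · simp [hc] at a

lemma ein_τ (hC : D.okC g c A B err = true) : ((D.ein g A B err : ℚ) : ℝ) ≤ D.τ / SC ∧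
    (D.τ0 : ℝ) / SC ≤ D.τ / SC ∧ |(D.h : ℝ)| < 1 := by
  simp only [okC, Bool.and_eq_true, decide_eq_true_eq] at hC
  obtain ⟨⟨⟨⟨⟨⟨-, c2⟩, c3⟩, -⟩, c4⟩, c5⟩, -⟩ := hC
  refine ⟨by simpa using (Rat.cast_le (K := ℝ)).2 c4, div_le_div_of_nonneg_right (Nat.cast_le.2 c5) SC_pos.le, ?_⟩
  rw [abs_of_pos (by exact_mod_cast c2)]
  exact_mod_cast c3

/-- A forward step. -/
theorem step_fwd {t : P → ℝ} (ht : Continuous t) (hT : ∀ p, |t p| ≤ g.T0 / SC)
    (h : St T g t c A B err) (hC : D.okC g c A B err = true) (hS : D.okS T g c = true)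
    (hF : D.okF g c A B err = true) : St T g t D.co D.Ao D.Bo D.eo := by
  obtain ⟨ι, hι, h⟩ := h
  obtain ⟨b1, b2, b3⟩ := ein_τ hC
  have a1 := fun p => ein_le (D := D) (hT p) (h p).2
  let F := D.nf g c z1 ht hι (pre0 fun p => (h p).1) hT D.τ fun p => (a1 p).trans b1
  simp only [okF, frc_eq, Bool.and_eq_true, decide_eq_true_eq, Bool.not_eq_true'] at hF
  obtain ⟨c1, ⟨c2, c3⟩, c4⟩ := hF
  have d2 := (Rat.cast_le (K := ℝ)).2 c2
  have d3 := (Rat.cast_le (K := ℝ)).2 c3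
  have d4 := (Rat.cast_le (K := ℝ)).2 c4
  simp only [Rat.cast_add, Rat.cast_mul, Rat.cast_div, Rat.cast_sub, Rat.cast_natCast,
    Rat.cast_intCast, Rat.cast_one, Rat.cast_ofNat, ← rv_zero] at d2 d3 d4
  obtain ⟨u, cu, hu⟩ := F.fwd (τ := D.τ0 / SC) (e0 := (D.ein g A B err : ℚ)) (Λ := D.Λ)
    (α := kI c * rv 0 D.kw (D.W.headD [])) (by simp [F, nf, sI, c1])
    (by simp [F, nf, β, c1, rv, rowV]) b2 (fun p => by
      simpa only [F, nf, eqn, map_add, coeff_zero_eq_constantCoeff, map_mul, pv_zero,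
        constantCoeff_C] using a1 p)
    (by positivity) (by simp only [F, nf]; positivity) d2
    (by simp only [F, nf, pv_zero, eqn, le_refl]) d3 d4
  have key := fun p => (hu p).1.2.2.elim fun δ hδ =>
    piece hC hS (hT p) (h p).1 (hu p).1.1 (hu p).1.2.1 hδ.1 hδ.2 (hu p).2
  exact ⟨fun p => ev (u p) D.h, ev_cont one_pos (fun p => coeff_le (key p).1) cu b3,
    fun p => (key p).2⟩

/-- The shooting step. -/
theorem step_waz (h : St T g (Subtype.val : Set.Icc (-(g.T0 / SC) : ℝ) (g.T0 / SC) → ℝ) c A B err)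
    (hC : D.okC g c A B err = true) (hS : D.okS T g c = true) (hW : D.okW g c A B err = true) :
    ∃ t : ℝ, |t| ≤ g.T0 / SC ∧ St T g (fun _ : Unit => t) D.co D.Ao D.Bo D.eo := by
  obtain ⟨ι, hι, h⟩ := h
  obtain ⟨b1, b2, b3⟩ := ein_τ hC
  have hs := SC_pos
  have hT : ∀ p : Set.Icc (-(g.T0 / SC) : ℝ) (g.T0 / SC), |p.1| ≤ g.T0 / SC := fun p =>
    abs_le.2 p.2
  have a1 := fun p => ein_le (D := D) (hT p) (h p).2
  let F := D.nf g c z1 continuous_subtype_val hι (pre0 fun p => (h p).1) hT D.τ fun p =>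
    (a1 p).trans b1
  simp only [okW, frc_eq, Bool.and_eq_true, decide_eq_true_eq] at hW
  obtain ⟨c0, ⟨⟨⟨⟨⟨⟨⟨⟨⟨c1, c2⟩, c3⟩, c4⟩, c5⟩, c6⟩, c7⟩, c8⟩, c9⟩, c10⟩⟩ := hW
  have d3 := (Rat.cast_lt (K := ℝ)).2 c3
  have d4 := (Rat.cast_lt (K := ℝ)).2 c4
  have d6 := (Rat.cast_le (K := ℝ)).2 c6
  have d7 := (Rat.cast_le (K := ℝ)).2 c7
  have d9 := (Rat.cast_lt (K := ℝ)).2 c9
  have d10 := (Rat.cast_lt (K := ℝ)).2 c10
  simp only [Rat.cast_add, Rat.cast_mul, Rat.cast_div, Rat.cast_sub, Rat.cast_natCast, dA, dB,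
    Rat.cast_intCast, Rat.cast_one, Rat.cast_zero, Rat.cast_neg] at d3 d4 d6 d7 d9 d10
  have hN : (0 : ℝ) < 2 ^ D.kw := by positivity
  have y0 : (0 : ℝ) < hq D.kw D.y := by
    refine lt_of_lt_of_le d4 (sub_le_self _ ?_)
    positivity
  have ey : (((D.y.headD 0).toNat : ℕ) : ℝ) = hq D.kw D.y * 2 ^ D.kw := by
    have : 0 < D.y.headD 0 := by
      rw [hq] at y0
      push_cast at y0
      exact_mod_cast (div_pos_iff_of_pos_right hN).1 y0
    rw [← Int.cast_natCast, Int.toNat_of_nonneg this.le, hq]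
    push_cast
    field_simp
  have eβ : ((D.β1.headD 0 : ℤ) : ℝ) = hq D.kw D.β1 * 2 ^ D.kw := by
    rw [hq]
    push_cast
    field_simp
  obtain ⟨lam, -, hl⟩ := lamOk_ok _ c5 fun i hi => by
    have e1 : (D.n0 : ℝ) ≤ i := by exact_mod_cast (by omega : D.n0 ≤ i)
    have e2 := mul_le_mul_of_nonneg_left d6 (sub_nonneg.2 e1)
    have e3 := mul_le_mul_of_nonneg_left (le_abs_self ((i : ℝ) - hq D.kw D.β1)) D.Λ.cast_nonneg
    rw [ey, eβ, Nat.cast_pow, Nat.cast_ofNat, ← sub_mul, abs_mul, abs_of_pos hN]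
    nlinarith
  have hg : |(D.sg : ℝ) * (g.T0 / SC)| ≤ g.T0 / SC := by
    have : |(D.sg : ℝ)| ≤ 1 := by
      rw [← Int.cast_abs, ← Nat.cast_natAbs]
      exact_mod_cast c8
    rw [abs_mul, abs_of_nonneg (by positivity : (0 : ℝ) ≤ g.T0 / SC)]
    exact mul_le_of_le_one_left (by positivity) this
  have := isPreconnected_Icc (a := (-(g.T0 / SC) : ℝ)) (b := g.T0 / SC) |> Subtype.preconnectedSpace
  obtain ⟨p, u, ⟨u1, u2, δ, u3, u4⟩, u5⟩ := F.waz (τ := D.τ0 / SC) (Λ := D.Λ)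
    (lam := fun j => lam j) b2 (by positivity) d3
    (fun j => ⟨by positivity, Nat.cast_le.2 (hl j).1⟩) (fun j => by
      have e1 := (hl j).2 j.zero_le
      rw [ey, eβ, Nat.cast_pow, Nat.cast_ofNat, ← sub_mul, abs_mul, abs_of_pos hN] at e1
      simp only [F, nf, eqn, kI, if_neg c1, sI, β, c0, if_true, rv_zero, Int.cast_zero, zero_mul,
        add_zero, Int.cast_one, one_mul]
      rw [abs_of_nonneg (by positivity)]
      refine le_of_mul_le_mul_right ?_ hN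
      linarith) (fun p => by simp [eqn, kI, c1])
    (.inr (by simpa [F, nf, eqn, kI, c1, rv_zero] using d4))
    (a := ⟨_, abs_le.1 hg⟩) (b := ⟨_, abs_le.1 (by rwa [abs_neg] :
      |-((D.sg : ℝ) * (g.T0 / SC))| ≤ g.T0 / SC)⟩) (by
      have := (abs_le.1 (h ⟨_, abs_le.1 hg⟩).2).1
      simp only [F, nf, eqn, map_add, coeff_zero_eq_constantCoeff, map_mul, pv_zero, rv_zero,
        constantCoeff_C] at this ⊢
      rw [add_div] at d9
      linarith) (by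
      have := (abs_le.1 (h ⟨_, abs_le.1 (by rwa [abs_neg] :
        |-((D.sg : ℝ) * (g.T0 / SC))| ≤ g.T0 / SC)⟩).2).2
      simp only [F, nf, eqn, map_add, coeff_zero_eq_constantCoeff, map_mul, pv_zero, rv_zero,
        constantCoeff_C] at this ⊢
      rw [add_div] at d10
      linarith)
  exact ⟨p, hT p, fun _ => ev u D.h, continuous_const, fun _ =>
    (piece hC hS (hT p) (h p).1 u1 u2 u3 u4 u5).2⟩

end Dk

lemma St.start (T : Ts) (g : Gl) {P : Type} [TopologicalSpace P] {t : P → ℝ} (ht : Continuous t) :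
    St T g t 0 (1 - hq g.kr g.rl) (-1) 0 :=
  ⟨fun p => 1 - (g.r 0 + t p), by fun_prop, fun p => ⟨.inl ⟨by simp, rfl⟩, by
    simp [Gl.r, rv_zero]; ring⟩⟩

end Pool.Agent.MP_187b32_an.PM
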